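import Pool.Agent.Lib.MP_188a32_co.GStmts
import Pool.Agent.Lib.MP_188a32_co_helper74.Over

/-!
# Step A: absorbing a crossing next to the axis
-/

set_option autoImplicit false

namespace Pool.Agent.LinKnot

open scoped Classical Topology
open Filter

lemma eventually_ne_affine (c d : ℝ) {D : ℝ} (hD : D ≠ 0) :
    ∀ᶠ ε in 𝓝[>] (0 : ℝ), c + ε * D ≠ d := by
  by_cases h : c = d
  · filter_upwards [self_mem_nhdsWithin] with ε hε
    have hε : 0 < ε := hε
    intro h'
    have : ε * D = 0 := by linarith
    rcases mul_eq_zero.1 this with h1 | h1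
    · exact hε.ne' h1
    · exact hD h1
  · have hc : Continuous fun ε : ℝ => c + ε * D := by fun_prop
    have h1 : Tendsto (fun ε : ℝ => c + ε * D) (𝓝[>] 0) (𝓝 c) := by
      have := (hc.tendsto 0).mono_left (nhdsWithin_le_nhds (s := Set.Ioi 0))
      simpa using this
    exact h1.eventually_ne h

/-- A point outside all vertices at which the projection differs. -/
lemma eventually_not_mem (L : List R3) {c D : ℝ} (hD : D ≠ 0) :
    ∀ᶠ ε in 𝓝[>] (0 : ℝ), ∀ q ∈ L, c + ε * D ≠ q 0 := by
  have : ∀ᶠ ε in 𝓝[>] (0 : ℝ), ∀ q ∈ L.toFinset, c + ε * D ≠ q 0 := by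
    rw [Filter.eventually_all_finset]
    intro q _
    exact eventually_ne_affine _ _ hD
  filter_upwards [this] with ε hε q hq
  exact hε q (by simpa using hq)

/-- An inner point of an edge of a state is no vertex. -/
lemma pt_not_mem {L : List R3} (hL : State L) {e : R3 × R3} (he : e ∈ edges L) (ho : OuterE e)
    {t : ℝ} (h0 : 0 < t) (h1 : t < 1) : pt e t ∉ L := by
  intro hm
  have h := hL.knot.mem_ends hm he (pt_mem_seg h0.le h1.le)
  rcases h with h | h
  · have : pt e t = pt e 0 := by rw [pt_zero]; exact h
    rw [eq_pt_iff (outer_ne hL he ho)] at this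
    exact h0.ne' this
  · have : pt e t = pt e 1 := by rw [pt_one]; exact h
    rw [eq_pt_iff (outer_ne hL he ho)] at this
    exact h1.ne this

end Pool.Agent.LinKnot

namespace Pool.Agent.LinKnot

open scoped Classical Topology
open Filter

lemma fst_mem_of_mem_pathEdges : ∀ {l : List R3} {y : R3} {e : R3 × R3},
    e ∈ pathEdges (l ++ [y]) → e.1 ∈ l
  | [], y, e, h => by simp at h
  | [a], y, e, h => by
    simp only [List.cons_append, List.nil_append, pathEdges_cons_cons, pathEdges_single,
      List.mem_singleton] at h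
    rw [h]; simp
  | a :: b :: l, y, e, h => by
    rw [List.cons_append, List.cons_append, pathEdges_cons_cons] at h
    rcases List.mem_cons.1 h with rfl | h
    · simp
    · exact List.mem_cons_of_mem _ (fst_mem_of_mem_pathEdges (l := b :: l) h)

lemma snd_mem_of_mem_pathEdges {x : R3} {l : List R3} {e : R3 × R3}
    (h : e ∈ pathEdges (x :: l)) : e.2 ∈ l := (List.of_mem_zip h).2

/-- The binding condition after a detour. -/
lemma bind_detour {x y : R3} {N ρ : List R3} (hS : State (x :: y :: ρ)) (hoe : OuterE (x, y))
    (hnd : (x :: N ++ y :: ρ).Nodup)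
    (hN : ∀ e ∈ pathEdges (x :: N ++ [y]), ∀ f ∈ pathEdges (x :: N ++ [y]), e.2 = f.1 →
      e.2 1 = 0 → ¬ (0 < e.1 1 ∧ 0 < f.2 1)) :
    ∀ e ∈ edges (x :: N ++ y :: ρ), ∀ f ∈ edges (x :: N ++ y :: ρ), e.2 = f.1 → e.2 1 = 0 →
      ¬ (0 < e.1 1 ∧ 0 < f.2 1) := by
  have hE : edges (x :: N ++ y :: ρ) = pathEdges (x :: N ++ [y]) ++ pathEdges (y :: ρ ++ [x]) :=
    edges_two_paths _ _ _ _
  have hE0 : edges (x :: y :: ρ) = (x, y) :: pathEdges (y :: ρ ++ [x]) := edges_cons_cons _ _ _
  have te : TypeOK (x, y) := hS.types _ (by rw [hE0]; simp)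
  have mO : ∀ e ∈ pathEdges (y :: ρ ++ [x]), e ∈ edges (x :: y :: ρ) := by
    intro e he; rw [hE0]; exact List.mem_cons_of_mem _ he
  have mE : (x, y) ∈ edges (x :: y :: ρ) := by rw [hE0]; simp
  have hx : x 1 = 0 → 0 < y 1 := by
    intro h0
    rcases te with h | h | h | h | h <;> simp only at h
    · exact h.2
    · linarith [h.1]
    · exact h.2
    · linarith [h.1]
    · linarith [hoe.2, h.2]
  have hy : y 1 = 0 → 0 < x 1 := by
    intro h0
    rcases te with h | h | h | h | h <;> simp only at h
    · exact h.1
    · exact h.1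
    · linarith [h.2]
    · linarith [hoe.1, h.1]
    · linarith [h.2]
  have hnd' := hnd
  simp only [List.cons_append, List.nodup_cons, List.mem_append, List.mem_cons, not_or,
    List.nodup_append] at hnd'
  obtain ⟨⟨n1, n2, n3⟩, n4, ⟨n5, n6⟩, n7⟩ := hnd'
  intro e he f hf hef h0 hpos
  rw [hE, List.mem_append] at he hf
  rcases he with he | he <;> rcases hf with hf | hf
  · exact hN e he f hf hef h0 hpos
  · -- `e` new, `f` old: the common point is `y`
    have h1 : e.2 ∈ N ++ [y] := snd_mem_of_mem_pathEdges (by simpa using he)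
    have h2 : f.1 ∈ y :: ρ := fst_mem_of_mem_pathEdges hf
    rw [hef] at h1
    have h3 : f.1 = y := by
      rcases List.mem_append.1 h1 with h | h
      · exact absurd rfl (n7 f.1 h f.1 (List.mem_cons.1 h2))
      · simpa using h
    have h4 : (x, y).2 = f.1 := h3.symm
    refine hS.bind (x, y) mE f (mO f hf) h4 ?_ ⟨hy ?_, hpos.2⟩
    · show y 1 = 0
      rw [← h3, ← hef]; exact h0
    · rw [← h3, ← hef]; exact h0
  · have h1 : e.2 ∈ ρ ++ [x] := snd_mem_of_mem_pathEdges (by simpa using he)
    have h2 : f.1 ∈ x :: N := fst_mem_of_mem_pathEdges hf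
    rw [hef] at h1
    have h3 : f.1 = x := by
      rcases List.mem_cons.1 h2 with h | h
      · exact h
      · rcases List.mem_append.1 h1 with h' | h'
        · exact absurd rfl (n7 f.1 h f.1 (Or.inr h'))
        · simpa using h'
    refine hS.bind e (mO e he) (x, y) mE (hef.trans h3) h0 ⟨hpos.1, hx ?_⟩
    rw [← h3, ← hef]; exact h0
  · exact hS.bind e (mO e he) f (mO f hf) hef h0 hpos

lemma length_filter_cons {α : Type} {E E' : List α} {a : α} {p : α → Bool} (h : E = a :: E')
    (hp : p a = true) : (E.filter p).length = (E'.filter p).length + 1 := by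
  subst h; simp [hp]

lemma length_filter_append {α : Type} {E E' E'' : List α} (h : E = E' ++ E'') (p : α → Bool) :
    (E.filter p).length = (E'.filter p).length + (E''.filter p).length := by
  subst h; simp

/-- Step A for an edge crossing over. -/
theorem absorb_over : AbsorbStmt Over := by
  intro x y ρ v w hL hoe hf hof hx hv hover
  set L := x :: y :: ρ with hLdef
  have he : (x, y) ∈ edges L := by rw [hLdef, edges_cons_cons]; simp
  have te : TypeOK (x, y) := hL.types _ he
  have tf : TypeOK (v, w) := hL.types _ hf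
  have hw : 0 < w 1 := by
    rcases tf with h | h | h | h | h <;> simp only at h
    · exact h.2
    · linarith [h.1]
    · exact h.2
    · linarith [h.1]
    · linarith [hof.2, h.2]
  obtain ⟨θ, φ, D, hθ0, hθ1, hφ0, hφ1, hD0, hpt, hD⟩ := hx.param
  obtain ⟨B, hB⟩ := exists_slopeBound L
  -- the binding at `v`: every outer edge at `v` is `(v, w)`
  have hvf : ∀ h ∈ edges L, OuterE h → h ≠ (v, w) → v ∉ ends h := by
    intro h hh hoh hne hvh
    rcases hvh with h1 | h1
    · exact hne (edges_eq_of_fst hL.knot.nodup hh hf h1.symm)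
    · have h1 : v = h.2 := h1
      have h2 := hL.bind h hh (v, w) hf h1.symm (by rw [← h1]; exact hv)
      apply h2
      refine ⟨?_, hw⟩
      have th : TypeOK h := hL.types _ hh
      have h3 : h.2 1 = 0 := by rw [← h1]; exact hv
      rcases th with k | k | k | k | k
      · exact k.1
      · exact k.1
      · linarith [k.2]
      · linarith [hoh.1, k.1]
      · linarith [k.2]
  have hproj : ∀ c ε : ℝ, proj (![v 0 + ε * c, 0, 0] : R3) = proj (v, w).1 + ε • (c, (0 : ℝ)) := by
    intro c ε
    ext
    · simp [proj]
    · simp [proj, hv]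
  have hφ2 : (proj (v, w).2 - proj (v, w).1).2 = w 1 := by simp [proj, hv]
  have ev := eventually_legData hL he hf hoe hof hx hθ0 hθ1 hφ0 hφ1 hpt hD0 hD
    (a := (D, 0)) (b := (-D, 0)) (A := fun ε => ![v 0 + ε * D, 0, 0])
    (B := fun ε => ![v 0 + ε * (-D), 0, 0])
    (by unfold cross2; rw [hφ2]
        have := mul_pos (mul_self_pos.2 hD0) hw
        simp only [mul_zero, zero_sub]; linarith)
    (by unfold cross2; rw [hφ2]
        have := mul_pos (mul_self_pos.2 hD0) hw
        simp only [mul_zero, zero_sub]; linarith)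
    (hproj D) (hproj (-D))
  have hD0' : -D ≠ 0 := neg_ne_zero.2 hD0
  obtain ⟨ε, hleg, hS1, hS2⟩ := (ev.and ((eventually_not_mem L (c := v 0) hD0).and
    (eventually_not_mem L (c := v 0) hD0'))).exists
  set S : R3 := ![v 0 + ε * D, 0, 0] with hS
  set S' : R3 := ![v 0 + ε * (-D), 0, 0] with hS'
  set P := pagePt v B with hP
  set x1 := pt (x, y) (θ - ε) with hx1
  set y1 := pt (x, y) (θ + ε) with hy1
  have s1 : S 1 = 0 := rfl
  have s1' : S' 1 = 0 := rfl
  have p1 : P 1 = -1 := rfl
  have pneg : P 1 < 0 := by rw [p1]; norm_num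
  have x1p : 0 < x1 1 := pt_one_pos te hoe hleg.h1 (by linarith [hleg.h2, hleg.h0])
  have y1p : 0 < y1 1 := pt_one_pos te hoe (by linarith [hleg.h1, hleg.h0]) hleg.h2
  have x1n : x1 ∉ L := pt_not_mem hL he hoe hleg.h1 (by linarith [hleg.h2, hleg.h0])
  have y1n : y1 ∉ L := pt_not_mem hL he hoe (by linarith [hleg.h1, hleg.h0]) hleg.h2
  have Sn : S ∉ L := fun h => hS1 S h rfl
  have Sn' : S' ∉ L := fun h => hS2 S' h rfl
  have Pn : P ∉ L := pagePt_not_mem hB v
  have hεp := hleg.h0
  have hxy1 : x1 ≠ y1 := by
    intro h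
    rw [hx1, hy1, eq_pt_iff (outer_ne hL he hoe)] at h
    linarith
  have hSS : S ≠ S' := by
    intro h
    have h0 : v 0 + ε * D = v 0 + ε * (-D) := congrFun h 0
    have : ε * D = 0 := by linarith
    rcases mul_eq_zero.1 this with h1 | h1
    · exact hεp.ne' h1
    · exact hD0 h1
  set N : List R3 := [x1, S, P, S', y1] with hNdef
  have hNP : pathEdges (x :: N ++ [y]) = [(x, x1), (x1, S), (S, P), (P, S'), (S', y1), (y1, y)] :=
    rfl
  have hnd0 : (x :: y :: ρ).Nodup := hL.knot.nodup
  have hNn : ∀ z ∈ N, z ∉ L := by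
    intro z hz
    simp only [hNdef, List.mem_cons, List.not_mem_nil, or_false] at hz
    rcases hz with rfl | rfl | rfl | rfl | rfl <;> assumption
  have hNnd : N.Nodup := by
    have a1 : x1 ≠ S := fun h => by rw [h, s1] at x1p; exact lt_irrefl _ x1p
    have a2 : x1 ≠ P := fun h => by rw [h, p1] at x1p; linarith
    have a3 : x1 ≠ S' := fun h => by rw [h, s1'] at x1p; exact lt_irrefl _ x1p
    have a4 : S ≠ P := fun h => by have := congrFun h 1; rw [s1, p1] at this; norm_num at this
    have a5 : S ≠ y1 := fun h => by rw [← h, s1] at y1p; exact lt_irrefl _ y1p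
    have a6 : P ≠ S' := fun h => by have := congrFun h 1; rw [s1', p1] at this; norm_num at this
    have a7 : P ≠ y1 := fun h => by rw [← h, p1] at y1p; linarith
    have a8 : S' ≠ y1 := fun h => by rw [← h, s1'] at y1p; exact lt_irrefl _ y1p
    simp only [hNdef, List.nodup_cons, List.mem_cons, List.not_mem_nil, or_false, not_or,
      not_false_eq_true, List.nodup_nil, and_true]
    exact ⟨⟨a1, a2, a3, hxy1⟩, ⟨a4, hSS, a5⟩, ⟨a6, a7⟩, a8⟩
  have hnd : (x :: N ++ y :: ρ).Nodup := by
    rw [List.nodup_cons] at hnd0
    have hxN : x ∉ N := fun h => hNn x h (by simp [hLdef])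
    rw [List.cons_append, List.nodup_cons, List.mem_append, not_or, List.nodup_append]
    refine ⟨⟨hxN, hnd0.1⟩, hNnd, hnd0.2, ?_⟩
    rintro a ha b hb rfl
    exact hNn a ha (List.mem_cons_of_mem _ hb)
  have hyN : 0 < x 1 ∨ x 1 = 0 := by
    rcases hoe.1.lt_or_eq with h | h
    · exact Or.inl h
    · exact Or.inr h.symm
  have hyy : 0 < y 1 ∨ y 1 = 0 := by
    rcases hoe.2.lt_or_eq with h | h
    · exact Or.inl h
    · exact Or.inr h.symm
  have i1 : InnerE (S, P) := Or.inr ⟨s1, pneg⟩
  have i2 : InnerE (P, S') := Or.inl ⟨pneg, s1'⟩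
  -- the non-crossing facts
  have q12 : NC (x, x1) (x1, S) := hleg.nc_E1_E2
  have q14 : NC (x, x1) (S', y1) := hleg.nc_E1_E4
  have q15 : NC (x, x1) (y1, y) := hleg.nc_E1_E5
  have q24 : NC (x1, S) (S', y1) := hleg.nc_E2_E4
  have q25 : NC (x1, S) (y1, y) := hleg.nc_E2_E5
  have q45 : NC (S', y1) (y1, y) := hleg.nc_E4_E5
  have hnew : ∀ e' ∈ pathEdges (x :: N ++ [y]), OuterE e' → (e' = (x, x1) ∨ e' = (x1, S) ∨
      e' = (S', y1) ∨ e' = (y1, y)) := by
    intro e' he' ho
    rw [hNP] at he'
    simp only [List.mem_cons, List.not_mem_nil, or_false] at he'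
    rcases he' with rfl | rfl | rfl | rfl | rfl | rfl
    · exact Or.inl rfl
    · exact Or.inr (Or.inl rfl)
    · exact absurd ho i1.not_outer
    · exact absurd ho i2.not_outer
    · exact Or.inr (Or.inr (Or.inl rfl))
    · exact Or.inr (Or.inr (Or.inr rfl))
  have hnn : ∀ e' ∈ pathEdges (x :: N ++ [y]), ∀ f' ∈ pathEdges (x :: N ++ [y]), OuterE e' →
      OuterE f' → e' ≠ f' → NC e' f' := by
    intro e' he' f' hf' hoe' hof' hne
    rcases hnew e' he' hoe' with rfl | rfl | rfl | rfl <;>
      rcases hnew f' hf' hof' with rfl | rfl | rfl | rfl <;>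
      first
      | exact absurd rfl hne
      | assumption
      | exact NC.symm (by assumption)
  have hE0 : edges L = (x, y) :: pathEdges (y :: ρ ++ [x]) := edges_cons_cons _ _ _
  have mO : ∀ e ∈ pathEdges (y :: ρ ++ [x]), e ∈ edges L := by
    intro e he; rw [hE0]; exact List.mem_cons_of_mem _ he
  have hndE := nodup_edges hL.knot.nodup
  rw [hE0, List.nodup_cons] at hndE
  have heO : ∀ g ∈ pathEdges (y :: ρ ++ [x]), g ≠ (x, y) := by
    rintro g hg rfl; exact hndE.1 hg
  have hno : ∀ e' ∈ pathEdges (x :: N ++ [y]), ∀ g ∈ pathEdges (y :: ρ ++ [x]), OuterE e' →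
      OuterE g → NC e' g := by
    intro e' he' g hg hoe' hog
    have hg' := mO g hg
    have hge := heO g hg
    by_cases hgf : g = (v, w)
    · subst hgf
      rcases hnew e' he' hoe' with rfl | rfl | rfl | rfl
      · exact hleg.nc_E1_f
      · exact hleg.nc_E2_f
      · exact hleg.nc_E4_f
      · exact hleg.nc_E5_f
    · have hvg := hvf g hg' hog hgf
      rcases hnew e' he' hoe' with rfl | rfl | rfl | rfl
      · exact hleg.nc_E1_g hL he hf hoe hof hx hg' hog hge hgf
      · exact hleg.nc_E2_g hg' hog hge hgf hvg
      · exact hleg.nc_E4_g hg' hog hge hgf hvg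
      · exact hleg.nc_E5_g hL he hf hoe hof hx hg' hog hge hgf
  have hpre : PreState (x :: N ++ y :: ρ) := by
    apply preState_replace (M := []) hL
    · simp [hNdef]
    · exact hNnd
    · exact hNn
    · intro z hz h0
      simp only [hNdef, List.mem_cons, List.not_mem_nil, or_false] at hz
      rcases hz with rfl | rfl | rfl | rfl | rfl
      · linarith
      · rfl
      · rw [p1] at h0; norm_num at h0
      · rfl
      · linarith
    · intro e' he'
      rw [hNP] at he'
      simp only [List.mem_cons, List.not_mem_nil, or_false] at he'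
      rcases he' with rfl | rfl | rfl | rfl | rfl | rfl
      · rcases hyN with h | h
        · exact Or.inl ⟨h, x1p⟩
        · exact Or.inr (Or.inr (Or.inl ⟨h, x1p⟩))
      · exact Or.inr (Or.inl ⟨x1p, s1⟩)
      · exact Or.inr (Or.inr (Or.inr (Or.inr ⟨s1, pneg⟩)))
      · exact Or.inr (Or.inr (Or.inr (Or.inl ⟨pneg, s1'⟩)))
      · exact Or.inr (Or.inr (Or.inl ⟨s1', y1p⟩))
      · rcases hyy with h | h
        · exact Or.inl ⟨y1p, h⟩
        · exact Or.inr (Or.inl ⟨y1p, h⟩)
    · intro p hp hp1 q hq hne hq1
      have hpP : p = P := by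
        simp only [hNdef, List.mem_cons, List.not_mem_nil, or_false] at hp
        rcases hp with rfl | rfl | rfl | rfl | rfl
        · linarith
        · linarith
        · rfl
        · linarith
        · linarith
      subst hpP
      have hq' : q ∈ L := by
        rw [List.cons_append, List.mem_cons, List.mem_append] at hq
        rcases hq with h | h | h
        · rw [h]; simp [hLdef]
        · simp only [hNdef, List.mem_cons, List.not_mem_nil, or_false] at h
          rcases h with rfl | rfl | rfl | rfl | rfl
          · linarith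
          · linarith
          · exact absurd rfl hne
          · linarith
          · linarith
        · exact List.mem_cons_of_mem _ h
      have := hB q hq' hq1
      rw [p1, show P 2 = B from rfl]
      intro h
      linarith
    · intro e' he' f' hf' _
      refine bind_detour hL hoe hnd ?_ e' he' f' hf'
      intro a ha b hb hab h0 hpos
      rw [hNP] at ha hb
      simp only [List.mem_cons, List.not_mem_nil, or_false] at ha hb
      rcases ha with rfl | rfl | rfl | rfl | rfl | rfl
      · exact x1p.ne' h0
      · have hbS : b.1 = S := hab.symm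
        rcases hb with rfl | rfl | rfl | rfl | rfl | rfl
        · exact absurd (show x ∈ L by simp [hLdef]) (by rw [show x = S from hbS]; exact Sn)
        · rw [show x1 = S from hbS] at x1p; exact x1p.ne' s1
        · have := hpos.2; rw [show ((S, P) : R3 × R3).2 1 = -1 from p1] at this; norm_num at this
        · have := congrFun (show P = S from hbS) 1; rw [s1, p1] at this; norm_num at this
        · exact hSS (show S' = S from hbS).symm
        · rw [show y1 = S from hbS] at y1p; exact y1p.ne' s1
      · rw [show ((S, P) : R3 × R3).2 1 = -1 from p1] at h0; norm_num at h0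
      · have := hpos.1; rw [show ((P, S') : R3 × R3).1 1 = -1 from p1] at this; norm_num at this
      · exact y1p.ne' h0
      · have hbS : b.1 = y := hab.symm
        have hyL : y ∈ L := by simp [hLdef]
        rcases hb with rfl | rfl | rfl | rfl | rfl | rfl
        · rw [show x = y from hbS] at hnd0; simp at hnd0
        · exact x1n (by rw [show x1 = y from hbS]; exact hyL)
        · exact Sn (by rw [show S = y from hbS]; exact hyL)
        · exact Pn (by rw [show P = y from hbS]; exact hyL)
        · exact Sn' (by rw [show S' = y from hbS]; exact hyL)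
        · exact y1n (by rw [show y1 = y from hbS]; exact hyL)
    · intro e' he' ho
      have hfl := hL.flat _ he hoe
      rcases hnew e' he' ho with rfl | rfl | rfl | rfl
      · intro h
        have := flat_inj hfl (left_mem_seg (x, y)) (pt_mem_seg hleg.h1.le
          (by linarith [hleg.h2, hleg.h0])) h
        exact x1n (by rw [← hx1] at this; rw [← this]; simp [hLdef])
      · intro h
        have : x1 1 = S 1 := congrArg Prod.snd h
        linarith
      · intro h
        have : S' 1 = y1 1 := congrArg Prod.snd h
        linarith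
      · intro h
        have := flat_inj hfl (pt_mem_seg (by linarith [hleg.h1, hleg.h0]) hleg.h2.le)
          (right_mem_seg (x, y)) h
        exact y1n (by rw [← hy1] at this; rw [this]; simp [hLdef])
    · exact hnn
    · intro e' he' g hg hoe' hog
      exact Or.inl (hno e' he' g hg hoe' hog)
  have hS' := hpre.state
  have hEn : edges (x :: N ++ y :: ρ) = pathEdges (x :: N ++ [y]) ++ pathEdges (y :: ρ ++ [x]) :=
    edges_two_paths _ _ _ _
  refine ⟨x :: N ++ y :: ρ, hS', ?_, ?_, ?_, ?_, ?_⟩
  · -- isotopy
    obtain ⟨k1, j1⟩ := subdivide_two (e := (x, y)) (ρ := ρ) hL.knot (s := θ - ε) (t := θ + ε)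
      hleg.h1 (by linarith) hleg.h2
    have hrot : x :: N ++ y :: ρ = [x] ++ (x1 :: [S, P, S'] ++ y1 :: (y :: ρ)) := by
      simp [hNdef]
    have hrot' : (x1 :: [S, P, S'] ++ y1 :: (y :: ρ)) ++ [x] =
        x1 :: [S, P, S'] ++ y1 :: (y :: ρ ++ [x]) := by simp
    have hSt : State (x1 :: [S, P, S'] ++ y1 :: (y :: ρ ++ [x])) := by
      rw [← hrot']
      apply state_append_comm
      rw [← hrot]; exact hS'
    have j2 : Isotopic (x1 :: [] ++ y1 :: (y :: ρ ++ [x]))
        (x1 :: [S, P, S'] ++ y1 :: (y :: ρ ++ [x])) := by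
      apply over_replace _ _ _ _ _ k1 hSt.knot
      · exact overArc_middle (e := (x, y)) hL hoe hf hof hx hover hleg.h1 (by linarith) hleg.h2
      · have hsubn : ∀ a ∈ pathEdges (x1 :: [S, P, S'] ++ [y1]), a ∈ pathEdges (x :: N ++ [y]) := by
          intro a ha
          rw [hNP]
          have : pathEdges (x1 :: [S, P, S'] ++ [y1]) = [(x1, S), (S, P), (P, S'), (S', y1)] := rfl
          rw [this] at ha
          simp only [List.mem_cons, List.not_mem_nil, or_false] at ha
          rcases ha with rfl | rfl | rfl | rfl <;> simp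
        have hnx : ∀ a ∈ pathEdges (x :: N ++ [y]), ∀ b ∈ edges (x :: N ++ y :: ρ), OuterE a →
            OuterE b → ¬ XR a b := by
          intro a ha b hb hoa hob hab
          rw [hEn, List.mem_append] at hb
          rcases hb with hb | hb
          · by_cases hne : a = b
            · subst hne; exact not_XR_self a hab
            · exact (hnn a ha b hb hoa hob hne).not_XR hab
          · exact (hno a ha b hb hoa hob).not_XR hab
        have hmem : ∀ b, b ∈ edges (x1 :: [S, P, S'] ++ y1 :: (y :: ρ ++ [x])) →
            b ∈ edges (x :: N ++ y :: ρ) := by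
          intro b hb
          rw [← hrot', mem_edges_append_comm, ← hrot] at hb
          exact hb
        have hEr : edges (x1 :: [S, P, S'] ++ y1 :: (y :: ρ ++ [x])) =
          pathEdges (x1 :: [S, P, S'] ++ [y1]) ++ pathEdges (y1 :: (y :: ρ ++ [x]) ++ [x1]) :=
            edges_two_paths _ _ _ _
        have hpage : ∀ z ∈ x1 :: [S, P, S'] ++ [y1], z 1 < 0 → z = P := by
          intro z hz hz1
          simp only [List.cons_append, List.nil_append, List.mem_cons, List.not_mem_nil,
            or_false] at hz
          rcases hz with rfl | rfl | rfl | rfl | rfl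
          · linarith
          · linarith
          · rfl
          · linarith
          · linarith
        apply overArc_of hSt
        · intro a ha b hb hoa hob
          exact hnx a (hsubn a ha) b (hmem b (by rw [hEr]; exact List.mem_append_left _ hb))
            hoa hob
        · intro a ha b hb hoa hob hab
          exact absurd hab (hnx a (hsubn a ha) b
            (hmem b (by rw [hEr]; exact List.mem_append_right _ hb)) hoa hob)
        · intro a ha b hb ha1 hb1
          have haP := hpage a ha ha1
          subst haP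
          have hb' : b ∈ L := by
            simp only [List.cons_append, List.mem_cons, List.mem_append, List.not_mem_nil,
              or_false] at hb
            rcases hb with rfl | rfl | (hb | rfl) | rfl
            · linarith
            · simp [hLdef]
            · simp [hLdef, hb]
            · simp [hLdef]
            · linarith
          have := hB b hb' hb1
          rw [p1, show P 2 = B from rfl]
          linarith
        · intro a ha b hb ha1 hb1
          rw [hpage a ha ha1, hpage b hb hb1]
    have j3 : Isotopic (x1 :: [S, P, S'] ++ y1 :: (y :: ρ ++ [x])) (x :: N ++ y :: ρ) := by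
      rw [← hrot', hrot]
      exact isotopic_append_comm _ _
    exact (j1.trans j2).trans j3
  · -- crossings
    have hfO : (v, w) ∈ pathEdges (y :: ρ ++ [x]) := by
      rw [hE0, List.mem_cons] at hf
      rcases hf with h | h
      · rw [h] at hx; exact absurd hx (not_XR_self _)
      · exact h
    have hXf : ∀ b ∈ edges L, OuterE b → XR (v, w) b → b = (x, y) := by
      intro b hb hob hb'
      exact hL.single (v, w) hf b hb (x, y) he hof hob hoe hb' hx.symm
    have c1 : ((pathEdges (x :: N ++ [y])).filter fun a => decide (OuterE a ∧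
        ∃ b ∈ edges (x :: N ++ y :: ρ), OuterE b ∧ XR a b)).length = 0 := by
      apply filter_length_zero
      rintro a ha ⟨hoa, b, hb, hob, hab⟩
      rw [hEn, List.mem_append] at hb
      rcases hb with hb | hb
      · by_cases hne : a = b
        · subst hne; exact not_XR_self a hab
        · exact (hnn a ha b hb hoa hob hne).not_XR hab
      · exact (hno a ha b hb hoa hob).not_XR hab
    have c2 : ((pathEdges (y :: ρ ++ [x])).filter fun a => decide (OuterE a ∧
        ∃ b ∈ edges (x :: N ++ y :: ρ), OuterE b ∧ XR a b)).length + 1 ≤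
        ((pathEdges (y :: ρ ++ [x])).filter fun a => decide (OuterE a ∧
        ∃ b ∈ edges L, OuterE b ∧ XR a b)).length := by
      refine @filter_length_lt_of_imp _ _ _ _ _ _ ?_ (v, w) hfO ?_ ?_
      · rintro a ha ⟨hoa, b, hb, hob, hab⟩
        rw [hEn, List.mem_append] at hb
        rcases hb with hb | hb
        · exact absurd hab.symm (hno b hb a ha hob hoa).not_XR
        · exact ⟨hoa, b, mO b hb, hob, hab⟩
      · exact ⟨hof, (x, y), he, hoe, hx.symm⟩
      · rintro ⟨hoa, b, hb, hob, hab⟩
        rw [hEn, List.mem_append] at hb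
        rcases hb with hb | hb
        · exact absurd hab.symm (hno b hb _ hfO hob hoa).not_XR
        · exact heO b hb (hXf b (mO b hb) hob hab)
    have c3 : ((edges L).filter fun a => decide (OuterE a ∧
        ∃ b ∈ edges L, OuterE b ∧ XR a b)).length =
        ((pathEdges (y :: ρ ++ [x])).filter fun a => decide (OuterE a ∧
        ∃ b ∈ edges L, OuterE b ∧ XR a b)).length + 1 := by
      have : decide (OuterE (x, y) ∧ ∃ b ∈ edges L, OuterE b ∧ XR (x, y) b) = true :=
        decide_eq_true ⟨hoe, (v, w), hf, hof, hx⟩
      exact length_filter_cons hE0 this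
    have c4 : ((edges (x :: N ++ y :: ρ)).filter fun a => decide (OuterE a ∧
        ∃ b ∈ edges (x :: N ++ y :: ρ), OuterE b ∧ XR a b)).length =
        ((pathEdges (x :: N ++ [y])).filter fun a => decide (OuterE a ∧
        ∃ b ∈ edges (x :: N ++ y :: ρ), OuterE b ∧ XR a b)).length +
        ((pathEdges (y :: ρ ++ [x])).filter fun a => decide (OuterE a ∧
        ∃ b ∈ edges (x :: N ++ y :: ρ), OuterE b ∧ XR a b)).length := by
      exact length_filter_append hEn _
    unfold nX
    rw [c4, c3]
    omega
  · unfold nOut
    rw [hEn, hE0, List.filter_append, List.length_append, hNP]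
    have hcase : (x 1 = 0 → 0 < y 1) := by
      intro h0
      rcases te with h | h | h | h | h <;> simp only at h
      · exact h.2
      · linarith [h.1]
      · exact h.2
      · linarith [h.1]
      · linarith [hoe.2, h.2]
    rcases hyN with h | h
    · have h' : x 1 ≠ 0 := h.ne'
      simp [h', s1, s1', p1, x1p, y1p, x1p.ne', y1p.ne']
      omega
    · have := hcase h
      simp [h, s1, s1', p1, x1p, y1p, x1p.ne', y1p.ne', this]
      omega
  · unfold nIn
    have e1 : L = [x] ++ (y :: ρ) := rfl
    have e2 : x :: N ++ y :: ρ = [x] ++ (N ++ (y :: ρ)) := by simp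
    rw [e2, e1, List.filter_append, List.filter_append, List.filter_append, List.length_append,
      List.length_append, List.length_append]
    have : (N.filter fun p => decide (p 1 < 0)).length = 1 := by
      rw [hNdef]
      simp [s1, s1', p1, not_lt.2 x1p.le, not_lt.2 y1p.le]
    omega
  · exact one_le_nIn (p := P) (by simp [hNdef]) pneg

end Pool.Agent.LinKnot
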