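import Pool.Agent.Lib.MP_188a32_co.Defs

/-!
# Auxiliary notions used in the proof
-/

set_option autoImplicit false

namespace Pool.Agent.LinKnot

open scoped Classical

/-- Orientation (six times the signed volume) of four points. -/
def orient (a b c d : R3) : ℝ :=
  (b 0 - a 0) * ((c 1 - a 1) * (d 2 - a 2) - (c 2 - a 2) * (d 1 - a 1))
  - (b 1 - a 1) * ((c 0 - a 0) * (d 2 - a 2) - (c 2 - a 2) * (d 0 - a 0))
  + (b 2 - a 2) * ((c 0 - a 0) * (d 1 - a 1) - (c 1 - a 1) * (d 0 - a 0))

/-- A linear form crosses a finite system of vectors if it takes both signs on it. -/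
def Crosses {V : Type} [AddCommGroup V] [Module ℝ V] {ι : Type} (f : V →ₗ[ℝ] ℝ) (R : ι → V) :
    Prop := (∃ i, 0 < f (R i)) ∧ ∃ i, f (R i) < 0

/-- Two systems of `m` points in arc position. -/
def Pos (m : ℕ) (a b : ℕ → R3) : Prop :=
  ∀ i j k l, i < j → j < m → k < l → l < m → 0 < orient (a i) (a j) (b k) (b l)

/-- The alternating polygon with code `c`. -/
def zig (a b : ℕ → R3) (c : List (ℕ × ℕ)) : List R3 := c.flatMap fun x => [a x.1, b x.2]

/-- Codes of alternating polygons. -/
def ValidCode (m : ℕ) (c : List (ℕ × ℕ)) : Prop :=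
  2 ≤ c.length ∧ (c.map Prod.fst).Nodup ∧ (c.map Prod.snd).Nodup ∧ ∀ x ∈ c, x.1 < m ∧ x.2 < m

/-- The directed edges of an open polygonal path. -/
def pathEdges (l : List R3) : List (R3 × R3) := l.zip l.tail

/-- The projection is injective on the path. -/
def FlatInj (s : List R3) : Prop :=
  ∀ e ∈ pathEdges s, ∀ f ∈ pathEdges s, ∀ p ∈ seg e, ∀ q ∈ seg f, proj p = proj q → p = q

/-- No point of `f` lies above a point of `e`. -/
def Above (e f : R3 × R3) : Prop :=
  ∀ p ∈ seg e, ∀ q ∈ seg f, proj p = proj q → q 2 < p 2 ∨ p = q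

/-- No point of `f` lies below a point of `e`. -/
def Below (e f : R3 × R3) : Prop :=
  ∀ p ∈ seg e, ∀ q ∈ seg f, proj p = proj q → p 2 < q 2 ∨ p = q

/-- The arc `x σ y` of the knot `x σ y τ` runs above the rest of the knot. -/
def OverArc (x : R3) (σ : List R3) (y : R3) (τ : List R3) : Prop :=
  FlatInj (x :: σ ++ [y]) ∧
    ∀ e ∈ pathEdges (x :: σ ++ [y]), ∀ f ∈ pathEdges (y :: τ ++ [x]), Above e f

/-- The arc `x σ y` of the knot `x σ y τ` runs below the rest of the knot. -/
def UnderArc (x : R3) (σ : List R3) (y : R3) (τ : List R3) : Prop :=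
  FlatInj (x :: σ ++ [y]) ∧
    ∀ e ∈ pathEdges (x :: σ ++ [y]), ∀ f ∈ pathEdges (y :: τ ++ [x]), Below e f

/-- An edge in the closed upper half `y ≥ 0`. -/
def OuterE (e : R3 × R3) : Prop := 0 ≤ e.1 1 ∧ 0 ≤ e.2 1

/-- Planar cross product. -/
def cross2 (a b : ℝ × ℝ) : ℝ := a.1 * b.2 - a.2 * b.1

/-- On which side of the line carrying the projection of the edge `e` the point `p` lies. -/
def side (e : R3 × R3) (p : R3) : ℝ := cross2 (proj e.2 - proj e.1) (proj p - proj e.1)

/-- The projections of the two edges cross properly (transversally, in inner points). -/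
def XR (e f : R3 × R3) : Prop := side e f.1 * side e f.2 < 0 ∧ side f e.1 * side f e.2 < 0

/-- The projections of the two edges meet at most in a common end. -/
def NC (e f : R3 × R3) : Prop :=
  ∀ p ∈ seg e, ∀ q ∈ seg f, proj p = proj q → p = q ∧ p ∈ ends e ∧ p ∈ ends f

/-- The states of the reduction of a diagram to an arc presentation. The vertices with `y = 0`
(the axis points) lie on the `x`-axis, those with `y < 0` (the page points) are joined to axis
points only and lie in different half planes bounded by the `x`-axis, and the part in `y ≥ 0`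
(the outer part) is a regular diagram in which every edge has at most one crossing. -/
structure State (l : List R3) : Prop where
  knot : IsKnot l
  axis : ∀ p ∈ l, p 1 = 0 → p 2 = 0
  types : ∀ e ∈ edges l, (0 < e.1 1 ∧ 0 < e.2 1) ∨ (0 < e.1 1 ∧ e.2 1 = 0) ∨
    (e.1 1 = 0 ∧ 0 < e.2 1) ∨ (e.1 1 < 0 ∧ e.2 1 = 0) ∨ (e.1 1 = 0 ∧ e.2 1 < 0)
  pages : ∀ p ∈ l, ∀ q ∈ l, p ≠ q → p 1 < 0 → q 1 < 0 → p 2 * q 1 ≠ q 2 * p 1
  bind : ∀ e ∈ edges l, ∀ f ∈ edges l, e.2 = f.1 → e.2 1 = 0 → ¬ (0 < e.1 1 ∧ 0 < f.2 1)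
  flat : ∀ e ∈ edges l, OuterE e → proj e.1 ≠ proj e.2
  pair : ∀ e ∈ edges l, ∀ f ∈ edges l, OuterE e → OuterE f → e ≠ f → NC e f ∨ XR e f
  single : ∀ e ∈ edges l, ∀ f ∈ edges l, ∀ g ∈ edges l, OuterE e → OuterE f → OuterE g →
    XR e f → XR e g → f = g

/-- Number of page points. -/
noncomputable def nIn (l : List R3) : ℕ := (l.filter fun p => p 1 < 0).length

/-- Number of outer arcs. -/
noncomputable def nOut (l : List R3) : ℕ := ((edges l).filter fun e => e.1 1 = 0 ∧ 0 < e.2 1).length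

/-- Number of outer edges with a crossing. -/
noncomputable def nX (l : List R3) : ℕ :=
  ((edges l).filter fun e => OuterE e ∧ ∃ f ∈ edges l, OuterE f ∧ XR e f).length

end Pool.Agent.LinKnot
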