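import Pool.Agent.Lib.MP_188a32_co.Shear

/-!
# Task F: pulling the lowest vertex of a diagram down to a page point
-/

set_option autoImplicit false

namespace Pool.Agent.LinKnot

open scoped Classical

namespace Planar

lemma ht_le {e : R3 × R3} {a : ℝ} (h1 : e.1 1 ≤ a) (h2 : e.2 1 ≤ a) {p : R3} (hp : p ∈ seg e) :
    p 1 ≤ a := by
  obtain ⟨r, h3, h4, rfl⟩ := mem_seg_iff.1 hp
  rw [pt_apply]
  nlinarith

lemma le_ht {e : R3 × R3} {a : ℝ} (h1 : a ≤ e.1 1) (h2 : a ≤ e.2 1) {p : R3} (hp : p ∈ seg e) :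
    a ≤ p 1 := by
  obtain ⟨r, h3, h4, rfl⟩ := mem_seg_iff.1 hp
  rw [pt_apply]
  nlinarith

lemma ht_eq_fst {e : R3 × R3} {a : ℝ} (h1 : e.1 1 = a) (h2 : e.2 1 ≠ a) {p : R3} (hp : p ∈ seg e)
    (h : p 1 = a) : p = e.1 := by
  obtain ⟨r, h3, h4, rfl⟩ := mem_seg_iff.1 hp
  rw [pt_apply, h1] at h
  have h5 : r * (e.2 1 - a) = 0 := by linarith
  rcases mul_eq_zero.1 h5 with h6 | h6
  · rw [h6, pt_zero]
  · exact absurd (by linarith) h2

lemma ht_eq_snd {e : R3 × R3} {a : ℝ} (h1 : e.2 1 = a) (h2 : e.1 1 ≠ a) {p : R3} (hp : p ∈ seg e)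
    (h : p 1 = a) : p = e.2 := by
  rw [← seg_swap] at hp
  exact ht_eq_fst (e := e.swap) h1 h2 hp h

lemma ht_ne {e : R3 × R3} {a : ℝ} (h1 : a < e.1 1) (h2 : a < e.2 1) {p : R3} (hp : p ∈ seg e) :
    p 1 ≠ a := by
  obtain ⟨r, h3, h4, rfl⟩ := mem_seg_iff.1 hp
  rw [pt_apply]
  intro h
  rcases eq_or_lt_of_le h3 with h5 | h5
  · rw [← h5] at h; linarith
  · nlinarith

lemma ht_ne' {e : R3 × R3} {a : ℝ} (h1 : e.1 1 < a) (h2 : e.2 1 < a) {p : R3} (hp : p ∈ seg e) :
    p 1 ≠ a := by
  obtain ⟨r, h3, h4, rfl⟩ := mem_seg_iff.1 hp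
  rw [pt_apply]
  intro h
  rcases eq_or_lt_of_le h3 with h5 | h5
  · rw [← h5] at h; linarith
  · nlinarith

lemma proj_one {p q : R3} (h : proj p = proj q) : p 1 = q 1 := (proj_eq_iff.1 h).2

lemma proj_pt_congr {e e' : R3 × R3} (h1 : proj e.1 = proj e'.1) (h2 : proj e.2 = proj e'.2)
    (r : ℝ) : proj (pt e r) = proj (pt e' r) := by
  rw [proj_eq_iff] at h1 h2 ⊢
  rw [pt_apply, pt_apply, pt_apply, pt_apply, h1.1, h1.2, h2.1, h2.2]
  exact ⟨rfl, rfl⟩

lemma pseg_congr {e e' : R3 × R3} (h1 : proj e.1 = proj e'.1) (h2 : proj e.2 = proj e'.2) :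
    pseg e ⊆ pseg e' := by
  rintro P ⟨p, hp, rfl⟩
  obtain ⟨r, h3, h4, rfl⟩ := mem_seg_iff.1 hp
  exact ⟨pt e' r, pt_mem_seg e' h3 h4, (proj_pt_congr h1 h2 r).symm⟩

lemma mem_pathEdges_snoc {s : List R3} {x : R3} {f : R3 × R3} (h : f ∈ pathEdges (s ++ [x])) :
    f.1 ∈ s ∧ (f.2 ∈ s ∨ f.2 = x) := by
  induction s with
  | nil => simp at h
  | cons a s ih =>
    cases s with
    | nil =>
      simp only [List.cons_append, List.nil_append, pathEdges_cons_cons, pathEdges_single,
        List.mem_singleton] at h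
      subst h
      simp
    | cons b s =>
      simp only [List.cons_append, pathEdges_cons_cons, List.mem_cons] at h ih
      rcases h with rfl | h
      · simp
      · have := ih h
        simp only [List.mem_cons]
        tauto

/-- An edge touching the height `a` only in the points `x`, `y`. -/
def Touch (a : ℝ) (x y : R3) (e : R3 × R3) : Prop :=
  ∀ p ∈ seg e, p 1 = a → p ∈ ends e ∧ (p = x ∨ p = y)

lemma nc_touch {a : ℝ} {x y : R3} (hxy : proj x ≠ proj y) {e f : R3 × R3}
    (he : ∀ p ∈ seg e, p 1 ≤ a) (hf : ∀ p ∈ seg f, a ≤ p 1) (te : Touch a x y e)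
    (tf : Touch a x y f) : NC e f := by
  intro p hp q hq hpq
  have h1 := proj_one hpq
  have h2 : p 1 = a := le_antisymm (he p hp) (h1 ▸ hf q hq)
  obtain ⟨k1, k2⟩ := te p hp h2
  obtain ⟨k3, k4⟩ := tf q hq (h1 ▸ h2)
  have h3 : p = q := by
    rcases k2 with rfl | rfl <;> rcases k4 with rfl | rfl
    · rfl
    · exact absurd hpq hxy
    · exact absurd hpq.symm hxy
    · rfl
  exact ⟨h3, k1, h3 ▸ k3⟩

/-- the edges of the upper part -/
lemma upper_edge {x y : R3} {τ : List R3} {a : ℝ} (hτ : τ ≠ []) (hx : x 1 = a) (hy : y 1 = a)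
    (hp : ∀ p ∈ τ, a < p 1) {f : R3 × R3} (hf : f ∈ pathEdges (y :: τ ++ [x])) :
    (∀ q ∈ seg f, a ≤ q 1) ∧ Touch a x y f ∧ a ≤ f.1 1 ∧ a ≤ f.2 1 := by
  obtain ⟨b, τ', rfl⟩ := List.exists_cons_of_ne_nil hτ
  have key : a ≤ f.1 1 ∧ a ≤ f.2 1 ∧ Touch a x y f := by
    simp only [List.cons_append, pathEdges_cons_cons, List.mem_cons] at hf
    rcases hf with rfl | hf
    · have hb := hp b (by simp)
      refine ⟨hy.ge, hb.le, fun p hp h => ?_⟩
      have := ht_eq_fst (e := (y, b)) hy hb.ne' hp h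
      simp only at this
      subst this
      exact ⟨Or.inl rfl, Or.inr rfl⟩
    · have h1 := mem_pathEdges_snoc (s := b :: τ') hf
      have h2 := hp _ h1.1
      rcases h1.2 with h3 | h3
      · have h4 := hp _ h3
        exact ⟨h2.le, h4.le, fun p hp h => absurd h (ht_ne h2 h4 hp)⟩
      · refine ⟨h2.le, by rw [h3, hx], fun p hp h => ?_⟩
        have := ht_eq_snd (e := f) (by rw [h3, hx]) h2.ne' hp h
        rw [this]
        exact ⟨Or.inr rfl, Or.inl h3⟩
  exact ⟨fun q hq => le_ht key.1 key.2.1 hq, key.2.2, key.1, key.2.1⟩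

lemma cx_cons_of_nc {E : List (R3 × R3)} {e f : R3 × R3} (h : ¬ XR e f) :
    cx (f :: E) e = cx E e := by
  rw [cx_cons, if_neg h]; rfl

lemma not_xr_of_nc {e f : R3 × R3} (h : NC e f) : ¬ XR e f := by
  intro hx
  obtain ⟨P, ⟨p, hp, hpP⟩, ⟨q, hq, hqP⟩⟩ := XR.meet hx
  obtain ⟨k1, k2, k3⟩ := h p hp q hq (hpP.trans hqP.symm)
  exact Set.disjoint_left.1 (XR.disjoint_ends hx) k2 k3

lemma sum_eq_length_filter {R : List (R3 × R3)} {g : R3 × R3 → ℕ} {P : R3 × R3 → Prop}
    [DecidablePred P]
    (h : ∀ e ∈ R, g e = if P e then 1 else 0) : (R.map g).sum = (R.filter fun e => P e).length := by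
  induction R with
  | nil => simp
  | cons e R ih =>
    have ih' := ih (fun e' he' => h e' (List.mem_cons_of_mem _ he'))
    rw [List.map_cons, List.sum_cons, ih', h e (by simp)]
    by_cases hP : P e
    · rw [if_pos hP, List.filter_cons_of_pos (by simpa using hP), List.length_cons]; ring
    · rw [if_neg hP, List.filter_cons_of_neg (by simpa using hP)]; ring

lemma pull2 {x v y : R3} {τ : List R3} {a : ℝ} (h : Dia (x :: v :: y :: τ)) (hτ : τ ≠ [])
    (ha : 0 < a) (hx : x 1 = a) (hy : y 1 = a) (hv : v 1 < 0) (hp : ∀ p ∈ τ, a < p 1)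
    (hmes : mes (edges (x :: v :: y :: τ)) = 0)
    (hover : ∀ (x y : R3) (σ σ' τ : List R3), IsKnot (x :: σ ++ y :: τ) →
      IsKnot (x :: σ' ++ y :: τ) → OverArc x σ y τ → OverArc x σ' y τ →
      Isotopic (x :: σ ++ y :: τ) (x :: σ' ++ y :: τ)) :
    ∃ l', State l' ∧ Isotopic (x :: v :: y :: τ) l' ∧ nIn l' = 1 ∧ nOut l' = 1 ∧
      nX l' = cnt (edges (x :: v :: y :: τ)) := by
  have hE : edges (x :: v :: y :: τ) = (x, v) :: (v, y) :: pathEdges (y :: τ ++ [x]) :=
    edges_insert x v y τ
  set R := pathEdges (y :: τ ++ [x]) with hR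
  have hRm : ∀ e ∈ R, e ∈ edges (x :: v :: y :: τ) := fun e he => by
    rw [hE]; exact List.mem_cons_of_mem _ (List.mem_cons_of_mem _ he)
  have m1 : (x, v) ∈ edges (x :: v :: y :: τ) := by rw [hE]; simp
  have m2 : (v, y) ∈ edges (x :: v :: y :: τ) := by rw [hE]; simp
  have hup : ∀ f ∈ R, (∀ q ∈ seg f, a ≤ q 1) ∧ Touch a x y f ∧ a ≤ f.1 1 ∧ a ≤ f.2 1 :=
    fun f hf => upper_edge hτ hx hy hp hf
  have hnd := h.knot.nodup
  have hxv : x ≠ v := by rintro rfl; linarith
  have hyv : y ≠ v := by rintro rfl; linarith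
  have hxy : x ≠ y := by
    rintro rfl
    simp at hnd
  have hpxy : proj x ≠ proj y := fun h1 => hxy (dia_proj_inj h (by simp) (by simp) h1)
  have hflat1 : proj x ≠ proj v := h.flat _ m1
  have hflat2 : proj v ≠ proj y := h.flat _ m2
  have c12 : NC (x, v) (v, y) := by
    rcases h.pair _ m1 _ m2 (fun h1 => hxv (Prod.ext_iff.1 h1).1) with h1 | h1
    · exact h1
    · exact absurd (XR.disjoint_ends h1) (Set.not_disjoint_iff.2 ⟨v, Or.inr rfl, Or.inl rfl⟩)
  have hav : 0 < a - v 1 := by linarith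
  -- the two axis points
  set s₁ := a / (a - v 1) with hs₁
  set s₂ := (-v 1) / (a - v 1) with hs₂
  have hs₁0 : 0 ≤ s₁ := by positivity
  have hs₁1 : s₁ ≤ 1 := by rw [hs₁, div_le_one hav]; linarith
  have hs₂0 : 0 ≤ s₂ := div_nonneg (by linarith) hav.le
  have hs₂1 : s₂ ≤ 1 := by rw [hs₂, div_le_one hav]; linarith
  have hP1 : pt (x, v) s₁ 1 = 0 := by
    rw [pt_apply]; simp only; rw [hx, hs₁]; field_simp; ring
  have hP2 : pt (v, y) s₂ 1 = 0 := by
    rw [pt_apply]; simp only; rw [hy, hs₂]; field_simp; ring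
  set S : R3 := ![pt (x, v) s₁ 0, 0, 0] with hS
  set S' : R3 := ![pt (v, y) s₂ 0, 0, 0] with hS'
  have S1 : S 1 = 0 := rfl
  have S2 : S 2 = 0 := rfl
  have S'1 : S' 1 = 0 := rfl
  have S'2 : S' 2 = 0 := rfl
  have pS : proj S = proj (pt (x, v) s₁) := proj_eq_iff.2 ⟨rfl, by rw [hP1, S1]⟩
  have pS' : proj S' = proj (pt (v, y) s₂) := proj_eq_iff.2 ⟨rfl, by rw [hP2, S'1]⟩
  have i1 : pseg (x, S) ⊆ pseg (x, v) :=
    (pseg_congr (e := (x, S)) (e' := (x, pt (x, v) s₁)) rfl pS).trans (Set.image_mono (seg_half1 x v hs₁0 hs₁1))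
  have i2 : pseg (S, v) ⊆ pseg (x, v) :=
    (pseg_congr (e := (S, v)) (e' := (pt (x, v) s₁, v)) pS rfl).trans (Set.image_mono (seg_half2 x v hs₁0 hs₁1))
  have i3 : pseg (v, S') ⊆ pseg (v, y) :=
    (pseg_congr (e := (v, S')) (e' := (v, pt (v, y) s₂)) rfl pS').trans (Set.image_mono (seg_half1 v y hs₂0 hs₂1))
  have i4 : pseg (S', y) ⊆ pseg (v, y) :=
    (pseg_congr (e := (S', y)) (e' := (pt (v, y) s₂, y)) pS' rfl).trans (Set.image_mono (seg_half2 v y hs₂0 hs₂1))
  -- common projections of the two old edges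
  have c12' : ∀ P, P ∈ pseg (x, v) → P ∈ pseg (v, y) → P = proj v := by
    rintro P ⟨p, hp1, rfl⟩ ⟨q, hq1, hqp⟩
    obtain ⟨_, k2, k3⟩ := c12 p hp1 q hq1 hqp.symm
    rcases k2 with k2 | k2
    · simp only at k2
      rcases k3 with k3 | k3
      · simp only at k3; rw [k3]
      · rw [Set.mem_singleton_iff] at k3
        exact absurd (k2.symm.trans k3) hxy
    · rw [Set.mem_singleton_iff] at k2
      rw [k2]
  have hSS : proj S ≠ proj S' := by
    intro h1
    have h2 := c12' (proj S) (pS ▸ ⟨_, pt_mem_seg (x, v) hs₁0 hs₁1, rfl⟩)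
      (h1 ▸ pS' ▸ ⟨_, pt_mem_seg (v, y) hs₂0 hs₂1, rfl⟩)
    have := proj_one h2
    rw [S1] at this
    linarith
  -- the new edges
  have f1 : (∀ p ∈ seg (x, S), p 1 ≤ a) ∧ (∀ p ∈ seg (x, S), 0 ≤ p 1) ∧ Touch a x y (x, S) ∧
      Touch 0 S S' (x, S) := by
    refine ⟨fun p hp => ht_le hx.le (show S 1 ≤ a by rw [S1]; exact ha.le) hp,
      fun p hp => le_ht (show 0 ≤ x 1 by rw [hx]; exact ha.le) S1.ge hp, fun p hp h1 => ?_, fun p hp h1 => ?_⟩
    · have := ht_eq_fst (e := (x, S)) hx (show S 1 ≠ a by rw [S1]; exact ha.ne) hp h1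
      exact ⟨Or.inl this, Or.inl this⟩
    · have := ht_eq_snd (e := (x, S)) S1 (show x 1 ≠ 0 by rw [hx]; exact ha.ne') hp h1
      exact ⟨Or.inr this, Or.inl this⟩
  have f2 : (∀ p ∈ seg (S, v), p 1 ≤ 0) ∧ Touch 0 S S' (S, v) := by
    refine ⟨fun p hp => ht_le S1.le hv.le hp, fun p hp h1 => ?_⟩
    have := ht_eq_fst (e := (S, v)) S1 hv.ne hp h1
    exact ⟨Or.inl this, Or.inl this⟩
  have f3 : (∀ p ∈ seg (v, S'), p 1 ≤ 0) ∧ Touch 0 S S' (v, S') := by
    refine ⟨fun p hp => ht_le hv.le S'1.le hp, fun p hp h1 => ?_⟩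
    have := ht_eq_snd (e := (v, S')) S'1 hv.ne hp h1
    exact ⟨Or.inr this, Or.inr this⟩
  have f4 : (∀ p ∈ seg (S', y), p 1 ≤ a) ∧ (∀ p ∈ seg (S', y), 0 ≤ p 1) ∧ Touch a x y (S', y) ∧
      Touch 0 S S' (S', y) := by
    refine ⟨fun p hp => ht_le (show S' 1 ≤ a by rw [S'1]; exact ha.le) hy.le hp,
      fun p hp => le_ht S'1.ge (show 0 ≤ y 1 by rw [hy]; exact ha.le) hp, fun p hp h1 => ?_, fun p hp h1 => ?_⟩
    · have := ht_eq_snd (e := (S', y)) hy (show S' 1 ≠ a by rw [S'1]; exact ha.ne) hp h1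
      exact ⟨Or.inr this, Or.inr this⟩
    · have := ht_eq_fst (e := (S', y)) S'1 (show y 1 ≠ 0 by rw [hy]; exact ha.ne') hp h1
      exact ⟨Or.inl this, Or.inr this⟩
  have q12 : NC (x, S) (S, v) := NC.symm (nc_touch hSS f2.1 f1.2.1 f2.2 f1.2.2.2)
  have q13 : NC (x, S) (v, S') := NC.symm (nc_touch hSS f3.1 f1.2.1 f3.2 f1.2.2.2)
  have q24 : NC (S, v) (S', y) := nc_touch hSS f2.1 f4.2.1 f2.2 f4.2.2.2
  have q34 : NC (v, S') (S', y) := nc_touch hSS f3.1 f4.2.1 f3.2 f4.2.2.2
  have q14 : NC (x, S) (S', y) := by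
    intro p hp q hq hpq
    exfalso
    have h1 := c12' (proj p) (i1 ⟨p, hp, rfl⟩) (hpq ▸ i4 ⟨q, hq, rfl⟩)
    have h2 := proj_one h1
    have h3 := f1.2.1 p hp
    linarith
  have q23 : NC (S, v) (v, S') := by
    intro p hp q hq hpq
    have h1 := c12' (proj p) (i2 ⟨p, hp, rfl⟩) (hpq ▸ i3 ⟨q, hq, rfl⟩)
    have h2 := ht_eq_snd (e := (S, v)) (a := v 1) rfl (show S 1 ≠ v 1 by rw [S1]; exact hv.ne') hp
      (proj_one h1)
    have h3 := ht_eq_fst (e := (v, S')) (a := v 1) rfl (show S' 1 ≠ v 1 by rw [S'1]; exact hv.ne') hq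
      (proj_one (hpq.symm.trans h1))
    simp only at h2 h3
    subst h2
    exact ⟨h3.symm, Or.inr rfl, Or.inl rfl⟩
  set N : List (R3 × R3) := [(x, S), (S, v), (v, S'), (S', y)] with hN
  have NN : ∀ e ∈ N, ∀ f ∈ N, e ≠ f → NC e f := by
    intro e he f hf hef
    simp only [hN, List.mem_cons, List.not_mem_nil, or_false] at he hf
    rcases he with rfl | rfl | rfl | rfl <;> rcases hf with rfl | rfl | rfl | rfl
    · exact absurd rfl hef
    · exact q12
    · exact q13
    · exact q14
    · exact NC.symm q12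
    · exact absurd rfl hef
    · exact q23
    · exact q24
    · exact NC.symm q13
    · exact NC.symm q23
    · exact absurd rfl hef
    · exact q34
    · exact NC.symm q14
    · exact NC.symm q24
    · exact NC.symm q34
    · exact absurd rfl hef
  have Na : ∀ e ∈ N, (∀ p ∈ seg e, p 1 ≤ a) ∧ Touch a x y e := by
    intro e he
    simp only [hN, List.mem_cons, List.not_mem_nil, or_false] at he
    rcases he with rfl | rfl | rfl | rfl
    · exact ⟨f1.1, f1.2.2.1⟩
    · exact ⟨fun p hp => (f2.1 p hp).trans ha.le, fun p hp h1 =>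
        absurd h1 (by have := f2.1 p hp; linarith)⟩
    · exact ⟨fun p hp => (f3.1 p hp).trans ha.le, fun p hp h1 =>
        absurd h1 (by have := f3.1 p hp; linarith)⟩
    · exact ⟨f4.1, f4.2.2.1⟩
  have Oa : ∀ e ∈ [(x, v), (v, y)], (∀ p ∈ seg e, p 1 ≤ a) ∧ Touch a x y e := by
    intro e he
    simp only [List.mem_cons, List.not_mem_nil, or_false] at he
    rcases he with rfl | rfl
    · refine ⟨fun p hp => ht_le hx.le (by simp only; linarith) hp, fun p hp h1 => ?_⟩
      have := ht_eq_fst (e := (x, v)) hx (by simp only; linarith) hp h1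
      exact ⟨Or.inl this, Or.inl this⟩
    · refine ⟨fun p hp => ht_le (by simp only; linarith) hy.le hp, fun p hp h1 => ?_⟩
      have := ht_eq_snd (e := (v, y)) hy (by simp only; linarith) hp h1
      exact ⟨Or.inr this, Or.inr this⟩
  have NR : ∀ e ∈ N, ∀ f ∈ R, NC e f := fun e he f hf =>
    nc_touch hpxy (Na e he).1 (hup f hf).1 (Na e he).2 (hup f hf).2.1
  have OR' : ∀ e ∈ [(x, v), (v, y)], ∀ f ∈ R, NC e f := fun e he f hf =>
    nc_touch hpxy (Oa e he).1 (hup f hf).1 (Oa e he).2 (hup f hf).2.1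
  have Nflat : ∀ e ∈ N, proj e.1 ≠ proj e.2 := by
    intro e he
    simp only [hN, List.mem_cons, List.not_mem_nil, or_false] at he
    rcases he with rfl | rfl | rfl | rfl <;> intro h1 <;> have h2 := proj_one h1 <;>
      simp only at h2 <;> linarith
  -- the new knot
  have hE' : edges (x :: S :: v :: S' :: y :: τ) = N ++ R := by
    rw [edges_cons_cons]; simp [hN, hR]
  have hmem' : ∀ e, e ∈ edges (x :: S :: v :: S' :: y :: τ) ↔ e ∈ N ∨ e ∈ R := by
    intro e; rw [hE', List.mem_append]
  have hpair' : ∀ e ∈ edges (x :: S :: v :: S' :: y :: τ),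
      ∀ f ∈ edges (x :: S :: v :: S' :: y :: τ), e ≠ f → NC e f ∨ (XR e f ∧ e ∈ R ∧ f ∈ R) := by
    intro e he f hf hef
    rw [hmem'] at he hf
    rcases he with he | he <;> rcases hf with hf | hf
    · exact Or.inl (NN e he f hf hef)
    · exact Or.inl (NR e he f hf)
    · exact Or.inl (NC.symm (NR f hf e he))
    · rcases h.pair e (hRm e he) f (hRm f hf) hef with h1 | h1
      · exact Or.inl h1
      · exact Or.inr ⟨h1, he, hf⟩
  have hlistpos : ∀ p ∈ x :: y :: τ, 0 < p 1 := by
    intro p hp'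
    simp only [List.mem_cons] at hp'
    rcases hp' with rfl | rfl | hp'
    · linarith
    · linarith
    · exact ha.trans (hp p hp')
  have hk' : IsKnot (x :: S :: v :: S' :: y :: τ) := by
    rw [isKnot_iff]
    refine ⟨by simp, ?_, ?_⟩
    · have e1 : S ∉ x :: y :: τ := fun h1 => by
        have := hlistpos S h1; rw [S1] at this; exact lt_irrefl _ this
      have e2 : S' ∉ x :: y :: τ := fun h1 => by
        have := hlistpos S' h1; rw [S'1] at this; exact lt_irrefl _ this
      have e3 : S ≠ S' := fun h1 => hSS (by rw [h1])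
      have e4 : S ≠ v := fun h1 => by rw [← h1, S1] at hv; exact lt_irrefl _ hv
      have e5 : S' ≠ v := fun h1 => by rw [← h1, S'1] at hv; exact lt_irrefl _ hv
      simp only [List.nodup_cons, List.mem_cons, not_or] at hnd e1 e2 ⊢
      refine ⟨⟨fun h1 => e1.1 h1.symm, hnd.1.1, fun h1 => e2.1 h1.symm, hnd.1.2.1, hnd.1.2.2⟩,
        ⟨e4, e3, e1.2.1, e1.2.2⟩, ⟨e5.symm, hnd.2.1.1, hnd.2.1.2⟩, ⟨e2.2.1, e2.2.2⟩, hnd.2.2⟩
    · intro e he f hf hef
      rcases hpair' e he f hf hef with h1 | ⟨_, h1, h2⟩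
      · exact NC.good h1
      · exact h.knot.good (hRm e h1) (hRm f h2) hef
  have hs : State (x :: S :: v :: S' :: y :: τ) := by
    refine ⟨hk', ?_, ?_, ?_, ?_, ?_, ?_, ?_⟩
    · intro p hp' h1
      simp only [List.mem_cons] at hp'
      rcases hp' with rfl | rfl | rfl | rfl | rfl | hp'
      · linarith
      · exact S2
      · linarith
      · exact S'2
      · linarith
      · have := hp p hp'; linarith
    · intro e he
      rw [hmem'] at he
      rcases he with he | he
      · simp only [hN, List.mem_cons, List.not_mem_nil, or_false] at he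
        rcases he with rfl | rfl | rfl | rfl
        · exact Or.inr (Or.inl ⟨by simp only; linarith, S1⟩)
        · exact Or.inr (Or.inr (Or.inr (Or.inr ⟨S1, hv⟩)))
        · exact Or.inr (Or.inr (Or.inr (Or.inl ⟨hv, S'1⟩)))
        · exact Or.inr (Or.inr (Or.inl ⟨S'1, by simp only; linarith⟩))
      · have := (hup e he).2.2
        exact Or.inl ⟨by linarith [this.1], by linarith [this.2]⟩
    · intro p hp1 q hq1 hpq h1 h2
      exfalso
      have key : ∀ p ∈ x :: S :: v :: S' :: y :: τ, p 1 < 0 → p = v := by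
        intro p hp' h1
        simp only [List.mem_cons] at hp'
        rcases hp' with rfl | rfl | rfl | rfl | rfl | hp'
        · linarith
        · rw [S1] at h1; exact absurd h1 (lt_irrefl _)
        · rfl
        · rw [S'1] at h1; exact absurd h1 (lt_irrefl _)
        · linarith
        · have := hp p hp'; linarith
      exact hpq ((key p hp1 h1).trans (key q hq1 h2).symm)
    · intro e he f hf hef h1 ⟨h2, h3⟩
      rw [hmem'] at he hf
      rcases he with he | he
      · simp only [hN, List.mem_cons, List.not_mem_nil, or_false] at he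
        rcases he with rfl | rfl | rfl | rfl
        · -- `e = (x, S)`
          rcases hf with hf | hf
          · simp only [hN, List.mem_cons, List.not_mem_nil, or_false] at hf
            rcases hf with rfl | rfl | rfl | rfl
            · simp only at hef; rw [← hef] at hx; linarith
            · simp only at h3; linarith
            · simp only at h3; linarith
            · simp only at hef; exact hSS (by rw [hef])
          · have := (hup f hf).2.2.1
            rw [← hef] at this
            simp only at this; linarith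
        · simp only at h1; linarith
        · simp only at h2; linarith
        · simp only at h1; linarith
      · have := (hup e he).2.2.2
        linarith
    · intro e he _
      rw [hmem'] at he
      rcases he with he | he
      · exact Nflat e he
      · exact h.flat e (hRm e he)
    · intro e he f hf _ _ hef
      exact (hpair' e he f hf hef).imp_right fun h1 => h1.1
    · intro e he f hf g hg _ _ _ hef heg
      by_contra hfg
      have g1 : e ≠ f := by rintro rfl; exact not_xr_self _ hef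
      have g2 : e ≠ g := by rintro rfl; exact not_xr_self _ heg
      have k1 := (hpair' e he f hf g1).resolve_left (fun h1 => not_xr_of_nc h1 hef)
      have k2 := (hpair' e he g hg g2).resolve_left (fun h1 => not_xr_of_nc h1 heg)
      have k3 := two_le_cx (nodup_edges h.knot.nodup) (hRm f k1.2.2) (hRm g k2.2.2) hfg hef heg
      have k4 := cx_le_one_of_mes hmes (hRm e k1.2.1)
      omega
  refine ⟨_, hs, ?_, ?_, ?_, ?_⟩
  · have hiso := hover x y [v] [S, v, S'] τ h.knot hk' ?_ ?_
    · exact hiso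
    · refine ⟨?_, ?_⟩
      · intro e he f hf p hp q hq hpq
        have he' : e ∈ [(x, v), (v, y)] := by simpa using he
        have hf' : f ∈ [(x, v), (v, y)] := by simpa using hf
        by_cases hef : e = f
        · subst hef
          refine proj_inj_on ?_ hp hq hpq
          simp only [List.mem_cons, List.not_mem_nil, or_false] at he'
          rcases he' with rfl | rfl
          · exact hflat1
          · exact hflat2
        · simp only [List.mem_cons, List.not_mem_nil, or_false] at he' hf'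
          rcases he' with rfl | rfl <;> rcases hf' with rfl | rfl
          · exact absurd rfl hef
          · exact (c12 p hp q hq hpq).1
          · exact (NC.symm c12 p hp q hq hpq).1
          · exact absurd rfl hef
      · intro e he f hf p hp q hq hpq
        have he' : e ∈ [(x, v), (v, y)] := by simpa using he
        exact Or.inr ((OR' e he' f hf) p hp q hq hpq).1
    · refine ⟨?_, ?_⟩
      · intro e he f hf p hp q hq hpq
        have he' : e ∈ N := by simpa [hN] using he
        have hf' : f ∈ N := by simpa [hN] using hf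
        by_cases hef : e = f
        · subst hef
          exact proj_inj_on (Nflat e he') hp hq hpq
        · exact (NN e he' f hf' hef p hp q hq hpq).1
      · intro e he f hf p hp q hq hpq
        have he' : e ∈ N := by simpa [hN] using he
        exact Or.inr ((NR e he' f hf) p hp q hq hpq).1
  · unfold nIn
    have e1 : τ.filter (fun p => decide (p 1 < 0)) = [] := by
      rw [List.filter_eq_nil_iff]
      intro p hp'
      have := hp p hp'
      simp only [decide_eq_true_eq]
      linarith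
    rw [List.filter_cons_of_neg (by simp only [decide_eq_true_eq]; linarith),
      List.filter_cons_of_neg (by simp only [decide_eq_true_eq]; rw [S1]; exact lt_irrefl _),
      List.filter_cons_of_pos (by simpa using hv),
      List.filter_cons_of_neg (by simp only [decide_eq_true_eq]; rw [S'1]; exact lt_irrefl _),
      List.filter_cons_of_neg (by simp only [decide_eq_true_eq]; linarith), e1]
    rfl
  · unfold nOut
    rw [hE', List.filter_append]
    have e1 : R.filter (fun e => decide (e.1 1 = 0 ∧ 0 < e.2 1)) = [] := by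
      rw [List.filter_eq_nil_iff]
      intro e he
      have := (hup e he).2.2.1
      simp only [decide_eq_true_eq]
      rintro ⟨h1, _⟩
      linarith
    rw [e1, hN, List.filter_cons_of_neg (by simp only [decide_eq_true_eq]; rintro ⟨h1, _⟩; linarith),
      List.filter_cons_of_neg (by simp only [decide_eq_true_eq]; rintro ⟨_, h1⟩; linarith),
      List.filter_cons_of_neg (by simp only [decide_eq_true_eq]; rintro ⟨h1, _⟩; linarith),
      List.filter_cons_of_pos (by simp only [decide_eq_true_eq]; exact ⟨S'1, by linarith⟩)]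
    rfl
  · unfold nX cnt
    rw [hE', List.filter_append, List.length_append, hE, List.map_cons, List.map_cons,
      List.sum_cons, List.sum_cons]
    have e0 : N.filter (fun e => decide (OuterE e ∧ ∃ f ∈ N ++ R, OuterE f ∧ XR e f)) = [] := by
      rw [List.filter_eq_nil_iff]
      intro e he
      simp only [decide_eq_true_eq]
      rintro ⟨_, f, hf, _, hef⟩
      rw [List.mem_append] at hf
      rcases hf with hf | hf
      · by_cases hne : e = f
        · subst hne; exact not_xr_self _ hef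
        · exact not_xr_of_nc (NN e he f hf hne) hef
      · exact not_xr_of_nc (NR e he f hf) hef
    have z1 : cx ((x, v) :: (v, y) :: R) (x, v) = 0 := by
      unfold cx
      rw [List.countP_eq_zero]
      intro f hf
      simp only [List.mem_cons] at hf
      simp only [decide_eq_true_eq]
      rcases hf with rfl | rfl | hf
      · exact not_xr_self _
      · exact not_xr_of_nc c12
      · exact not_xr_of_nc (OR' _ (by simp) f hf)
    have z2 : cx ((x, v) :: (v, y) :: R) (v, y) = 0 := by
      unfold cx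
      rw [List.countP_eq_zero]
      intro f hf
      simp only [List.mem_cons] at hf
      simp only [decide_eq_true_eq]
      rcases hf with rfl | rfl | hf
      · exact not_xr_of_nc (NC.symm c12)
      · exact not_xr_self _
      · exact not_xr_of_nc (OR' _ (by simp) f hf)
    rw [e0, z1, z2, List.length_nil, zero_add, zero_add, zero_add]
    symm
    apply sum_eq_length_filter
    intro e he
    have h1 := cx_le_one_of_mes hmes (hRm e he)
    rw [hE] at h1
    have hOe : OuterE e := by
      have := (hup e he).2.2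
      exact ⟨by linarith [this.1], by linarith [this.2]⟩
    by_cases hex : ∃ f ∈ N ++ R, OuterE f ∧ XR e f
    · rw [if_pos ⟨hOe, hex⟩]
      obtain ⟨f, hf, _, hef⟩ := hex
      rw [List.mem_append] at hf
      rcases hf with hf | hf
      · exact absurd hef (not_xr_of_nc (NC.symm (NR f hf e he)))
      · have := one_le_cx (E := (x, v) :: (v, y) :: R)
          (List.mem_cons_of_mem _ (List.mem_cons_of_mem _ hf)) hef
        omega
    · rw [if_neg (fun h2 => hex h2.2)]
      unfold cx
      rw [List.countP_eq_zero]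
      intro f hf
      simp only [List.mem_cons] at hf
      simp only [decide_eq_true_eq]
      rcases hf with rfl | rfl | hf
      · exact not_xr_of_nc (NC.symm (OR' _ (by simp) e he))
      · exact not_xr_of_nc (NC.symm (OR' _ (by simp) e he))
      · intro hef
        have hOf : OuterE f := by
          have := (hup f hf).2.2
          exact ⟨by linarith [this.1], by linarith [this.2]⟩
        exact hex ⟨f, List.mem_append_right _ hf, hOf, hef⟩

end Planar

end Pool.Agent.LinKnot
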