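import Mathlib

/-!
# Polygonal knots, knot diagrams and linear embeddings of complete graphs
-/

set_option autoImplicit false

namespace Pool.Agent.LinKnot

/-- Euclidean 3-space. -/
abbrev R3 := Fin 3 → ℝ

/-- The directed edges of the closed polygon with vertex list `l`. -/
def edges (l : List R3) : List (R3 × R3) := l.zip (l.rotate 1)

/-- The straight segment carrying an edge. -/
def seg (e : R3 × R3) : Set R3 := segment ℝ e.1 e.2

/-- The two ends of an edge. -/
def ends (e : R3 × R3) : Set R3 := {e.1, e.2}

/-- `l` lists the vertices of a simple closed polygon: a (tame) knot. -/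
def IsKnot (l : List R3) : Prop :=
  3 ≤ l.length ∧ l.Nodup ∧
    (edges l).Pairwise fun e f => seg e ∩ seg f ⊆ ends e ∩ ends f

/-- The elementary steps between vertex lists of polygonal knots: choosing another first vertex,
reversing the direction, and Reidemeister's triangle move, which replaces an edge `x y` by the two
edges `x z`, `z y` when the (possibly degenerate) triangle `x y z` meets the rest of the knot at
most in `x` and `y`. -/
inductive Step : List R3 → List R3 → Prop
  | rotate (l : List R3) : Step l (l.rotate 1)
  | reverse (l : List R3) : Step l l.reverse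
  | triangle (x y z : R3) (t : List R3) (h : IsKnot (x :: y :: t)) (h' : IsKnot (x :: z :: y :: t))
      (hT : ∀ e ∈ (edges (x :: y :: t)).tail, convexHull ℝ {x, y, z} ∩ seg e ⊆ {x, y}) :
      Step (x :: y :: t) (x :: z :: y :: t)

/-- Isotopy of polygonal knots: a finite sequence of elementary steps and their inverses. -/
def Isotopic : List R3 → List R3 → Prop := Relation.EqvGen Step

/-- Projection to the `xy`-plane. -/
def proj (p : R3) : ℝ × ℝ := (p 0, p 1)

/-- The projection of an edge. -/
def pseg (e : R3 × R3) : Set (ℝ × ℝ) := proj '' seg e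

/-- Two edges without common end cross if their projections meet. -/
def Cross (e f : R3 × R3) : Prop := Disjoint (ends e) (ends f) ∧ (pseg e ∩ pseg f).Nonempty

/-- The knot `l` has a regular projection: no vertex lies over an edge other than its two own
edges, and no three edges lie over one point. -/
def IsRegular (l : List R3) : Prop :=
  IsKnot l ∧ (∀ v ∈ l, ∀ e ∈ edges l, v ∉ ends e → proj v ∉ pseg e) ∧
    ∀ e ∈ edges l, ∀ f ∈ edges l, ∀ g ∈ edges l, e ≠ f → f ≠ g → e ≠ g →
      pseg e ∩ pseg f ∩ pseg g = ∅

/-- `l` has a regular projection with exactly `k` crossings. -/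
def IsDiagram (l : List R3) (k : ℕ) : Prop :=
  IsRegular l ∧ {x : (R3 × R3) × (R3 × R3) | x.1 ∈ edges l ∧ x.2 ∈ edges l ∧
    Cross x.1 x.2}.ncard = 2 * k

/-- The knot `K` has crossing number `k`. -/
def CrossingNumber (K : List R3) (k : ℕ) : Prop :=
  (∃ l, Isotopic l K ∧ IsDiagram l k) ∧ ∀ l j, Isotopic l K → IsDiagram l j → k ≤ j

/-- The points `p i` and the segments between them are a linear spatial embedding of `K_n`. -/
def IsLinearEmbedding {n : ℕ} (p : Fin n → R3) : Prop :=
  Function.Injective p ∧ ∀ i j k l, i ≠ j → k ≠ l → s(i, j) ≠ s(k, l) →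
    segment ℝ (p i) (p j) ∩ segment ℝ (p k) (p l) ⊆ {p i, p j} ∩ {p k, p l}

/-- The embedding contains the knot `K` up to isotopy. -/
def Contains {n : ℕ} (p : Fin n → R3) (K : List R3) : Prop :=
  ∃ c : List (Fin n), 3 ≤ c.length ∧ c.Nodup ∧ Isotopic (c.map p) K

end Pool.Agent.LinKnot
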