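import Pool.Agent.Lib.MP_188a32_co.StateOf
import Pool.Agent.Lib.MP_188a32_co_helper74.Over
import Pool.Agent.Lib.MP_188a32_co_helper88.Affine

/-!
# Task F: every diagram gives a first state
-/

set_option autoImplicit false

namespace Pool.Agent.LinKnot

/-- every diagram with `k` crossings can be subdivided so that each edge has at most one crossing,
moved into `y > 0` and pulled down to a state with one page point. -/
theorem exists_state {l : List R3} {k : ℕ} (h : IsDiagram l k) :
    ∃ l', State l' ∧ Isotopic l l' ∧ nIn l' = 1 ∧ nOut l' = 1 ∧ nX l' = 2 * k :=
  Planar.exists_state_of over_replace (fun T hT _ hl => isotopic_map_affine T hT hl) h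

end Pool.Agent.LinKnot
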