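import Pool.Agent.Lib.MP_188a32_co.Absorb

/-!
# The induction of Task G
-/

set_option autoImplicit false

namespace Pool.Agent.LinKnot

open scoped Classical Topology

/-- One reduction of the measure. -/
def Red (l l' : List R3) : Prop := State l' ∧ Isotopic l l' ∧
  nX l' + nOut l' + 1 ≤ nX l + nOut l ∧ nIn l' ≤ nIn l + 1 ∧ 1 ≤ nIn l'

lemma reduce_crossed (hA : AbsorbStmt (fun _ _ => True)) (hSl : SlideStmt (fun _ _ => True)) :
    ∀ (n : ℕ) (s : R3) (W : List R3) (w : R3) (t : List R3), W.length = n →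
      State (s :: W ++ w :: t) → s 1 = 0 → (∀ p ∈ W, 0 < p 1) → 0 ≤ w 1 →
      (∃ e ∈ pathEdges (s :: W ++ [w]), ∃ f ∈ edges (s :: W ++ w :: t), OuterE f ∧ XR e f) →
      ∃ l', Red (s :: W ++ w :: t) l' := by
  intro n
  induction n with
  | zero =>
    intro s W w t hn hS hs hW hw hcr
    have hW0 : W = [] := List.length_eq_zero_iff.1 hn
    subst hW0
    obtain ⟨e, he, ⟨x, y⟩, hf, hof, hx⟩ := hcr
    have he' : e = (s, w) := by simpa using he
    subst he'
    have hE : edges (s :: [] ++ w :: t) = pathEdges (s :: [] ++ [w]) ++ pathEdges (w :: t ++ [s]) :=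
      edges_two_paths _ _ _ _
    have heL : (s, w) ∈ edges (s :: [] ++ w :: t) := by rw [hE]; simp
    have hoe : OuterE (s, w) := ⟨hs.ge, hw⟩
    obtain ⟨m, ρ, hm⟩ := exists_rotate_of_mem_edges (by simp) hf
    have hS' : State (x :: y :: ρ) := by
      have := hS.rotate m
      rw [hm] at this; exact this
    obtain ⟨L', h1, h2, h3, h4, h5, h6⟩ := hA x y ρ s w hS' hof
      (by rw [← hm, mem_edges_rotate]; exact heL) hoe hx.symm hs trivial
    rw [← hm] at h2 h3 h4 h5
    rw [nX_rotate] at h3
    rw [nOut_rotate] at h4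
    rw [nIn_rotate] at h5
    refine ⟨L', h1, ?_, by omega, by omega, h6⟩
    exact (isotopic_rotate _ m).trans h2
  | succ n ih =>
    intro s W w t hn hS hs hW hw hcr
    obtain ⟨W', v, rfl⟩ : ∃ W' v, W = W' ++ [v] := by
      rcases List.eq_nil_or_concat W with h | ⟨W', v, h⟩
      · rw [h] at hn; simp at hn
      · exact ⟨W', v, by simpa using h⟩
    have hn' : W'.length = n := by simpa using hn
    have hv : 0 < v 1 := hW v (by simp)
    have hW' : ∀ p ∈ W', 0 < p 1 := fun p hp => hW p (by simp [hp])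
    have hl : s :: (W' ++ [v]) ++ w :: t = s :: W' ++ v :: (w :: t) := by simp
    have hpath : pathEdges (s :: (W' ++ [v]) ++ [w]) = pathEdges (s :: W' ++ [v]) ++ [(v, w)] := by
      rw [show s :: (W' ++ [v]) ++ [w] = (s :: W') ++ v :: [w] by simp, pathEdges_append]
      simp
    by_cases hearly : ∃ e ∈ pathEdges (s :: W' ++ [v]),
        ∃ f ∈ edges (s :: (W' ++ [v]) ++ w :: t), OuterE f ∧ XR e f
    · rw [hl] at hearly hS ⊢
      exact ih s W' v (w :: t) hn' hS hs hW' hv.le hearly
    · push Not at hearly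
      have hcr' : ∃ f ∈ edges (s :: (W' ++ [v]) ++ w :: t), OuterE f ∧ XR (v, w) f := by
        obtain ⟨e, he, f, hf, hof, hx⟩ := hcr
        rw [hpath, List.mem_append] at he
        rcases he with he | he
        · exact absurd hx (hearly e he f hf hof)
        · rw [List.mem_singleton] at he
          subst he
          exact ⟨f, hf, hof, hx⟩
      obtain ⟨⟨x, y⟩, hf, hof, hx⟩ := hcr'
      have hE : edges (s :: (W' ++ [v]) ++ w :: t) =
          pathEdges (s :: (W' ++ [v]) ++ [w]) ++ pathEdges (w :: t ++ [s]) :=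
        edges_two_paths _ _ _ _
      have hfO : (x, y) ∈ pathEdges (w :: t ++ [s]) := by
        have hf' := hf
        rw [hE, hpath, List.mem_append, List.mem_append] at hf'
        rcases hf' with (h | h) | h
        · have hvw : (v, w) ∈ edges (s :: (W' ++ [v]) ++ w :: t) := by
            rw [hE, hpath]; simp
          have hovw : OuterE (v, w) := ⟨hv.le, hw⟩
          exact absurd hx.symm (hearly _ h (v, w) hvw hovw)
        · rw [List.mem_singleton] at h
          rw [h] at hx
          exact absurd hx (not_XR_self _)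
        · exact h
      -- the first vertex after `s` is outer
      obtain ⟨w1, t1', hw1, hw1p⟩ : ∃ w1 t1', W' ++ [v] = w1 :: t1' ∧ 0 < w1 1 := by
        cases W' with
        | nil => exact ⟨v, [], rfl, hv⟩
        | cons a W'' => exact ⟨a, W'' ++ [v], rfl, hW' a (by simp)⟩
      have hsw1 : (s, w1) ∈ edges (s :: (W' ++ [v]) ++ w :: t) := by
        rw [hE, hw1]; simp
      have hfO' : (x, y) ∈ pathEdges (w :: t) := by
        obtain ⟨T, z, hT⟩ : ∃ T z, w :: t = T ++ [z] := by
          rcases List.eq_nil_or_concat (w :: t) with h | ⟨T, z, h⟩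
          · simp at h
          · exact ⟨T, z, by simpa using h⟩
        rw [hT, show T ++ [z] ++ [s] = T ++ z :: [s] by simp, pathEdges_append,
          List.mem_append] at hfO
        rw [hT]
        rcases hfO with h | h
        · exact h
        · exfalso
          have h' : (x, y) = (z, s) := by simpa using h
          rw [h'] at hf hof
          have tz : TypeOK (z, s) := hS.types _ hf
          have hz : 0 < z 1 := by
            rcases tz with k | k | k | k | k <;> simp only at k
            · exact k.1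
            · exact k.1
            · linarith [k.2]
            · linarith [hof.1, k.1]
            · linarith [k.2]
          exact hS.bind (z, s) hf (s, w1) hsw1 rfl hs ⟨hz, hw1p⟩
      obtain ⟨t1, t2, hsplit⟩ := exists_split_of_mem_pathEdges hfO'
      simp only at hsplit
      -- the predecessor of `v`
      obtain ⟨V, g0, hV⟩ : ∃ V g0, s :: W' = V ++ [g0] := by
        rcases List.eq_nil_or_concat (s :: W') with h | ⟨V, g0, h⟩
        · simp at h
        · exact ⟨V, g0, by simpa using h⟩
      have hg : (g0, v) ∈ pathEdges (s :: W' ++ [v]) := by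
        rw [hV, show V ++ [g0] ++ [v] = V ++ g0 :: [v] by simp, pathEdges_append]
        simp
      have hog : OuterE (g0, v) := outer_path hs hv.le hW' hg
      have hL : s :: (W' ++ [v]) ++ w :: t = (s :: (W' ++ [v]) ++ t1) ++ (x :: y :: t2) := by
        rw [hsplit]; simp
      have hSrot : State (x :: y :: (t2 ++ (s :: (W' ++ [v]) ++ t1))) := by
        rw [hL] at hS
        have := state_append_comm hS
        simpa using this
      have hmem : ∀ e, e ∈ edges (x :: y :: (t2 ++ (s :: (W' ++ [v]) ++ t1))) ↔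
          e ∈ edges (s :: (W' ++ [v]) ++ w :: t) := by
        intro e
        rw [hL, show x :: y :: (t2 ++ (s :: (W' ++ [v]) ++ t1)) =
          (x :: y :: t2) ++ (s :: (W' ++ [v]) ++ t1) by simp, mem_edges_append_comm]
      have hvw : (v, w) ∈ edges (s :: (W' ++ [v]) ++ w :: t) := by
        rw [hE, hpath]; simp
      have hgL : (g0, v) ∈ edges (s :: (W' ++ [v]) ++ w :: t) := by
        rw [hE, hpath, List.mem_append, List.mem_append]; exact Or.inl (Or.inl hg)
      obtain ⟨N, k1, k2, ⟨h, hh, hoh, hxh⟩, k3, k4, k5, k6⟩ :=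
        hSl x y (t2 ++ (s :: (W' ++ [v]) ++ t1)) g0 v w hSrot hof ((hmem _).2 hvw)
          ((hmem _).2 hgL) ⟨hv.le, hw⟩ hog hx.symm hv trivial
          (fun h' hh' hoh' => hearly _ hg h' ((hmem _).1 hh') hoh')
      have hN1 : x :: N ++ y :: (t2 ++ (s :: (W' ++ [v]) ++ t1)) =
          (x :: N ++ y :: t2) ++ (s :: (W' ++ [v]) ++ t1) := by simp
      have hN2 : s :: W' ++ v :: (t1 ++ (x :: N ++ y :: t2)) =
          (s :: (W' ++ [v]) ++ t1) ++ (x :: N ++ y :: t2) := by simp
      have hO1 : x :: y :: (t2 ++ (s :: (W' ++ [v]) ++ t1)) =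
          (x :: y :: t2) ++ (s :: (W' ++ [v]) ++ t1) := by simp
      have hS2 : State (s :: W' ++ v :: (t1 ++ (x :: N ++ y :: t2))) := by
        rw [hN2]
        rw [hN1] at k1
        exact state_append_comm k1
      obtain ⟨l', r1, r2, r3, r4, r5⟩ := ih s W' v (t1 ++ (x :: N ++ y :: t2)) hn' hS2 hs hW' hv.le
        ⟨(g0, v), hg, h, by rw [hN2, mem_edges_append_comm, ← hN1]; exact hh, hoh, hxh⟩
      have c1 : nX (s :: W' ++ v :: (t1 ++ (x :: N ++ y :: t2))) =
          nX (x :: N ++ y :: (t2 ++ (s :: (W' ++ [v]) ++ t1))) := by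
        rw [hN2, hN1, nX_append_comm]
      have c2 : nOut (s :: W' ++ v :: (t1 ++ (x :: N ++ y :: t2))) =
          nOut (x :: N ++ y :: (t2 ++ (s :: (W' ++ [v]) ++ t1))) := by
        rw [hN2, hN1, nOut_append_comm]
      have c3 : nIn (s :: W' ++ v :: (t1 ++ (x :: N ++ y :: t2))) =
          nIn (x :: N ++ y :: (t2 ++ (s :: (W' ++ [v]) ++ t1))) := by
        rw [hN2, hN1, nIn_append_comm]
      have d1 : nX (s :: (W' ++ [v]) ++ w :: t) =
          nX (x :: y :: (t2 ++ (s :: (W' ++ [v]) ++ t1))) := by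
        rw [hL, hO1, nX_append_comm]
      have d2 : nOut (s :: (W' ++ [v]) ++ w :: t) =
          nOut (x :: y :: (t2 ++ (s :: (W' ++ [v]) ++ t1))) := by
        rw [hL, hO1, nOut_append_comm]
      have d3 : nIn (s :: (W' ++ [v]) ++ w :: t) =
          nIn (x :: y :: (t2 ++ (s :: (W' ++ [v]) ++ t1))) := by
        rw [hL, hO1, nIn_append_comm]
      refine ⟨l', r1, ?_, by omega, by omega, r5⟩
      have i1 : Isotopic (s :: (W' ++ [v]) ++ w :: t)
          (x :: y :: (t2 ++ (s :: (W' ++ [v]) ++ t1))) := by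
        rw [hL, hO1]; exact isotopic_append_comm _ _
      have i2 : Isotopic (x :: N ++ y :: (t2 ++ (s :: (W' ++ [v]) ++ t1)))
          (s :: W' ++ v :: (t1 ++ (x :: N ++ y :: t2))) := by
        rw [hN1, hN2]; exact isotopic_append_comm _ _
      exact ((i1.trans k2).trans i2).trans r2

/-- If no edge leads from the axis to the outer part, everything lies in `y ≤ 0`. -/
lemma nonpos_of_path : ∀ (m : List R3) (a : R3), a 1 ≤ 0 →
    (∀ e ∈ pathEdges (a :: m), TypeOK e ∧ ¬ (e.1 1 = 0 ∧ 0 < e.2 1)) → ∀ p ∈ m, p 1 ≤ 0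
  | [], a, _, _, p, hp => by simp at hp
  | b :: m, a, ha, h, p, hp => by
    rw [pathEdges_cons_cons] at h
    have hb : b 1 ≤ 0 := by
      obtain ⟨k, k'⟩ := h (a, b) (by simp)
      rcases k with k | k | k | k | k <;> simp only at k k'
      · linarith [k.1]
      · exact k.2.le
      · exact absurd k k'
      · exact k.2.le
      · exact k.2.le
    rcases List.mem_cons.1 hp with rfl | hp
    · exact hb
    · exact nonpos_of_path m b hb (fun e he => h e (List.mem_cons_of_mem _ he)) p hp

lemma nonpos_of_nOut {l : List R3} (hS : State l) (h1 : 1 ≤ nIn l) (h0 : nOut l = 0) :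
    ∀ p ∈ l, p 1 ≤ 0 := by
  obtain ⟨q, hq⟩ := List.exists_mem_of_length_pos (show 0 < nIn l from h1)
  rw [List.mem_filter] at hq
  obtain ⟨hql, hq1⟩ := hq
  have hq1 : q 1 < 0 := by simpa using hq1
  obtain ⟨e, he, heq⟩ := exists_edge_fst hql
  obtain ⟨n, t, hn⟩ := exists_rotate_of_mem_edges (by have := hS.knot.length; omega) he
  rw [heq] at hn
  have hty : ∀ e' ∈ edges (q :: e.2 :: t), TypeOK e' ∧ ¬ (e'.1 1 = 0 ∧ 0 < e'.2 1) := by
    intro e' he'
    rw [← hn, mem_edges_rotate] at he'
    refine ⟨hS.types e' he', fun hc => ?_⟩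
    have h2 : e' ∈ (edges l).filter fun e => decide (e.1 1 = 0 ∧ 0 < e.2 1) :=
      List.mem_filter.2 ⟨he', by simpa using hc⟩
    have h3 : ((edges l).filter fun e => decide (e.1 1 = 0 ∧ 0 < e.2 1)).length = 0 := h0
    rw [List.length_eq_zero_iff] at h3
    rw [h3] at h2
    simp at h2
  have key : ∀ p ∈ e.2 :: t, p 1 ≤ 0 := by
    apply nonpos_of_path (e.2 :: t) q hq1.le
    intro e' he'
    apply hty
    rw [edges_cons]
    rcases List.eq_nil_or_concat (e.2 :: t) with h | ⟨T, z, h⟩
    · simp at h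
    · have h' : e.2 :: t = T ++ [z] := by simpa using h
      rw [h'] at he' ⊢
      rw [show q :: (T ++ [z]) ++ [q] = (q :: T) ++ z :: [q] by simp, pathEdges_append]
      exact List.mem_append_left _ (by simpa using he')
  intro p hp
  have hp' : p ∈ q :: e.2 :: t := by rw [← hn]; simpa using hp
  rcases List.mem_cons.1 hp' with rfl | hp'
  · exact hq1.le
  · exact key p hp'

/-- Decomposition of an outer arc. -/
lemma exists_outer_arc {l : List R3} (hS : State l) (h1 : 1 ≤ nIn l) (h0 : 1 ≤ nOut l) :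
    ∃ (n : ℕ) (s s' : R3) (W t : List R3), l.rotate n = s :: W ++ s' :: t ∧ s 1 = 0 ∧ s' 1 = 0 ∧
      W ≠ [] ∧ (∀ p ∈ W, 0 < p 1) ∧ t ≠ [] := by
  obtain ⟨e, he⟩ := List.exists_mem_of_length_pos (show 0 < nOut l from h0)
  rw [List.mem_filter] at he
  obtain ⟨he, hee⟩ := he
  have hee : e.1 1 = 0 ∧ 0 < e.2 1 := by simpa using hee
  obtain ⟨n, t0, hn⟩ := exists_rotate_of_mem_edges (by have := hS.knot.length; omega) he
  obtain ⟨q, hq⟩ := List.exists_mem_of_length_pos (show 0 < nIn l from h1)
  rw [List.mem_filter] at hq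
  obtain ⟨hql, hq1⟩ := hq
  have hq1 : q 1 < 0 := by simpa using hq1
  have hq' : q ∈ e.1 :: e.2 :: t0 := by rw [← hn]; simpa using hql
  have hqt : q ∈ t0 := by
    rcases List.mem_cons.1 hq' with h | h
    · rw [h] at hq1; linarith [hee.1]
    · rcases List.mem_cons.1 h with h | h
      · rw [h] at hq1; linarith [hee.2]
      · exact h
  -- split off the outer run
  have hsplit : ∀ (m : List R3), q ∈ m → ∃ (V r : List R3) (s' : R3), m = V ++ s' :: r ∧
      (∀ p ∈ V, 0 < p 1) ∧ s' 1 ≤ 0 := by
    intro m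
    induction m with
    | nil => intro h; simp at h
    | cons a m ih =>
      intro h
      by_cases ha : 0 < a 1
      · have hqm : q ∈ m := by
          rcases List.mem_cons.1 h with h | h
          · rw [h] at hq1; linarith
          · exact h
        obtain ⟨V, r, s', e1, e2, e3⟩ := ih hqm
        refine ⟨a :: V, r, s', by rw [e1]; rfl, ?_, e3⟩
        intro p hp
        rcases List.mem_cons.1 hp with rfl | hp
        · exact ha
        · exact e2 p hp
      · exact ⟨[], m, a, rfl, by simp, not_lt.1 ha⟩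
  obtain ⟨V, r, s', e1, e2, e3⟩ := hsplit t0 hqt
  have hW : ∀ p ∈ e.2 :: V, 0 < p 1 := by
    intro p hp
    rcases List.mem_cons.1 hp with rfl | hp
    · exact hee.2
    · exact e2 p hp
  have hrot : l.rotate n = e.1 :: (e.2 :: V) ++ s' :: r := by rw [hn, e1]; simp
  have hSr := hS.rotate n
  -- the edge into `s'`
  obtain ⟨V', z, hV'⟩ : ∃ V' z, e.2 :: V = V' ++ [z] := by
    rcases List.eq_nil_or_concat (e.2 :: V) with h | ⟨V', z, h⟩
    · simp at h
    · exact ⟨V', z, by simpa using h⟩
  have hz : 0 < z 1 := hW z (by rw [hV']; simp)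
  have hzs : (z, s') ∈ edges (l.rotate n) := by
    rw [hrot, edges_two_paths, hV']
    apply List.mem_append_left
    rw [show e.1 :: (V' ++ [z]) ++ [s'] = (e.1 :: V') ++ z :: [s'] by simp, pathEdges_append]
    simp
  have hs' : s' 1 = 0 := by
    have tz : TypeOK (z, s') := hSr.types _ hzs
    rcases tz with k | k | k | k | k <;> simp only at k
    · linarith [k.2]
    · exact k.2
    · linarith [k.1]
    · linarith [k.1]
    · linarith [k.1]
  refine ⟨n, e.1, s', e.2 :: V, r, hrot, hee.1, hs', by simp, hW, ?_⟩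
  rintro rfl
  rw [e1] at hqt
  rw [List.mem_append] at hqt
  rcases hqt with h | h
  · linarith [e2 q h]
  · rw [List.mem_singleton] at h
    rw [h] at hq1; linarith

/-- Task G. -/
theorem state_reduce_of (hA : AbsorbStmt (fun _ _ => True)) (hSl : SlideStmt (fun _ _ => True)) :
    ∀ (μ : ℕ) {l : List R3}, State l → 1 ≤ nIn l → nX l + nOut l ≤ μ →
      ∃ l', State l' ∧ (∀ p ∈ l', p 1 ≤ 0) ∧ nIn l' ≤ nIn l + μ ∧ Isotopic l l' := by
  intro μ
  induction μ with
  | zero =>
    intro l hS h1 hμ
    exact ⟨l, hS, nonpos_of_nOut hS h1 (by omega), by omega, Isotopic.refl l⟩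
  | succ μ ih =>
    intro l hS h1 hμ
    by_cases h0 : nOut l = 0
    · exact ⟨l, hS, nonpos_of_nOut hS h1 h0, by omega, Isotopic.refl l⟩
    obtain ⟨n, s, s', W, t, hrot, hs, hs', hWn, hW, ht⟩ :=
      exists_outer_arc hS h1 (Nat.one_le_iff_ne_zero.2 h0)
    have hSr : State (s :: W ++ s' :: t) := by rw [← hrot]; exact hS.rotate n
    have key : ∃ l1, Red (s :: W ++ s' :: t) l1 := by
      by_cases hcr : ∃ e ∈ pathEdges (s :: W ++ [s']), ∃ f ∈ edges (s :: W ++ s' :: t),
          OuterE f ∧ XR e f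
      · exact reduce_crossed hA hSl W.length s W s' t rfl hSr hs hW hs'.ge hcr
      · push Not at hcr
        obtain ⟨b, k1, k2, k3, k4, k5, k6⟩ := step_replace over_replace hSr hs hs' hWn hW ht hcr
        exact ⟨_, k1, k2, by omega, k3, k6⟩
    obtain ⟨l1, r1, r2, r3, r4, r5⟩ := key
    have d1 : nX (s :: W ++ s' :: t) = nX l := by rw [← hrot, nX_rotate]
    have d2 : nOut (s :: W ++ s' :: t) = nOut l := by rw [← hrot, nOut_rotate]
    have d3 : nIn (s :: W ++ s' :: t) = nIn l := by rw [← hrot, nIn_rotate]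
    obtain ⟨l', q1, q2, q3, q4⟩ := ih r1 r5 (by omega)
    refine ⟨l', q1, q2, by omega, ?_⟩
    have i1 : Isotopic l (s :: W ++ s' :: t) := by rw [← hrot]; exact isotopic_rotate l n
    exact (i1.trans r2).trans q4

end Pool.Agent.LinKnot
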