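import Pool.Agent.Lib.MP_188a32_co.Main
import Pool.Agent.Lib.MP_188a32_co.Induct
import Pool.Agent.Lib.MP_188a32_co_helper24.Mirror

/-!
# Linear embeddings of large complete graphs contain all knots with few crossings
-/

set_option autoImplicit false

namespace Pool.Agent.LinKnot

/-- Task G. -/
theorem state_reduce (μ : ℕ) {l : List R3} (h : State l) (h1 : 1 ≤ nIn l)
    (hμ : nX l + nOut l ≤ μ) : ∃ l', State l' ∧ (∀ p ∈ l', p 1 ≤ 0) ∧ nIn l' ≤ nIn l + μ ∧
      Isotopic l l' :=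
  state_reduce_of (absorb_full absorb_over) (slide_full slide_over) μ h h1 hμ

/-- Every diagram with `k` crossings has an arc presentation with at most `2 k + 2` pages. -/
theorem exists_arc {l : List R3} {k : ℕ} (h : IsDiagram l k) :
    ∃ (m : ℕ) (a b : ℕ → R3) (c : List (ℕ × ℕ)), m ≤ 2 * k + 2 ∧ Pos m a b ∧ ValidCode m c ∧
      Isotopic l (zig a b c) := by
  obtain ⟨l', hs, hi, h1, h2, h3⟩ := exists_state h
  obtain ⟨l'', hs', hy, hn, hi'⟩ := state_reduce (2 * k + 1) hs (by omega) (by omega)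
  obtain ⟨m, a, b, c, hm, hp, hc, hi''⟩ := state_to_pos hs' hy
  exact ⟨m, a, b, c, by omega, hp, hc, (hi.trans hi').trans hi''⟩

/-- The polynomial bound. -/
theorem polynomial_bound :
    ∃ C d : ℕ, ∀ k : ℕ, 3 ≤ k → ∀ K : List R3, IsKnot K → CrossingNumber K k →
      ∀ n : ℕ, C * k ^ d ≤ n → ∀ p : Fin n → R3, IsLinearEmbedding p → Contains p K :=
  main_forall exists_arc

end Pool.Agent.LinKnot
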