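import Pool.Agent.Lib.MP_188a32_co.Subdiv

/-!
# Task F: from a diagram to a first state
-/

set_option autoImplicit false

namespace Pool.Agent.LinKnot

open scoped Classical

namespace Planar

lemma exists_rotate {l : List R3} (hl : 2 ≤ l.length) {e : R3 × R3} (he : e ∈ edges l) :
    ∃ (n : ℕ) (t : List R3), l.rotate n = e.1 :: e.2 :: t := by
  obtain ⟨i, hi, hie⟩ := List.getElem_of_mem he
  refine ⟨i, ?_⟩
  have hlen : (l.rotate i).length = l.length := by simp
  match h : l.rotate i, hlen with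
  | [], hlen => simp at hlen; omega
  | [_], hlen => simp at hlen; omega
  | x :: y :: t, _ =>
    refine ⟨t, ?_⟩
    have h1 : edges (l.rotate i) = (x, y) :: pathEdges (y :: t ++ [x]) := by
      rw [h, edges_cons_cons]
    rw [edges_rotate] at h1
    have h2 : ((edges l).rotate i)[0]? = some (x, y) := by rw [h1]; simp
    rw [List.getElem?_rotate (by omega)] at h2
    have hi' : i % (edges l).length = i := Nat.mod_eq_of_lt hi
    rw [Nat.zero_add, hi', List.getElem?_eq_getElem hi, hie, Option.some.injEq] at h2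
    rw [h2]

lemma two_of_cx {E : List (R3 × R3)} (hE : E.Nodup) {e : R3 × R3} (h : 2 ≤ cx E e) :
    ∃ f ∈ E, ∃ g ∈ E, f ≠ g ∧ XR e f ∧ XR e g := by
  unfold cx at h
  rw [List.countP_eq_length_filter] at h
  have hn : (E.filter fun f => decide (XR e f)).Nodup := hE.filter _
  match hF : E.filter (fun f => decide (XR e f)), h, hn with
  | [], h, _ => simp at h
  | [_], h, _ => simp at h
  | f :: g :: t, _, hn =>
    have hf : f ∈ E.filter (fun f => decide (XR e f)) := by rw [hF]; simp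
    have hg : g ∈ E.filter (fun f => decide (XR e f)) := by rw [hF]; simp
    rw [List.mem_filter] at hf hg
    refine ⟨f, hf.1, g, hg.1, ?_, by simpa using hf.2, by simpa using hg.2⟩
    rintro rfl
    simp at hn

lemma one_le_cx {E : List (R3 × R3)} {e f : R3 × R3} (hf : f ∈ E) (h : XR e f) : 1 ≤ cx E e := by
  unfold cx
  rw [Nat.one_le_iff_ne_zero, ← Nat.pos_iff_ne_zero, List.countP_pos_iff]
  exact ⟨f, hf, by simpa using h⟩

lemma two_le_cx {E : List (R3 × R3)} (hE : E.Nodup) {e f g : R3 × R3} (hf : f ∈ E) (hg : g ∈ E)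
    (hfg : f ≠ g) (h : XR e f) (h' : XR e g) : 2 ≤ cx E e := by
  unfold cx
  rw [List.countP_eq_length_filter, ← List.toFinset_card_of_nodup (hE.filter _)]
  have : ({f, g} : Finset (R3 × R3)) ⊆ (E.filter fun f => decide (XR e f)).toFinset := by
    intro w hw
    rw [List.mem_toFinset, List.mem_filter]
    rcases Finset.mem_insert.1 hw with rfl | hw
    · exact ⟨hf, by simpa using h⟩
    · rw [Finset.mem_singleton] at hw
      subst hw
      exact ⟨hg, by simpa using h'⟩
  calc 2 = ({f, g} : Finset (R3 × R3)).card := (Finset.card_pair hfg).symm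
    _ ≤ _ := Finset.card_le_card this

lemma generic_proj {x y : R3} {f : R3 × R3} {r : ℝ} (h0 : 0 < r) (h1 : r < 1) (hxy : x ≠ y)
    (h : NC (x, y) f ∨ XR (x, y) f) (hr : r ≠ cpar (x, y) f) : proj (pt (x, y) r) ∉ pseg f := by
  rintro ⟨q, hq, hpq⟩
  rcases h with h | h
  · obtain ⟨_, k2, _⟩ := h _ (pt_mem_seg (x, y) h0.le h1.le) q hq hpq.symm
    have h3 := pt_mem_openSegment x y h0 h1
    rcases k2 with k2 | k2
    · simp only at k2
      rw [k2, left_mem_openSegment_iff] at h3
      exact hxy h3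
    · simp only [Set.mem_singleton_iff] at k2
      rw [k2, right_mem_openSegment_iff] at h3
      exact hxy h3
  · exact hr (eq_cpar h ⟨q, hq, hpq⟩)

lemma reduce_mes {l : List R3} (h : Dia l) (hm : mes (edges l) ≠ 0) :
    ∃ l', Dia l' ∧ Isotopic l l' ∧ cnt (edges l') = cnt (edges l) ∧
      mes (edges l') < mes (edges l) := by
  -- an edge with two crossings
  obtain ⟨e, he, hce⟩ : ∃ e ∈ edges l, 2 ≤ cx (edges l) e := by
    by_contra hcon
    push Not at hcon
    apply hm
    unfold mes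
    apply List.sum_eq_zero
    intro n hn
    obtain ⟨e, he, rfl⟩ := List.mem_map.1 hn
    have := hcon e he
    omega
  obtain ⟨n, t, hn⟩ := exists_rotate (by have := h.knot.length; omega) he
  obtain ⟨x, y⟩ := e
  simp only at hn
  have hperm := edges_rotate_perm l n
  have hD := h.rotate n
  rw [hn] at hperm hD
  have hcx : 2 ≤ cx (edges (x :: y :: t)) (x, y) := by rw [cx_perm hperm]; exact hce
  have hnd := nodup_edges hD.knot.nodup
  obtain ⟨f, hf, g, hg, hfg, hef, heg⟩ := two_of_cx hnd hcx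
  have hE : edges (x :: y :: t) = (x, y) :: pathEdges (y :: t ++ [x]) := edges_cons_cons _ _ _
  set T := pathEdges (y :: t ++ [x]) with hT
  have hxy : (x, y) ∈ edges (x :: y :: t) := by rw [hE]; simp
  have hflat : proj x ≠ proj y := hD.flat _ hxy
  have hne : x ≠ y := fun h => hflat (by rw [h])
  have hmem : ∀ e ∈ T, e ∈ edges (x :: y :: t) := fun e he => by
    rw [hE]; exact List.mem_cons_of_mem _ he
  have hfT : ∀ f ∈ edges (x :: y :: t), XR (x, y) f → f ∈ T := by
    intro f hf hx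
    rw [hE, List.mem_cons] at hf
    rcases hf with rfl | hf
    · exact absurd hx (not_xr_self _)
    · exact hf
  have hpar : cpar (x, y) f ≠ cpar (x, y) g := by
    intro h1
    have h2 := hD.triple _ hxy f hf g hg hef heg hfg
    rw [Set.eq_empty_iff_forall_notMem] at h2
    apply h2 (proj (pt (x, y) (cpar (x, y) f)))
    refine ⟨⟨⟨_, pt_mem_seg _ (cpar_mem hef.2).1.le (cpar_mem hef.2).2.le, rfl⟩, ?_⟩, ?_⟩
    · rw [proj_cpar hef]
      exact ⟨_, pt_mem_seg _ (cpar_mem hef.1).1.le (cpar_mem hef.1).2.le, rfl⟩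
    · rw [h1, proj_cpar heg]
      exact ⟨_, pt_mem_seg _ (cpar_mem heg.1).1.le (cpar_mem heg.1).2.le, rfl⟩
  -- wlog the crossing with `f` comes first
  obtain ⟨f, hf, g, hg, hfg, hef, heg, hlt⟩ : ∃ f ∈ T, ∃ g ∈ T, f ≠ g ∧ XR (x, y) f ∧ XR (x, y) g ∧
      cpar (x, y) f < cpar (x, y) g := by
    rcases lt_or_gt_of_ne hpar with h1 | h1
    · exact ⟨f, hfT f hf hef, g, hfT g hg heg, hfg, hef, heg, h1⟩
    · exact ⟨g, hfT g hg heg, f, hfT f hf hef, hfg.symm, heg, hef, h1⟩
  obtain ⟨r, hr, hrT⟩ := (Set.Ioo_infinite hlt).exists_notMem_finset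
    (T.map (cpar (x, y))).toFinset
  have h0 : 0 < r := (cpar_mem hef.2).1.trans hr.1
  have h1 : r < 1 := hr.2.trans (cpar_mem heg.2).2
  have hgen : ∀ e ∈ T, proj (pt (x, y) r) ∉ pseg e := by
    intro e he
    refine generic_proj h0 h1 hne (hD.pair _ hxy e (hmem e he) ?_) ?_
    · rintro rfl
      exact hD.knot.cons_cons_not_mem he
    · rintro h2
      apply hrT
      rw [List.mem_toFinset]
      exact List.mem_map.2 ⟨e, he, h2.symm⟩
  obtain ⟨hD', hiso⟩ := hD.subdivide h0 h1 hgen
  refine ⟨_, hD', ?_, ?_, ?_⟩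
  · exact (hn ▸ isotopic_rotate l n).trans hiso
  · rw [edges_insert, cnt_split h0 h1 hgen, ← hE, cnt_perm hperm]
  · rw [← mes_perm hperm, edges_insert, hE, ← hT]
    unfold mes
    rw [List.map_cons, List.map_cons, List.map_cons, List.sum_cons, List.sum_cons, List.sum_cons]
    have e1 := cx_sum h0 h1 hgen
    have e2 : 1 ≤ cx ((x, pt (x, y) r) :: (pt (x, y) r, y) :: T) (x, pt (x, y) r) :=
      one_le_cx (List.mem_cons_of_mem _ (List.mem_cons_of_mem _ hf)) ((xr_half1_iff h0 hef).2 hr.1)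
    have e3 : 1 ≤ cx ((x, pt (x, y) r) :: (pt (x, y) r, y) :: T) (pt (x, y) r, y) :=
      one_le_cx (List.mem_cons_of_mem _ (List.mem_cons_of_mem _ hg)) ((xr_half2_iff h1 heg).2 hr.2)
    have e4 : (T.map fun e => cx ((x, pt (x, y) r) :: (pt (x, y) r, y) :: T) e - 1) =
        T.map fun e => cx ((x, y) :: T) e - 1 := by
      apply List.map_congr_left
      intro e he
      rw [cx_split h0 h1 (hgen e he)]
    rw [e4]
    omega

lemma exists_mes_zero : ∀ (n : ℕ) (l : List R3), Dia l → mes (edges l) = n →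
    ∃ l', Dia l' ∧ Isotopic l l' ∧ cnt (edges l') = cnt (edges l) ∧ mes (edges l') = 0 := by
  intro n
  induction n using Nat.strong_induction_on with
  | _ n ih =>
    intro l hl hn
    by_cases h0 : n = 0
    · exact ⟨l, hl, Isotopic.refl l, rfl, hn.trans h0⟩
    · obtain ⟨l₁, k1, k2, k3, k4⟩ := reduce_mes hl (by omega)
      obtain ⟨l₂, j1, j2, j3, j4⟩ := ih _ (by omega) l₁ k1 rfl
      exact ⟨l₂, j1, k2.trans j2, j3.trans k3, j4⟩

lemma cx_le_one_of_mes {E : List (R3 × R3)} (h : mes E = 0) {e : R3 × R3} (he : e ∈ E) :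
    cx E e ≤ 1 := by
  unfold mes at h
  rw [List.sum_eq_zero_iff] at h
  have := h _ (List.mem_map.2 ⟨e, he, rfl⟩)
  omega

/-- the number of ordered pairs of crossing edges in a diagram -/
lemma cnt_of_isDiagram {l : List R3} {k : ℕ} (h : IsDiagram l k) : cnt (edges l) = 2 * k := by
  obtain ⟨hr, hk⟩ := h
  rw [← hk]
  have hnd := nodup_edges hr.1.nodup
  set E := (edges l).toFinset with hE
  have e1 : {x : (R3 × R3) × (R3 × R3) | x.1 ∈ edges l ∧ x.2 ∈ edges l ∧ Cross x.1 x.2} =
      ((E ×ˢ E).filter fun x => XR x.1 x.2 : Finset _) := by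
    ext x
    simp only [Finset.coe_filter, Finset.mem_product, hE, List.mem_toFinset]
    constructor
    · rintro ⟨h1, h2, h3⟩
      exact ⟨⟨h1, h2⟩, (hr.cross_iff h1 h2).1 h3⟩
    · rintro ⟨⟨h1, h2⟩, h3⟩
      exact ⟨h1, h2, (hr.cross_iff h1 h2).2 h3⟩
  rw [e1, Set.ncard_coe_finset, Finset.card_filter, Finset.sum_product]
  unfold cnt
  rw [← List.sum_toFinset _ hnd]
  refine Finset.sum_congr rfl fun e _ => ?_
  rw [← Finset.card_filter]
  unfold cx
  rw [List.countP_eq_length_filter, ← List.toFinset_card_of_nodup (hnd.filter _)]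
  congr 1
  ext f
  simp [hE]

end Planar

end Pool.Agent.LinKnot
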