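import Pool.Agent.Lib.MP_188a32_co.StepA

/-!
# The statements of the steps A (absorb) and S (slide)
-/

set_option autoImplicit false

namespace Pool.Agent.LinKnot

open scoped Classical Topology
open Filter

/-- The edge `e` of a state runs below `f` at their crossing. -/
def Under (e f : R3 × R3) : Prop := ∀ p ∈ seg e, ∀ q ∈ seg f, proj p = proj q → p 2 < q 2

/-- Statement of step A: the first edge of an outer arc has a crossing. -/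
def AbsorbStmt (Q : R3 × R3 → R3 × R3 → Prop) : Prop :=
  ∀ (x y : R3) (ρ : List R3) (v w : R3), State (x :: y :: ρ) → OuterE (x, y) →
  (v, w) ∈ edges (x :: y :: ρ) → OuterE (v, w) → XR (x, y) (v, w) → v 1 = 0 → Q (x, y) (v, w) →
  ∃ L', State L' ∧ Isotopic (x :: y :: ρ) L' ∧ nX L' + 2 ≤ nX (x :: y :: ρ) ∧
    nOut L' ≤ nOut (x :: y :: ρ) + 1 ∧ nIn L' ≤ nIn (x :: y :: ρ) + 1 ∧ 1 ≤ nIn L'

/-- Statement of step S: a crossing is moved back over a vertex of the outer part. -/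
def SlideStmt (Q : R3 × R3 → R3 × R3 → Prop) : Prop :=
  ∀ (x y : R3) (ρ : List R3) (g0 v w : R3), State (x :: y :: ρ) → OuterE (x, y) →
  (v, w) ∈ edges (x :: y :: ρ) → (g0, v) ∈ edges (x :: y :: ρ) → OuterE (v, w) →
  OuterE (g0, v) → XR (x, y) (v, w) → 0 < v 1 → Q (x, y) (v, w) →
  (∀ h ∈ edges (x :: y :: ρ), OuterE h → ¬ XR (g0, v) h) →
  ∃ N : List R3, State (x :: N ++ y :: ρ) ∧ Isotopic (x :: y :: ρ) (x :: N ++ y :: ρ) ∧
    (∃ h ∈ edges (x :: N ++ y :: ρ), OuterE h ∧ XR (g0, v) h) ∧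
    nX (x :: N ++ y :: ρ) ≤ nX (x :: y :: ρ) ∧ nOut (x :: N ++ y :: ρ) ≤ nOut (x :: y :: ρ) ∧
    nIn (x :: N ++ y :: ρ) ≤ nIn (x :: y :: ρ) ∧ nIn (x :: y :: ρ) ≤ nIn (x :: N ++ y :: ρ)

/-- Statement of the planar geometry of step S. -/
def SlideGeomStmt : Prop :=
  ∀ (L : List R3) (e : R3 × R3) (g0 v w : R3) (θ D : ℝ), State L → e ∈ edges L →
  (v, w) ∈ edges L → (g0, v) ∈ edges L → OuterE e → OuterE (v, w) → OuterE (g0, v) →
  XR e (v, w) → 0 < v 1 → (∀ h ∈ edges L, OuterE h → ¬ XR (g0, v) h) → D ≠ 0 → 0 < θ → θ < 1 →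
  (∀ t, side (v, w) (pt e t) = (t - θ) * D) →
  ∃ a b : ℝ × ℝ, D * cross2 (proj w - proj v) a < 0 ∧ 0 < D * cross2 (proj w - proj v) b ∧
    ∀ H : ℝ, ∀ᶠ ε in 𝓝[>] (0 : ℝ),
      0 < v 1 + ε * a.2 ∧ 0 < v 1 + ε * b.2 ∧
      XR (![v 0 + ε * a.1, v 1 + ε * a.2, H], ![v 0 + ε * b.1, v 1 + ε * b.2, H]) (g0, v) ∧
      NC (![v 0 + ε * a.1, v 1 + ε * a.2, H], ![v 0 + ε * b.1, v 1 + ε * b.2, H]) (v, w) ∧
      (∀ h ∈ edges L, OuterE h → h ≠ (v, w) → h ≠ (g0, v) →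
        Disjoint (pseg (![v 0 + ε * a.1, v 1 + ε * a.2, H],
          ![v 0 + ε * b.1, v 1 + ε * b.2, H])) (pseg h)) ∧
      NC (pt e (θ - ε), ![v 0 + ε * a.1, v 1 + ε * a.2, H]) (g0, v) ∧
      NC (![v 0 + ε * b.1, v 1 + ε * b.2, H], pt e (θ + ε)) (g0, v) ∧
      NC (pt e (θ - ε), ![v 0 + ε * a.1, v 1 + ε * a.2, H])
        (![v 0 + ε * a.1, v 1 + ε * a.2, H], ![v 0 + ε * b.1, v 1 + ε * b.2, H]) ∧
      NC (![v 0 + ε * a.1, v 1 + ε * a.2, H], ![v 0 + ε * b.1, v 1 + ε * b.2, H])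
        (![v 0 + ε * b.1, v 1 + ε * b.2, H], pt e (θ + ε))

end Pool.Agent.LinKnot
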