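import Pool.Agent.Lib.MP_188a32_co.StepR

/-!
# Moving a strand along a crossing edge: the common part of the steps A and S
-/

set_option autoImplicit false

namespace Pool.Agent.LinKnot

open scoped Classical Topology
open Filter

/-- Small perturbations of a segment avoid a compact set which the segment avoids. -/
lemma eventually_disjoint {P Q : ℝ × ℝ} {K : Set (ℝ × ℝ)} (hK : IsCompact K)
    (hd : Disjoint (segment ℝ P Q) K) {p q : ℝ → ℝ × ℝ} (hp : Tendsto p (𝓝[>] 0) (𝓝 P))
    (hq : Tendsto q (𝓝[>] 0) (𝓝 Q)) : ∀ᶠ ε in 𝓝[>] (0 : ℝ), Disjoint (segment ℝ (p ε) (q ε)) K := by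
  have hc : IsCompact (segment ℝ P Q) := by
    rw [← convexHull_pair]
    exact Set.Finite.isCompact_convexHull (𝕜 := ℝ) (Set.toFinite _)
  obtain ⟨δ, hδ, hdis⟩ := hd.exists_thickenings hc hK.isClosed
  have h1 : ∀ᶠ ε in 𝓝[>] (0 : ℝ), dist (p ε) P < δ := hp.eventually (Metric.ball_mem_nhds P hδ)
  have h2 : ∀ᶠ ε in 𝓝[>] (0 : ℝ), dist (q ε) Q < δ := hq.eventually (Metric.ball_mem_nhds Q hδ)
  filter_upwards [h1, h2] with ε h1 h2
  rw [Set.disjoint_left]
  rintro z ⟨a, b, ha, hb, hab, rfl⟩ hz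
  have hz' : a • p ε + b • q ε ∈ Metric.thickening δ (segment ℝ P Q) := by
    rw [Metric.mem_thickening_iff]
    refine ⟨a • P + b • Q, ⟨a, b, ha, hb, hab, rfl⟩, ?_⟩
    rw [dist_eq_norm] at h1 h2 ⊢
    have e1 : a • p ε + b • q ε - (a • P + b • Q) = a • (p ε - P) + b • (q ε - Q) := by module
    rw [e1]
    have e2 : ‖a • (p ε - P) + b • (q ε - Q)‖ ≤ a * ‖p ε - P‖ + b * ‖q ε - Q‖ := by
      refine (norm_add_le _ _).trans ?_
      rw [norm_smul, norm_smul, Real.norm_of_nonneg ha, Real.norm_of_nonneg hb]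
    refine e2.trans_lt ?_
    rcases ha.eq_or_lt with rfl | ha'
    · have : b = 1 := by linarith
      subst this; simpa using h2
    · have h3 := mul_lt_mul_of_pos_left h1 ha'
      have h4 := mul_le_mul_of_nonneg_left h2.le hb
      have : a * δ + b * δ = δ := by rw [← add_mul, hab, one_mul]
      linarith
  exact Set.disjoint_left.1 hdis hz' (Metric.self_subset_thickening hδ K hz)

lemma isCompact_pseg (e : R3 × R3) : IsCompact (pseg e) := by
  rw [pseg_eq, ← convexHull_pair]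
  exact Set.Finite.isCompact_convexHull (𝕜 := ℝ) (Set.toFinite _)

/-- The point with parameter `t` on an edge. -/
def pt (e : R3 × R3) (t : ℝ) : R3 := (1 - t) • e.1 + t • e.2

lemma pt_mem_seg {e : R3 × R3} {t : ℝ} (h0 : 0 ≤ t) (h1 : t ≤ 1) : pt e t ∈ seg e :=
  ⟨1 - t, t, by linarith, h0, by ring, rfl⟩

lemma pt_mem_openSegment {e : R3 × R3} {t : ℝ} (h0 : 0 < t) (h1 : t < 1) :
    pt e t ∈ openSegment ℝ e.1 e.2 := ⟨1 - t, t, by linarith, h0, by ring, rfl⟩

lemma exists_pt_of_mem_seg {e : R3 × R3} {p : R3} (h : p ∈ seg e) :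
    ∃ t, 0 ≤ t ∧ t ≤ 1 ∧ p = pt e t := by
  obtain ⟨a, b, ha, hb, hab, rfl⟩ := h
  exact ⟨b, hb, by linarith, by unfold pt; rw [show 1 - b = a by linarith]⟩

lemma side_pt (f e : R3 × R3) (t : ℝ) : side f (pt e t) = (1 - t) * side f e.1 + t * side f e.2 :=
  side_combo f _ _ (by ring)

lemma proj_pt (e : R3 × R3) (t : ℝ) : proj (pt e t) = (1 - t) • proj e.1 + t • proj e.2 := by
  unfold pt; rw [proj_add, proj_smul, proj_smul]

/-- Sides with respect to a part of an edge. -/
lemma side_sub_edge (e : R3 × R3) (s t : ℝ) (p : R3) :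
    side (pt e s, pt e t) p = (t - s) * side e p := by
  simp only [side_apply, pt, Pi.add_apply, Pi.smul_apply, smul_eq_mul]; ring

lemma pt_zero (e : R3 × R3) : pt e 0 = e.1 := by simp [pt]
lemma pt_one (e : R3 × R3) : pt e 1 = e.2 := by simp [pt]

lemma side_first_part (e : R3 × R3) (t : ℝ) (p : R3) : side (e.1, pt e t) p = t * side e p := by
  have := side_sub_edge e 0 t p
  rwa [pt_zero, sub_zero] at this

lemma side_last_part (e : R3 × R3) (t : ℝ) (p : R3) :
    side (pt e t, e.2) p = (1 - t) * side e p := by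
  have := side_sub_edge e t 1 p
  rwa [pt_one] at this

lemma seg_first_part {e : R3 × R3} {t : ℝ} (h0 : 0 ≤ t) (h1 : t ≤ 1) :
    seg (e.1, pt e t) ⊆ seg e :=
  (convex_segment _ _).segment_subset (left_mem_segment ℝ _ _) (pt_mem_seg h0 h1)

lemma seg_last_part {e : R3 × R3} {t : ℝ} (h0 : 0 ≤ t) (h1 : t ≤ 1) :
    seg (pt e t, e.2) ⊆ seg e :=
  (convex_segment _ _).segment_subset (pt_mem_seg h0 h1) (right_mem_segment ℝ _ _)

lemma eq_pt_iff {e : R3 × R3} (hne : e.1 ≠ e.2) {s t : ℝ} : pt e s = pt e t ↔ s = t := by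
  constructor
  · intro h
    have h1 : (s - t) • (e.2 - e.1) = 0 := by
      have : (s - t) • (e.2 - e.1) = pt e s - pt e t := by unfold pt; module
      rw [this, h, sub_self]
    rcases smul_eq_zero.1 h1 with h' | h'
    · linarith
    · exact absurd (sub_eq_zero.1 h').symm hne
  · rintro rfl; rfl

lemma not_mem_first_part {e : R3 × R3} (hne : e.1 ≠ e.2) {t : ℝ} (h0 : 0 ≤ t) (h1 : t < 1) :
    e.2 ∉ seg (e.1, pt e t) := by
  rintro ⟨a, b, ha, hb, hab, h⟩
  simp only at h
  have h2 : a • e.1 + b • pt e t = pt e (b * t) := by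
    unfold pt
    have : a = 1 - b := by linarith
    subst this; module
  rw [h2] at h
  have h3 : pt e (b * t) = pt e 1 := by rw [h, pt_one]
  rw [eq_pt_iff hne] at h3
  nlinarith

lemma not_mem_last_part {e : R3 × R3} (hne : e.1 ≠ e.2) {t : ℝ} (h0 : 0 < t) (h1 : t ≤ 1) :
    e.1 ∉ seg (pt e t, e.2) := by
  rintro ⟨a, b, ha, hb, hab, h⟩
  simp only at h
  have h2 : a • pt e t + b • e.2 = pt e (a * t + b) := by
    unfold pt
    have : b = 1 - a := by linarith
    subst this; module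
  rw [h2] at h
  have h3 : pt e (a * t + b) = pt e 0 := by rw [h, pt_zero]
  rw [eq_pt_iff hne] at h3
  have : b = 1 - a := by linarith
  subst this
  nlinarith

lemma NC.first_part {e g : R3 × R3} (h : NC e g) (hne : e.1 ≠ e.2) {t : ℝ} (h0 : 0 ≤ t)
    (h1 : t < 1) : NC (e.1, pt e t) g := by
  intro p hp q hq hpq
  obtain ⟨k1, k2, k3⟩ := h p (seg_first_part h0 h1.le hp) q hq hpq
  refine ⟨k1, ?_, k3⟩
  rcases k2 with rfl | k2
  · exact Or.inl rfl
  · have k2 : p = e.2 := k2
    rw [k2] at hp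
    exact absurd hp (not_mem_first_part hne h0 h1)

lemma NC.last_part {e g : R3 × R3} (h : NC e g) (hne : e.1 ≠ e.2) {t : ℝ} (h0 : 0 < t)
    (h1 : t ≤ 1) : NC (pt e t, e.2) g := by
  intro p hp q hq hpq
  obtain ⟨k1, k2, k3⟩ := h p (seg_last_part h0.le h1 hp) q hq hpq
  refine ⟨k1, ?_, k3⟩
  rcases k2 with rfl | k2
  · exact absurd hp (not_mem_last_part hne h0 h1)
  · exact Or.inr k2

end Pool.Agent.LinKnot

namespace Pool.Agent.LinKnot

open scoped Classical Topology
open Filter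

lemma cross2_smul_right (a b : ℝ × ℝ) (c : ℝ) : cross2 a (c • b) = c * cross2 a b := by
  simp only [cross2, Prod.smul_fst, Prod.smul_snd, smul_eq_mul]; ring

lemma cross2_self (a : ℝ × ℝ) : cross2 a a = 0 := by
  simp only [cross2]; ring

lemma XR.param {e f : R3 × R3} (h : XR e f) : ∃ θ φ D : ℝ, 0 < θ ∧ θ < 1 ∧ 0 < φ ∧ φ < 1 ∧ D ≠ 0 ∧
    proj (pt e θ) = proj (pt f φ) ∧ ∀ t, side f (pt e t) = (t - θ) * D := by
  obtain ⟨θ, hθ, φ, hφ, hp⟩ := h.exists_point
  refine ⟨θ, φ, side f e.2 - side f e.1, hθ.1, hθ.2, hφ.1, hφ.2, ?_, hp, ?_⟩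
  · intro h0
    have h1 := h.2
    rw [show side f e.2 = side f e.1 by linarith] at h1
    nlinarith [mul_self_nonneg (side f e.1)]
  · intro t
    have h1 : side f (pt e θ) = 0 :=
      (side_congr f (show proj (pt e θ) = proj (pt f φ) from hp)).trans
        (side_mem_seg (pt_mem_seg hφ.1.le hφ.2.le))
    rw [side_pt] at h1 ⊢
    linear_combination h1

lemma tendsto_proj_pt (e : R3 × R3) (θ s : ℝ) :
    Tendsto (fun ε : ℝ => proj (pt e (θ + s * ε))) (𝓝[>] 0) (𝓝 (proj (pt e θ))) := by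
  have : Continuous (fun ε : ℝ => proj (pt e (θ + s * ε))) := by
    simp only [proj_pt]
    fun_prop
  have h := this.tendsto 0
  simp only [mul_zero, add_zero] at h
  exact h.mono_left nhdsWithin_le_nhds

lemma tendsto_vertex (P a : ℝ × ℝ) :
    Tendsto (fun ε : ℝ => P + ε • a) (𝓝[>] 0) (𝓝 P) := by
  have : Continuous (fun ε : ℝ => P + ε • a) := by fun_prop
  have h := this.tendsto 0
  simp only [zero_smul, add_zero] at h
  exact h.mono_left nhdsWithin_le_nhds

lemma outer_ne {L : List R3} (hL : State L) {e : R3 × R3} (he : e ∈ edges L) (ho : OuterE e) :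
    e.1 ≠ e.2 := fun h => hL.flat e he ho (by rw [h])

/-- The part of `f` between its start and an inner point meets only edges containing the start. -/
lemma start_disjoint {L : List R3} (hL : State L) {f g : R3 × R3} (hf : f ∈ edges L)
    (hof : OuterE f) (hNC : NC f g) (hv : f.1 ∉ ends g) {φ : ℝ} (hφ0 : 0 < φ) (hφ1 : φ < 1) :
    Disjoint (segment ℝ (proj (pt f φ)) (proj f.1)) (pseg g) := by
  rw [Set.disjoint_left]
  rintro z ⟨a, b, ha, hb, hab, rfl⟩ ⟨q, hq, hz⟩
  have hb' : b = 1 - a := by linarith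
  subst hb'
  have h1 : a • proj (pt f φ) + (1 - a) • proj f.1 = proj (pt f (a * φ)) := by
    rw [proj_pt, proj_pt]; module
  have ha1 : a ≤ 1 := by linarith
  have h0 : 0 ≤ a * φ := mul_nonneg ha hφ0.le
  have h2 : a * φ < 1 := by nlinarith
  rw [h1] at hz
  obtain ⟨k1, k2, k3⟩ := hNC _ (pt_mem_seg h0 h2.le) q hq hz.symm
  rcases k2 with h | h
  · rw [h] at k3; exact hv k3
  · have h' : pt f (a * φ) = pt f 1 := by rw [pt_one]; exact h
    rw [eq_pt_iff (outer_ne hL hf hof)] at h'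
    exact h2.ne h'

/-- The legs of the detour. -/
lemma legs {L : List R3} (hL : State L) {e f : R3 × R3} (he : e ∈ edges L) (hf : f ∈ edges L)
    (hoe : OuterE e) (hof : OuterE f) (hx : XR e f) {θ φ D : ℝ}
    (hφ0 : 0 < φ) (hφ1 : φ < 1) (hpt : proj (pt e θ) = proj (pt f φ))
    (hD0 : D ≠ 0) (hD : ∀ t, side f (pt e t) = (t - θ) * D) {s : ℝ} (hs : s * s = 1) {a : ℝ × ℝ}
    (ha : 0 < s * D * cross2 (proj f.2 - proj f.1) a) {A : ℝ → R3}
    (hA : ∀ ε, proj (A ε) = proj f.1 + ε • a) : ∀ᶠ ε in 𝓝[>] (0 : ℝ),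
      (∀ g ∈ edges L, OuterE g → g ≠ e → g ≠ f → f.1 ∉ ends g →
        Disjoint (pseg (pt e (θ + s * ε), A ε)) (pseg g)) ∧
      0 < side e (A ε) * side e f.1 ∧ 0 < s * D * side f (A ε) ∧
      0 < s * D * side f (pt e (θ + s * ε)) := by
  have h1 : ∀ᶠ ε in 𝓝[>] (0 : ℝ), ∀ g ∈ edges L, OuterE g → g ≠ e → g ≠ f → f.1 ∉ ends g →
        Disjoint (pseg (pt e (θ + s * ε), A ε)) (pseg g) := by
    have : ∀ᶠ ε in 𝓝[>] (0 : ℝ), ∀ g ∈ (edges L).toFinset, OuterE g → g ≠ e → g ≠ f →
        f.1 ∉ ends g → Disjoint (pseg (pt e (θ + s * ε), A ε)) (pseg g) := by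
      rw [Filter.eventually_all_finset]
      intro g hg
      rw [List.mem_toFinset] at hg
      by_cases hc : OuterE g ∧ g ≠ e ∧ g ≠ f ∧ f.1 ∉ ends g
      · obtain ⟨c1, c2, c3, c4⟩ := hc
        have hNC : NC f g := by
          rcases hL.pair f hf g hg hof c1 c3.symm with h | h
          · exact h
          · exact absurd (hL.single f hf e he g hg hof hoe c1 hx.symm h) c2.symm
        have hd := start_disjoint hL hf hof hNC c4 hφ0 hφ1
        rw [← hpt] at hd
        have := eventually_disjoint (isCompact_pseg g) hd (tendsto_proj_pt e θ s)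
          (q := fun ε => proj (A ε)) (by simp only [hA]; exact tendsto_vertex _ _)
        filter_upwards [this] with ε hε _ _ _ _
        rw [pseg_eq]
        exact hε
      · filter_upwards with ε k1 k2 k3 k4
        exact absurd ⟨k1, k2, k3, k4⟩ hc
    filter_upwards [this] with ε hε g hg
    exact hε g (by simpa using hg)
  have h2 : ∀ᶠ ε in 𝓝[>] (0 : ℝ), 0 < side e (A ε) * side e f.1 := by
    have hc : Continuous fun ε : ℝ => cross2 (proj e.2 - proj e.1) (proj f.1 + ε • a - proj e.1) := by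
      unfold cross2
      fun_prop
    have ht : Tendsto (fun ε : ℝ => side e (A ε) * side e f.1) (𝓝[>] 0)
        (𝓝 (side e f.1 * side e f.1)) := by
      have h3 := (hc.tendsto 0).mono_left (nhdsWithin_le_nhds (s := Set.Ioi 0))
      have h4 : (fun ε : ℝ => cross2 (proj e.2 - proj e.1) (proj f.1 + ε • a - proj e.1)) =
          fun ε => side e (A ε) := by
        funext ε; unfold side; rw [hA]
      rw [h4] at h3
      have h5 : cross2 (proj e.2 - proj e.1) (proj f.1 + (0:ℝ) • a - proj e.1) = side e f.1 := by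
        unfold side; simp
      rw [h5] at h3
      exact h3.mul_const _
    have hne : side e f.1 ≠ 0 := by
      intro h0; have := hx.1; rw [h0] at this; simp at this
    exact ht.eventually (lt_mem_nhds (mul_self_pos.2 hne))
  filter_upwards [h1, h2, self_mem_nhdsWithin] with ε hε1 hε2 hε
  have hε : 0 < ε := hε
  refine ⟨hε1, hε2, ?_, ?_⟩
  · have : side f (A ε) = ε * cross2 (proj f.2 - proj f.1) a := by
      unfold side
      rw [hA, add_sub_cancel_left, cross2_smul_right]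
    rw [this]
    have := mul_pos hε ha
    linarith
  · rw [hD]
    have : s * D * ((θ + s * ε - θ) * D) = (s * s) * ε * (D * D) := by ring
    rw [this, hs, one_mul]
    exact mul_pos hε (mul_self_pos.2 hD0)

end Pool.Agent.LinKnot
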