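import Pool.Agent.Lib.MP_188a32_co.Absorb
import Pool.Agent.Lib.MP_188a32_co_helper24.SlideGeom

/-!
# Step S: sliding a crossing back over a vertex
-/

set_option autoImplicit false

namespace Pool.Agent.LinKnot

open scoped Classical Topology
open Filter

lemma filter_length_le_one {α : Type} {l : List α} (hl : l.Nodup) (p : α → Prop) [DecidablePred p]
    {a : α} (h : ∀ x ∈ l, p x → x = a) : (l.filter fun x => p x).length ≤ 1 := by
  have h1 : (l.filter fun x => p x).Nodup := hl.filter _
  match hm : l.filter fun x => p x with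
  | [] => simp
  | [b] => simp
  | b :: c :: t =>
    exfalso
    rw [hm] at h1
    have hb : b ∈ l.filter fun x => p x := by rw [hm]; simp
    have hc : c ∈ l.filter fun x => p x := by rw [hm]; simp
    rw [List.mem_filter] at hb hc
    have e1 := h b hb.1 (by simpa using hb.2)
    have e2 := h c hc.1 (by simpa using hc.2)
    rw [e1, e2] at h1
    simp at h1

lemma filter_length_le_add {α : Type} (l : List α) (p q r : α → Prop) [DecidablePred p]
    [DecidablePred q] [DecidablePred r] (h : ∀ x ∈ l, p x → q x ∨ r x) :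
    (l.filter fun x => p x).length ≤ (l.filter fun x => q x).length +
      (l.filter fun x => r x).length := by
  induction l with
  | nil => simp
  | cons a l ih =>
    have ih' := ih (fun x hx => h x (List.mem_cons_of_mem _ hx))
    have ha := h a (by simp)
    by_cases hp : p a
    · rcases ha hp with hq | hr
      · by_cases hr : r a <;> simp [hp, hq, hr] <;> omega
      · by_cases hq : q a <;> simp [hp, hq, hr] <;> omega
    · by_cases hq : q a <;> by_cases hr : r a <;> simp [hp, hq, hr] <;> omega

lemma height_lt {e : R3 × R3} {H : ℝ} (h1 : e.1 2 < H) (h2 : e.2 2 < H) {p : R3}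
    (hp : p ∈ seg e) : p 2 < H := by
  obtain ⟨a, b, ha, hb, hab, rfl⟩ := hp
  simp only [Pi.add_apply, Pi.smul_apply, smul_eq_mul]
  have hb' : b = 1 - a := by linarith
  subst hb'
  rcases ha.eq_or_lt with rfl | ha'
  · simpa using h2
  · nlinarith

lemma height_eq {A B : R3} {H : ℝ} (h1 : A 2 = H) (h2 : B 2 = H) {p : R3}
    (hp : p ∈ seg (A, B)) : p 2 = H := by
  obtain ⟨a, b, ha, hb, hab, rfl⟩ := hp
  simp only [Pi.add_apply, Pi.smul_apply, smul_eq_mul, h1, h2]
  rw [← add_mul, hab, one_mul]

/-- Step S for an edge crossing over. -/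
theorem slide_over : SlideStmt Over := by
  intro x y ρ g0 v w hL hoe hf hg hof hog hx hv hover hfree
  set L := x :: y :: ρ with hLdef
  have he : (x, y) ∈ edges L := by rw [hLdef, edges_cons_cons]; simp
  have te : TypeOK (x, y) := hL.types _ he
  obtain ⟨θ, φ, D, hθ0, hθ1, hφ0, hφ1, hD0, hpt, hD⟩ := hx.param
  obtain ⟨H, hH⟩ := exists_bound L (fun q => q 2)
  obtain ⟨a, b, ha, hb, hab⟩ := slide_geom L (x, y) g0 v w θ D hL he hf hg hoe hof hog hx hv hfree
    hD0 hθ0 hθ1 hD
  have hproj : ∀ (c : ℝ × ℝ) (ε : ℝ), proj (![v 0 + ε * c.1, v 1 + ε * c.2, H] : R3) =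
      proj (v, w).1 + ε • c := by
    intro c ε
    ext
    · simp [proj]
    · simp [proj]
  have ev := eventually_legData hL he hf hoe hof hx hθ0 hθ1 hφ0 hφ1 hpt hD0 hD
    (a := a) (b := b) (A := fun ε => ![v 0 + ε * a.1, v 1 + ε * a.2, H])
    (B := fun ε => ![v 0 + ε * b.1, v 1 + ε * b.2, H]) ha hb (hproj a) (hproj b)
  obtain ⟨ε, hleg, hAp, hBp, hxr, hncf, hdis, hE2g, hE4g, hE23, hE34⟩ := (ev.and (hab H)).exists
  set A : R3 := ![v 0 + ε * a.1, v 1 + ε * a.2, H] with hA
  set B : R3 := ![v 0 + ε * b.1, v 1 + ε * b.2, H] with hB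
  set x1 := pt (x, y) (θ - ε) with hx1
  set y1 := pt (x, y) (θ + ε) with hy1
  have hεp := hleg.h0
  have A1 : 0 < A 1 := hAp
  have B1 : 0 < B 1 := hBp
  have A2 : A 2 = H := rfl
  have B2 : B 2 = H := rfl
  have x1p : 0 < x1 1 := pt_one_pos te hoe hleg.h1 (by linarith [hleg.h2])
  have y1p : 0 < y1 1 := pt_one_pos te hoe (by linarith [hleg.h1]) hleg.h2
  have x1n : x1 ∉ L := pt_not_mem hL he hoe hleg.h1 (by linarith [hleg.h2])
  have y1n : y1 ∉ L := pt_not_mem hL he hoe (by linarith [hleg.h1]) hleg.h2
  have An : A ∉ L := fun h => by have := hH A h; rw [A2] at this; exact lt_irrefl _ this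
  have Bn : B ∉ L := fun h => by have := hH B h; rw [B2] at this; exact lt_irrefl _ this
  have hxH : x 2 < H := hH x (by simp [hLdef])
  have hyH : y 2 < H := hH y (by simp [hLdef])
  have x1H : x1 2 < H := height_lt (e := (x, y)) hxH hyH (pt_mem_seg hleg.h1.le
    (by linarith [hleg.h2]))
  have y1H : y1 2 < H := height_lt (e := (x, y)) hxH hyH (pt_mem_seg
    (by linarith [hleg.h1]) hleg.h2.le)
  have hxy1 : x1 ≠ y1 := by
    intro h
    rw [hx1, hy1, eq_pt_iff (outer_ne hL he hoe)] at h
    linarith
  have hAB : A ≠ B := by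
    intro h
    have := hxr.1
    rw [← h] at this
    simp [side, cross2] at this
  set N : List R3 := [x1, A, B, y1] with hNdef
  have hNP : pathEdges (x :: N ++ [y]) = [(x, x1), (x1, A), (A, B), (B, y1), (y1, y)] := rfl
  have hnd0 : (x :: y :: ρ).Nodup := hL.knot.nodup
  have hNn : ∀ z ∈ N, z ∉ L := by
    intro z hz
    simp only [hNdef, List.mem_cons, List.not_mem_nil, or_false] at hz
    rcases hz with rfl | rfl | rfl | rfl <;> assumption
  have hNpos : ∀ z ∈ N, 0 < z 1 := by
    intro z hz
    simp only [hNdef, List.mem_cons, List.not_mem_nil, or_false] at hz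
    rcases hz with rfl | rfl | rfl | rfl <;> assumption
  have hNnd : N.Nodup := by
    have a1 : x1 ≠ A := fun h => by rw [h, A2] at x1H; exact lt_irrefl _ x1H
    have a2 : x1 ≠ B := fun h => by rw [h, B2] at x1H; exact lt_irrefl _ x1H
    have a3 : A ≠ y1 := fun h => by rw [← h, A2] at y1H; exact lt_irrefl _ y1H
    have a4 : B ≠ y1 := fun h => by rw [← h, B2] at y1H; exact lt_irrefl _ y1H
    simp only [hNdef, List.nodup_cons, List.mem_cons, List.not_mem_nil, or_false, not_or,
      not_false_eq_true, List.nodup_nil, and_true]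
    exact ⟨⟨a1, a2, hxy1⟩, ⟨hAB, a3⟩, a4⟩
  have hnd : (x :: N ++ y :: ρ).Nodup := by
    rw [List.nodup_cons] at hnd0
    have hxN : x ∉ N := fun h => hNn x h (by simp [hLdef])
    rw [List.cons_append, List.nodup_cons, List.mem_append, not_or, List.nodup_append]
    refine ⟨⟨hxN, hnd0.1⟩, hNnd, hnd0.2, ?_⟩
    rintro a ha b hb rfl
    exact hNn a ha (List.mem_cons_of_mem _ hb)
  have hyN : 0 < x 1 ∨ x 1 = 0 := by
    rcases hoe.1.lt_or_eq with h | h
    · exact Or.inl h
    · exact Or.inr h.symm
  have hyy : 0 < y 1 ∨ y 1 = 0 := by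
    rcases hoe.2.lt_or_eq with h | h
    · exact Or.inl h
    · exact Or.inr h.symm
  -- the edges at `v`
  have hvg : ∀ h ∈ edges L, h ≠ (v, w) → h ≠ (g0, v) → v ∉ ends h := by
    intro h hh h1 h2 h3
    rcases h3 with h3 | h3
    · exact h1 (edges_eq_of_fst hL.knot.nodup hh hf h3.symm)
    · exact h2 (edges_eq_of_snd hL.knot.nodup hh hg (show h.2 = v from h3.symm))
  have heg : ((x, y) : R3 × R3) ≠ (g0, v) := by
    intro h
    have h1 : y = v := congrArg Prod.snd h
    refine Set.disjoint_left.1 hx.disjoint_ends (show y ∈ ends (x, y) from Or.inr rfl) ?_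
    rw [h1]; exact Or.inl rfl
  have hef : ((x, y) : R3 × R3) ≠ (v, w) := by
    intro h; rw [h] at hx; exact not_XR_self _ hx
  have hfg : ((g0, v) : R3 × R3) ≠ (v, w) := by
    intro h
    have h1 : g0 = v := congrArg Prod.fst h
    exact outer_ne hL hg hog h1
  -- the middle edge and the parts of `e`
  have hABe : Disjoint (pseg (A, B)) (pseg (x, y)) := hdis (x, y) he hoe hef heg
  have h13 : NC (x, x1) (A, B) := by
    apply NC.symm
    apply NC_of_disjoint
    exact hABe.mono_right (Set.image_mono (seg_first_part (e := (x, y)) hleg.h1.le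
      (by linarith [hleg.h2])))
  have h35 : NC (A, B) (y1, y) := by
    apply NC_of_disjoint
    exact hABe.mono_right (Set.image_mono (seg_last_part (e := (x, y))
      (by linarith [hleg.h1]) hleg.h2.le))
  have q12 : NC (x, x1) (x1, A) := hleg.nc_E1_E2
  have q14 : NC (x, x1) (B, y1) := hleg.nc_E1_E4
  have q15 : NC (x, x1) (y1, y) := hleg.nc_E1_E5
  have q24 : NC (x1, A) (B, y1) := hleg.nc_E2_E4
  have q25 : NC (x1, A) (y1, y) := hleg.nc_E2_E5
  have q45 : NC (B, y1) (y1, y) := hleg.nc_E4_E5
  have hnew : ∀ e' ∈ pathEdges (x :: N ++ [y]), (e' = (x, x1) ∨ e' = (x1, A) ∨ e' = (A, B) ∨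
      e' = (B, y1) ∨ e' = (y1, y)) := by
    intro e' he'
    rw [hNP] at he'
    simpa only [List.mem_cons, List.not_mem_nil, or_false] using he'
  have hnn : ∀ e' ∈ pathEdges (x :: N ++ [y]), ∀ f' ∈ pathEdges (x :: N ++ [y]),
      e' ≠ f' → NC e' f' := by
    intro e' he' f' hf' hne
    rcases hnew e' he' with rfl | rfl | rfl | rfl | rfl <;>
      rcases hnew f' hf' with rfl | rfl | rfl | rfl | rfl <;>
      first
      | exact absurd rfl hne
      | assumption
      | exact NC.symm (by assumption)
  have hE0 : edges L = (x, y) :: pathEdges (y :: ρ ++ [x]) := edges_cons_cons _ _ _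
  have mO : ∀ e ∈ pathEdges (y :: ρ ++ [x]), e ∈ edges L := by
    intro e he; rw [hE0]; exact List.mem_cons_of_mem _ he
  have hndE := nodup_edges hL.knot.nodup
  rw [hE0, List.nodup_cons] at hndE
  have heO : ∀ h ∈ pathEdges (y :: ρ ++ [x]), h ≠ (x, y) := by
    rintro h hh rfl; exact hndE.1 hh
  have hfO : (v, w) ∈ pathEdges (y :: ρ ++ [x]) := by
    rw [hE0, List.mem_cons] at hf
    rcases hf with h | h
    · exact absurd h.symm hef
    · exact h
  have hgO : (g0, v) ∈ pathEdges (y :: ρ ++ [x]) := by
    rw [hE0, List.mem_cons] at hg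
    rcases hg with h | h
    · exact absurd h.symm heg
    · exact h
  -- new edges against old ones
  have hno : ∀ e' ∈ pathEdges (x :: N ++ [y]), ∀ h ∈ pathEdges (y :: ρ ++ [x]), OuterE h →
      NC e' h ∨ (e' = (A, B) ∧ h = (g0, v)) := by
    intro e' he' h hh hoh
    have hh' := mO h hh
    have hhe := heO h hh
    by_cases hhf : h = (v, w)
    · subst hhf
      left
      rcases hnew e' he' with rfl | rfl | rfl | rfl | rfl
      · exact hleg.nc_E1_f
      · exact hleg.nc_E2_f
      · exact hncf
      · exact hleg.nc_E4_f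
      · exact hleg.nc_E5_f
    · by_cases hhg : h = (g0, v)
      · subst hhg
        rcases hnew e' he' with rfl | rfl | rfl | rfl | rfl
        · exact Or.inl (hleg.nc_E1_g hL he hf hoe hof hx hh' hoh hhe hhf)
        · exact Or.inl hE2g
        · exact Or.inr ⟨rfl, rfl⟩
        · exact Or.inl hE4g
        · exact Or.inl (hleg.nc_E5_g hL he hf hoe hof hx hh' hoh hhe hhf)
      · have hvh := hvg h hh' hhf hhg
        left
        rcases hnew e' he' with rfl | rfl | rfl | rfl | rfl
        · exact hleg.nc_E1_g hL he hf hoe hof hx hh' hoh hhe hhf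
        · exact hleg.nc_E2_g hh' hoh hhe hhf hvh
        · exact NC_of_disjoint (hdis h hh' hoh hhf hhg)
        · exact hleg.nc_E4_g hh' hoh hhe hhf hvh
        · exact hleg.nc_E5_g hL he hf hoe hof hx hh' hoh hhe hhf
  have hnox : ∀ e' ∈ pathEdges (x :: N ++ [y]), ∀ h ∈ pathEdges (y :: ρ ++ [x]), OuterE h →
      XR e' h → e' = (A, B) ∧ h = (g0, v) := by
    intro e' he' h hh hoh hxx
    rcases hno e' he' h hh hoh with k | k
    · exact absurd hxx k.not_XR
    · exact k
  have hnnx : ∀ e' ∈ pathEdges (x :: N ++ [y]), ∀ f' ∈ pathEdges (x :: N ++ [y]),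
      ¬ XR e' f' := by
    intro e' he' f' hf' hxx
    by_cases hne : e' = f'
    · subst hne; exact not_XR_self _ hxx
    · exact (hnn e' he' f' hf' hne).not_XR hxx
  have hgH : ∀ q ∈ seg (g0, v), q 2 < H := fun q hq =>
    height_lt (e := (g0, v)) (hH g0 (mem_of_mem_edges hg).1) (hH v (mem_of_mem_edges hg).2) hq
  have hABH : ∀ p ∈ seg (A, B), p 2 = H := fun p hp => height_eq A2 B2 hp
  have hEABin : (A, B) ∈ pathEdges (x :: N ++ [y]) := by rw [hNP]; simp
  have hpre : PreState (x :: N ++ y :: ρ) := by
    apply preState_replace (M := []) hL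
    · simp [hNdef]
    · exact hNnd
    · exact hNn
    · intro z hz h0
      exact absurd h0 (hNpos z hz).ne'
    · intro e' he'
      rcases hnew e' he' with rfl | rfl | rfl | rfl | rfl
      · rcases hyN with h | h
        · exact Or.inl ⟨h, x1p⟩
        · exact Or.inr (Or.inr (Or.inl ⟨h, x1p⟩))
      · exact Or.inl ⟨x1p, A1⟩
      · exact Or.inl ⟨A1, B1⟩
      · exact Or.inl ⟨B1, y1p⟩
      · rcases hyy with h | h
        · exact Or.inl ⟨y1p, h⟩
        · exact Or.inr (Or.inl ⟨y1p, h⟩)
    · intro p hp hp1
      exact absurd (hNpos p hp) (not_lt.2 hp1.le)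
    · intro e' he' f' hf' _
      refine bind_detour hL hoe hnd ?_ e' he' f' hf'
      intro a ha b hb hab' h0 _
      have h1 : a.2 ∈ N ++ [y] := snd_mem_of_mem_pathEdges (by simpa using ha)
      have h2 : b.1 ∈ x :: N := fst_mem_of_mem_pathEdges hb
      rw [hab'] at h0 h1
      have h3 : b.1 ∈ N := by
        rcases List.mem_cons.1 h2 with h | h
        · exfalso
          rw [h] at h1
          rcases List.mem_append.1 h1 with h' | h'
          · exact hNn x h' (by simp [hLdef])
          · rw [List.mem_singleton] at h'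
            rw [h'] at hnd0; simp at hnd0
        · exact h
      exact (hNpos _ h3).ne' h0
    · intro e' he' _
      have hfl := hL.flat _ he hoe
      rcases hnew e' he' with rfl | rfl | rfl | rfl | rfl
      · intro h
        have := flat_inj hfl (left_mem_seg (x, y)) (pt_mem_seg hleg.h1.le
          (by linarith [hleg.h2])) h
        exact x1n (by rw [← hx1] at this; rw [← this]; simp [hLdef])
      · intro h
        have h1 := hleg.sX
        have h2 := hE23
        have := h2 x1 (left_mem_seg (x1, A)) A (left_mem_seg (A, B)) h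
        rw [this.1, A2] at x1H
        exact lt_irrefl _ x1H
      · intro h
        have h1 := hxr.1
        rw [show side (A, B) = fun p => cross2 (proj B - proj A) (proj p - proj A) from rfl] at h1
        have h' : proj A = proj B := h
        simp [h', cross2] at h1
      · intro h
        have := hE34 B (right_mem_seg (A, B)) y1 (right_mem_seg (B, y1)) h
        rw [← this.1, B2] at y1H
        exact lt_irrefl _ y1H
      · intro h
        have := flat_inj hfl (pt_mem_seg (by linarith [hleg.h1]) hleg.h2.le)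
          (right_mem_seg (x, y)) h
        exact y1n (by rw [← hy1] at this; rw [this]; simp [hLdef])
    · intro e' he' f' hf' _ _ hne
      exact hnn e' he' f' hf' hne
    · intro e' he' h hh hoe' hoh
      rcases hno e' he' h hh hoh with k | ⟨k1, k2⟩
      · exact Or.inl k
      · subst k1 k2
        refine Or.inr ⟨hxr, ?_, ?_, ?_, ?_⟩
        · rw [Set.disjoint_left]
          intro p hp hp'
          have h1 := hABH p hp
          have h2 := hgH p hp'
          rw [h1] at h2
          exact lt_irrefl _ h2
        · intro h' hh' hoh'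
          exact hfree h' (mO h' hh') hoh'
        · intro e'' he'' _ hxx
          exact (hnox e'' he'' _ hh hoh hxx.symm).1
        · intro h' hh' hoh' hxx
          exact (hnox _ he' h' hh' hoh' hxx).2
  have hS' := hpre.state
  have hEn : edges (x :: N ++ y :: ρ) = pathEdges (x :: N ++ [y]) ++ pathEdges (y :: ρ ++ [x]) :=
    edges_two_paths _ _ _ _
  have hIn : nIn (x :: N ++ y :: ρ) = nIn (x :: y :: ρ) := by
    unfold nIn
    have e1 : x :: y :: ρ = [x] ++ (y :: ρ) := rfl
    have e2 : x :: N ++ y :: ρ = [x] ++ (N ++ (y :: ρ)) := by simp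
    rw [e2, e1, List.filter_append, List.filter_append, List.filter_append, List.length_append,
      List.length_append, List.length_append]
    have : (N.filter fun p => decide (p 1 < 0)).length = 0 :=
      filter_length_zero _ _ (fun z hz => not_lt.2 (hNpos z hz).le)
    omega
  refine ⟨N, hS', ?_, ?_, ?_, ?_, ?_, ?_⟩
  · -- isotopy
    obtain ⟨k1, j1⟩ := subdivide_two (e := (x, y)) (ρ := ρ) hL.knot (s := θ - ε) (t := θ + ε)
      hleg.h1 (by linarith) hleg.h2
    have hrot : x :: N ++ y :: ρ = [x] ++ (x1 :: [A, B] ++ y1 :: (y :: ρ)) := by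
      simp [hNdef]
    have hrot' : (x1 :: [A, B] ++ y1 :: (y :: ρ)) ++ [x] =
        x1 :: [A, B] ++ y1 :: (y :: ρ ++ [x]) := by simp
    have hSt : State (x1 :: [A, B] ++ y1 :: (y :: ρ ++ [x])) := by
      rw [← hrot']
      apply state_append_comm
      rw [← hrot]; exact hS'
    have j2 : Isotopic (x1 :: [] ++ y1 :: (y :: ρ ++ [x]))
        (x1 :: [A, B] ++ y1 :: (y :: ρ ++ [x])) := by
      apply over_replace _ _ _ _ _ k1 hSt.knot
      · exact overArc_middle (e := (x, y)) hL hoe hf hof hx hover hleg.h1 (by linarith) hleg.h2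
      · have hsubn : ∀ a ∈ pathEdges (x1 :: [A, B] ++ [y1]), a ∈ pathEdges (x :: N ++ [y]) := by
          intro a ha
          rw [hNP]
          have : pathEdges (x1 :: [A, B] ++ [y1]) = [(x1, A), (A, B), (B, y1)] := rfl
          rw [this] at ha
          simp only [List.mem_cons, List.not_mem_nil, or_false] at ha
          rcases ha with rfl | rfl | rfl <;> simp
        have hsubp : ∀ z ∈ x1 :: [A, B] ++ [y1], 0 < z 1 := by
          intro z hz
          apply hNpos z
          simpa [hNdef] using hz
        have hmem : ∀ b ∈ pathEdges (y1 :: (y :: ρ ++ [x]) ++ [x1]),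
            b ∈ pathEdges (x :: N ++ [y]) ∨ b ∈ pathEdges (y :: ρ ++ [x]) := by
          intro b hb
          rw [show y1 :: (y :: ρ ++ [x]) ++ [x1] = y1 :: y :: (ρ ++ x :: [x1]) by simp,
            pathEdges_cons_cons, List.mem_cons,
            show y :: (ρ ++ x :: [x1]) = (y :: ρ) ++ x :: [x1] by simp,
            pathEdges_append, List.mem_append] at hb
          rw [hNP]
          rcases hb with rfl | hb | hb
          · left; simp
          · right; exact hb
          · left
            simp only [pathEdges_cons_cons, pathEdges_single, List.mem_singleton] at hb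
            rw [hb]; simp
        apply overArc_of hSt
        · intro a ha b hb _ _
          exact hnnx a (hsubn a ha) b (hsubn b hb)
        · intro a ha b hb _ hob hab'
          rcases hmem b hb with hb' | hb'
          · exact absurd hab' (hnnx a (hsubn a ha) b hb')
          · obtain ⟨r1, r2⟩ := hnox a (hsubn a ha) b hb' hob hab'
            subst r1 r2
            intro p hp q hq _
            left
            rw [hABH p hp]
            exact hgH q hq
        · intro a ha b _ ha1
          exact absurd (hsubp a ha) (not_lt.2 ha1.le)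
        · intro a ha b _ ha1
          exact absurd (hsubp a ha) (not_lt.2 ha1.le)
    have j3 : Isotopic (x1 :: [A, B] ++ y1 :: (y :: ρ ++ [x])) (x :: N ++ y :: ρ) := by
      rw [← hrot', hrot]
      exact isotopic_append_comm _ _
    exact (j1.trans j2).trans j3
  · refine ⟨(A, B), ?_, ⟨A1.le, B1.le⟩, hxr.symm⟩
    rw [hEn]; exact List.mem_append_left _ hEABin
  · -- crossings
    have hXf : ∀ b ∈ edges L, OuterE b → XR (v, w) b → b = (x, y) := by
      intro b hb hob hb'
      exact hL.single (v, w) hf b hb (x, y) he hof hob hoe hb' hx.symm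
    have hndN : (pathEdges (x :: N ++ [y])).Nodup := by
      have := nodup_edges hnd
      rw [hEn, List.nodup_append] at this
      exact this.1
    have c1 : ((pathEdges (x :: N ++ [y])).filter fun a => decide (OuterE a ∧
        ∃ b ∈ edges (x :: N ++ y :: ρ), OuterE b ∧ XR a b)).length ≤ 1 := by
      refine @filter_length_le_one _ _ hndN _ _ (A, B) ?_
      rintro a ha ⟨hoa, b, hb, hob, hab'⟩
      rw [hEn, List.mem_append] at hb
      rcases hb with hb | hb
      · exact absurd hab' (hnnx a ha b hb)
      · exact (hnox a ha b hb hob hab').1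
    have c2 : ((pathEdges (y :: ρ ++ [x])).filter fun a => decide (OuterE a ∧
        ∃ b ∈ edges (x :: N ++ y :: ρ), OuterE b ∧ XR a b)).length ≤
        ((pathEdges (y :: ρ ++ [x])).filter fun a => decide ((OuterE a ∧
        ∃ b ∈ edges L, OuterE b ∧ XR a b) ∧ a ≠ (v, w))).length +
        ((pathEdges (y :: ρ ++ [x])).filter fun a => decide (a = (g0, v))).length := by
      apply filter_length_le_add
      rintro a ha ⟨hoa, b, hb, hob, hab'⟩
      rw [hEn, List.mem_append] at hb
      rcases hb with hb | hb
      · exact Or.inr (hnox b hb a ha hoa hab'.symm).2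
      · left
        refine ⟨⟨hoa, b, mO b hb, hob, hab'⟩, ?_⟩
        rintro rfl
        exact heO b hb (hXf b (mO b hb) hob hab')
    have c3 : ((pathEdges (y :: ρ ++ [x])).filter fun a => decide (a = (g0, v))).length ≤ 1 :=
      @filter_length_le_one _ _ hndE.2 _ _ (g0, v) (fun _ _ h => h)
    have c4 : ((pathEdges (y :: ρ ++ [x])).filter fun a => decide ((OuterE a ∧
        ∃ b ∈ edges L, OuterE b ∧ XR a b) ∧ a ≠ (v, w))).length + 1 ≤
        ((pathEdges (y :: ρ ++ [x])).filter fun a => decide (OuterE a ∧
        ∃ b ∈ edges L, OuterE b ∧ XR a b)).length := by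
      refine @filter_length_lt_of_imp _ _ _ _ _ _ ?_ (v, w) hfO ?_ ?_
      · rintro a ha ⟨h1, _⟩
        exact h1
      · exact ⟨hof, (x, y), he, hoe, hx.symm⟩
      · rintro ⟨_, h1⟩
        exact h1 rfl
    have c5 : ((edges L).filter fun a => decide (OuterE a ∧
        ∃ b ∈ edges L, OuterE b ∧ XR a b)).length =
        ((pathEdges (y :: ρ ++ [x])).filter fun a => decide (OuterE a ∧
        ∃ b ∈ edges L, OuterE b ∧ XR a b)).length + 1 := by
      have : decide (OuterE (x, y) ∧ ∃ b ∈ edges L, OuterE b ∧ XR (x, y) b) = true :=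
        decide_eq_true ⟨hoe, (v, w), hf, hof, hx⟩
      exact length_filter_cons hE0 this
    have c6 : ((edges (x :: N ++ y :: ρ)).filter fun a => decide (OuterE a ∧
        ∃ b ∈ edges (x :: N ++ y :: ρ), OuterE b ∧ XR a b)).length =
        ((pathEdges (x :: N ++ [y])).filter fun a => decide (OuterE a ∧
        ∃ b ∈ edges (x :: N ++ y :: ρ), OuterE b ∧ XR a b)).length +
        ((pathEdges (y :: ρ ++ [x])).filter fun a => decide (OuterE a ∧
        ∃ b ∈ edges (x :: N ++ y :: ρ), OuterE b ∧ XR a b)).length :=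
      length_filter_append hEn _
    unfold nX
    rw [c6, c5]
    omega
  · unfold nOut
    rw [hEn, hE0, List.filter_append, List.length_append, hNP]
    have hcase : (x 1 = 0 → 0 < y 1) := by
      intro h0
      rcases te with h | h | h | h | h <;> simp only at h
      · exact h.2
      · linarith [h.1]
      · exact h.2
      · linarith [h.1]
      · linarith [hoe.2, h.2]
    rcases hyN with h | h
    · have h' : x 1 ≠ 0 := h.ne'
      simp [h', A1.ne', B1.ne', x1p.ne', y1p.ne']
    · have := hcase h
      simp [h, A1.ne', B1.ne', x1p, x1p.ne', y1p.ne', this]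
      omega
  · exact hIn.le
  · exact hIn.ge

end Pool.Agent.LinKnot
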