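import Pool.Agent.Lib.MP_188a32_co.Moves

/-!
# Task F3: states in the lower half are arc presentations
-/

set_option autoImplicit false

namespace Pool.Agent.LinKnot

open scoped Classical

namespace StateToPos

/-- sorting a finite set by an injective key -/
lemma exists_rank (S : Finset R3) (κ : R3 → ℝ) (hκ : Set.InjOn κ S) :
    ∃ (a : ℕ → R3) (r : R3 → ℕ), (∀ x ∈ S, r x < S.card ∧ a (r x) = x) ∧
      (∀ i < S.card, a i ∈ S) ∧ ∀ i j, i < j → j < S.card → κ (a i) < κ (a j) := by
  have hc : (S.image κ).card = S.card := Finset.card_image_of_injOn hκ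
  let f := (S.image κ).orderIsoOfFin hc
  have h1 : ∀ y ∈ S.image κ, ∃ x ∈ S, κ x = y := fun y hy => Finset.mem_image.1 hy
  choose g hg1 hg2 using h1
  let a : ℕ → R3 := fun i => if h : i < S.card then g (f ⟨i, h⟩).1 (f ⟨i, h⟩).2 else 0
  have ha : ∀ i (h : i < S.card), a i = g (f ⟨i, h⟩).1 (f ⟨i, h⟩).2 := fun i h => dif_pos h
  let r : R3 → ℕ := fun x => if h : x ∈ S then (f.symm ⟨κ x, Finset.mem_image_of_mem κ h⟩).1 else 0
  have hr : ∀ x (h : x ∈ S), r x = (f.symm ⟨κ x, Finset.mem_image_of_mem κ h⟩).1 :=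
    fun x h => dif_pos h
  refine ⟨a, r, fun x hx => ⟨?_, ?_⟩, fun i hi => ?_, fun i j hij hj => ?_⟩
  · rw [hr x hx]; exact Fin.is_lt _
  · have h2 : r x < S.card := by rw [hr x hx]; exact Fin.is_lt _
    rw [ha _ h2]
    apply hκ (hg1 _ _) hx
    rw [hg2]
    have h3 : (⟨r x, h2⟩ : Fin S.card) = f.symm ⟨κ x, Finset.mem_image_of_mem κ hx⟩ := by
      apply Fin.ext
      exact hr x hx
    rw [h3, OrderIso.apply_symm_apply]
  · rw [ha i hi]; exact hg1 _ _
  · rw [ha i (hij.trans hj), ha j hj, hg2, hg2]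
    exact f.strictMono (show (⟨i, hij.trans hj⟩ : Fin S.card) < ⟨j, hj⟩ from hij)

def Alt (e : R3 × R3) : Prop := (e.1 1 < 0 ∧ e.2 1 = 0) ∨ (e.1 1 = 0 ∧ e.2 1 < 0)

def fl (c : List (R3 × R3)) : List R3 := c.flatMap fun q => [q.1, q.2]

lemma alt_pairs : ∀ (n : ℕ) (l : List R3) (z : R3), l.length ≤ n → z 1 = 0 →
    (∀ e ∈ pathEdges (l ++ [z]), Alt e) → (∀ x ∈ l.head?, x 1 = 0) →
    ∃ c : List (R3 × R3), l = fl c ∧ ∀ q ∈ c, q.1 1 = 0 ∧ q.2 1 < 0 := by
  intro n
  induction n with
  | zero =>
    intro l z hl hz _ _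
    have : l = [] := List.length_eq_zero_iff.1 (by omega)
    subst this
    exact ⟨[], rfl, by simp⟩
  | succ n ih =>
    intro l z hl hz he hx
    match l, hl, he, hx with
    | [], _, _, _ => exact ⟨[], rfl, by simp⟩
    | [x], _, he, hx =>
      exfalso
      have h1 : x 1 = 0 := hx x (by simp)
      have h2 := he (x, z) (by simp)
      rcases h2 with h2 | h2
      · simp only at h2; linarith [h2.1]
      · simp only at h2; linarith [h2.2]
    | x :: y :: t, hl, he, hx =>
      have h1 : x 1 = 0 := hx x (by simp)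
      have h2 := he (x, y) (by simp)
      have hy : y 1 < 0 := by
        rcases h2 with h2 | h2
        · simp only at h2; linarith [h2.1]
        · exact h2.2
      have ht : ∀ w ∈ t.head?, w 1 = 0 := by
        intro w hw
        cases t with
        | nil => simp at hw
        | cons w' t' =>
          simp only [List.head?_cons, Option.mem_def, Option.some.injEq] at hw
          subst hw
          have h3 := he (y, w') (by simp)
          rcases h3 with h3 | h3
          · exact h3.2
          · simp only at h3; linarith [h3.1]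
      obtain ⟨c, hc1, hc2⟩ := ih t z (by simp at hl; omega) hz (by
        intro e hte
        apply he
        cases t with
        | nil => simp at hte
        | cons w t' =>
          simp only [List.cons_append, pathEdges_cons_cons, List.mem_cons] at hte ⊢
          tauto) ht
      refine ⟨(x, y) :: c, ?_, ?_⟩
      · rw [hc1]; simp [fl]
      · intro q hq
        rcases List.mem_cons.1 hq with rfl | hq
        · exact ⟨h1, hy⟩
        · exact hc2 q hq

lemma length_fl (c : List (R3 × R3)) : (fl c).length = 2 * c.length := by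
  induction c with
  | nil => rfl
  | cons q c ih =>
    simp only [fl, List.flatMap_cons, List.length_append, List.length_cons, List.length_nil] at ih ⊢
    omega

lemma sub1 (c : List (R3 × R3)) : (c.map Prod.fst).Sublist (fl c) := by
  induction c with
  | nil => exact List.Sublist.refl _
  | cons q c ih =>
    simp only [fl, List.flatMap_cons, List.map_cons, List.cons_append, List.nil_append] at ih ⊢
    exact (ih.cons _).cons_cons _

lemma sub2 (c : List (R3 × R3)) : (c.map Prod.snd).Sublist (fl c) := by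
  induction c with
  | nil => exact List.Sublist.refl _
  | cons q c ih =>
    simp only [fl, List.flatMap_cons, List.map_cons, List.cons_append, List.nil_append] at ih ⊢
    exact (ih.cons_cons _).cons _

lemma nIn_fl (c : List (R3 × R3)) (hc : ∀ q ∈ c, q.1 1 = 0 ∧ q.2 1 < 0) : nIn (fl c) = c.length := by
  induction c with
  | nil => simp [nIn, fl]
  | cons q c ih =>
    have ih' := ih (fun q' hq' => hc q' (List.mem_cons_of_mem _ hq'))
    obtain ⟨h1, h2⟩ := hc q (by simp)
    simp only [nIn, fl, List.flatMap_cons, List.cons_append, List.nil_append] at ih' ⊢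
    rw [List.filter_cons_of_neg (by simp [h1]), List.filter_cons_of_pos (by simpa using h2),
      List.length_cons, List.length_cons, ih']

lemma axis_first {l : List R3} (hk : IsKnot l) (halt : ∀ e ∈ edges l, Alt e)
    (hax : ∀ p ∈ l, p 1 = 0 → p 2 = 0)
    (hpg : ∀ p ∈ l, ∀ q ∈ l, p ≠ q → p 1 < 0 → q 1 < 0 → p 2 * q 1 ≠ q 2 * p 1)
    (hfst : ∀ x ∈ l.head?, x 1 = 0) :
    ∃ (m : ℕ) (a b : ℕ → R3) (c : List (ℕ × ℕ)), m = nIn l ∧ Pos m a b ∧ ValidCode m c ∧
      l = zig a b c := by
  obtain ⟨c, hc1, hc2⟩ : ∃ c : List (R3 × R3), l = fl c ∧ ∀ q ∈ c, q.1 1 = 0 ∧ q.2 1 < 0 := by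
    match l, hk, halt, hfst with
    | [], hk, _, _ => exact absurd hk.length (by simp)
    | x :: t, hk, halt, hfst =>
      apply alt_pairs (x :: t).length (x :: t) x le_rfl (hfst x (by simp)) _ hfst
      intro e he
      apply halt
      rw [edges_cons]
      exact he
  have hnd := hk.nodup
  have hn1 : (c.map Prod.fst).Nodup := (hc1 ▸ hnd).sublist (sub1 c)
  have hn2 : (c.map Prod.snd).Nodup := (hc1 ▸ hnd).sublist (sub2 c)
  have hm1 : ∀ p ∈ c.map Prod.fst, p ∈ l ∧ p 1 = 0 := by
    intro p hp
    refine ⟨hc1 ▸ (sub1 c).subset hp, ?_⟩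
    obtain ⟨q, hq, rfl⟩ := List.mem_map.1 hp
    exact (hc2 q hq).1
  have hm2 : ∀ p ∈ c.map Prod.snd, p ∈ l ∧ p 1 < 0 := by
    intro p hp
    refine ⟨hc1 ▸ (sub2 c).subset hp, ?_⟩
    obtain ⟨q, hq, rfl⟩ := List.mem_map.1 hp
    exact (hc2 q hq).2
  set A := (c.map Prod.fst).toFinset with hA
  set B := (c.map Prod.snd).toFinset with hB
  have hAc : A.card = c.length := by
    rw [hA, List.toFinset_card_of_nodup hn1, List.length_map]
  have hBc : B.card = c.length := by
    rw [hB, List.toFinset_card_of_nodup hn2, List.length_map]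
  have hAm : ∀ p ∈ A, p ∈ l ∧ p 1 = 0 := fun p hp => hm1 p (List.mem_toFinset.1 hp)
  have hBm : ∀ p ∈ B, p ∈ l ∧ p 1 < 0 := fun p hp => hm2 p (List.mem_toFinset.1 hp)
  obtain ⟨a, ra, ha1, ha2, ha3⟩ := exists_rank A (fun p => p 0) (by
    intro p hp q hq hpq
    have h1 := hAm p hp
    have h2 := hAm q hq
    have h3 := hax p h1.1 h1.2
    have h4 := hax q h2.1 h2.2
    simp only at hpq
    funext i
    fin_cases i
    · exact hpq
    · exact h1.2.trans h2.2.symm
    · exact h3.trans h4.symm)
  obtain ⟨b, rb, hb1, hb2, hb3⟩ := exists_rank B (fun p => p 2 / p 1) (by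
    intro p hp q hq hpq
    have h1 := hBm p hp
    have h2 := hBm q hq
    by_contra hne
    apply hpg p h1.1 q h2.1 hne h1.2 h2.2
    simp only at hpq
    rwa [div_eq_div_iff h1.2.ne h2.2.ne] at hpq)
  rw [hAc] at ha1 ha2 ha3
  rw [hBc] at hb1 hb2 hb3
  refine ⟨c.length, a, b, c.map (fun q => (ra q.1, rb q.2)), ?_, ?_, ?_, ?_⟩
  · rw [hc1, nIn_fl c hc2]
  · intro i j k l' hij hj hkl hl
    have h1 := hAm _ (ha2 i (hij.trans hj))
    have h2 := hAm _ (ha2 j hj)
    have h3 := hBm _ (hb2 k (hkl.trans hl))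
    have h4 := hBm _ (hb2 l' hl)
    have h5 := ha3 i j hij hj
    have h6 := hb3 k l' hkl hl
    have h7 := hax _ h1.1 h1.2
    have h8 := hax _ h2.1 h2.2
    have e : orient (a i) (a j) (b k) (b l') =
        (a j 0 - a i 0) * (b k 1 * b l' 2 - b k 2 * b l' 1) := by
      unfold orient
      rw [h1.2, h2.2, h7, h8]
      ring
    rw [e]
    apply mul_pos (by linarith)
    have h9 : b k 1 * b l' 2 - b k 2 * b l' 1 =
        (b k 1 * b l' 1) * (b l' 2 / b l' 1 - b k 2 / b k 1) := by
      have := h3.2.ne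
      have := h4.2.ne
      field_simp
    rw [h9]
    exact mul_pos (mul_pos_of_neg_of_neg h3.2 h4.2) (by linarith)
  · refine ⟨?_, ?_, ?_, ?_⟩
    · rw [List.length_map]
      have h1 := hk.length
      rw [hc1, length_fl] at h1
      omega
    · rw [List.map_map]
      have : (Prod.fst ∘ fun q : R3 × R3 => (ra q.1, rb q.2)) = ra ∘ Prod.fst := rfl
      rw [this, ← List.map_map]
      apply List.Nodup.map_on _ hn1
      intro p hp q hq hpq
      rw [← (ha1 p (List.mem_toFinset.2 hp)).2, hpq, (ha1 q (List.mem_toFinset.2 hq)).2]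
    · rw [List.map_map]
      have : (Prod.snd ∘ fun q : R3 × R3 => (ra q.1, rb q.2)) = rb ∘ Prod.snd := rfl
      rw [this, ← List.map_map]
      apply List.Nodup.map_on _ hn2
      intro p hp q hq hpq
      rw [← (hb1 p (List.mem_toFinset.2 hp)).2, hpq, (hb1 q (List.mem_toFinset.2 hq)).2]
    · intro x hx
      obtain ⟨q, hq, rfl⟩ := List.mem_map.1 hx
      exact ⟨(ha1 q.1 (List.mem_toFinset.2 (List.mem_map_of_mem hq))).1,
        (hb1 q.2 (List.mem_toFinset.2 (List.mem_map_of_mem hq))).1⟩
  · rw [zig, List.flatMap_map, hc1, fl]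
    apply List.flatMap_congr
    intro q hq
    rw [(ha1 q.1 (List.mem_toFinset.2 (List.mem_map_of_mem hq))).2,
      (hb1 q.2 (List.mem_toFinset.2 (List.mem_map_of_mem hq))).2]

end StateToPos

open StateToPos

theorem state_to_pos {l : List R3} (h : State l) (hy : ∀ p ∈ l, p 1 ≤ 0) :
    ∃ (m : ℕ) (a b : ℕ → R3) (c : List (ℕ × ℕ)), m = nIn l ∧ Pos m a b ∧ ValidCode m c ∧
      Isotopic l (zig a b c) := by
  have halt : ∀ e ∈ edges l, Alt e := by
    intro e he
    obtain ⟨m1, m2⟩ := mem_of_mem_edges he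
    have y1 := hy _ m1
    have y2 := hy _ m2
    rcases h.types e he with h1 | h1 | h1 | h1 | h1
    · linarith [h1.1]
    · linarith [h1.1]
    · linarith [h1.2]
    · exact Or.inl h1
    · exact Or.inr h1
  match l, h, halt with
  | [], h, _ => exact absurd h.knot.length (by simp)
  | [x], h, _ => exact absurd h.knot.length (by simp)
  | x :: y :: t, h, halt =>
    by_cases hx : x 1 = 0
    · obtain ⟨m, a, b, c, h1, h2, h3, h4⟩ := axis_first h.knot halt h.axis h.pages
        (by intro z hz; simp only [List.head?_cons, Option.mem_def, Option.some.injEq] at hz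
            rw [← hz]; exact hx)
      exact ⟨m, a, b, c, h1, h2, h3, h4 ▸ Relation.EqvGen.refl _⟩
    · have hy1 : y 1 = 0 := by
        have := halt (x, y) (by rw [edges_cons_cons]; simp)
        rcases this with h1 | h1
        · exact h1.2
        · exact absurd h1.1 hx
      obtain ⟨m, a, b, c, h1, h2, h3, h4⟩ := axis_first (l := (x :: y :: t).rotate 1)
        (h.knot.rotate 1) (fun e he => halt e (mem_edges_rotate.1 he))
        (fun p hp => h.axis p (List.mem_rotate.1 hp))
        (fun p hp q hq => h.pages p (List.mem_rotate.1 hp) q (List.mem_rotate.1 hq))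
        (by intro z hz
            simp only [List.rotate_cons_succ, List.cons_append, List.rotate_zero, List.head?_cons,
              Option.mem_def, Option.some.injEq] at hz
            rw [← hz]; exact hy1)
      refine ⟨m, a, b, c, ?_, h2, h3, h4 ▸ Relation.EqvGen.rel _ _ (Step.rotate _)⟩
      rw [h1]
      unfold nIn
      exact (((x :: y :: t).rotate_perm 1).filter _).length_eq

end Pool.Agent.LinKnot
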