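import Pool.Agent.Lib.MP_188a32_co.ExistsState
import Pool.Agent.Lib.MP_188a32_co.StateToPos
import Pool.Agent.Lib.MP_188a32_co.Slide
import Pool.Agent.Lib.MP_188a32_co_helper11.Final
import Pool.Agent.Lib.MP_188a32_co_helper88.GenPos

/-!
# Closing argument
-/

set_option autoImplicit false

namespace Pool.Agent.LinKnot

/-- From arc presentations and homogeneous point sets to the theorem. -/
theorem main_forall
    (harc : ∀ {l : List R3} {k : ℕ}, IsDiagram l k →
      ∃ (m : ℕ) (a b : ℕ → R3) (c : List (ℕ × ℕ)), m ≤ 2 * k + 2 ∧ Pos m a b ∧ ValidCode m c ∧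
        Isotopic l (zig a b c)) :
    ∃ C d : ℕ, ∀ k : ℕ, 3 ≤ k → ∀ K : List R3, IsKnot K → CrossingNumber K k →
      ∀ n : ℕ, C * k ^ d ≤ n → ∀ p : Fin n → R3, IsLinearEmbedding p → Contains p K := by
  obtain ⟨C, d, hC⟩ := H11.exists_homogeneous
  refine ⟨C * 4 ^ d, d, fun k hk K hK ⟨⟨l, hl, hd⟩, _⟩ n hn p hp => ?_⟩
  have hn' : C * (2 * k + 2) ^ d ≤ n := by
    refine le_trans ?_ hn
    rw [mul_assoc, ← mul_pow]
    exact Nat.mul_le_mul_left _ (Nat.pow_le_pow_left (by omega) _)
  obtain ⟨q, hq, hiso⟩ := exists_general_position p hp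
  obtain ⟨m, a, b, c, hm, hpos, hc, hi⟩ := harc hd
  obtain ⟨a', b', hab⟩ := hC (2 * k + 2) _ (by omega) hn' q hq
  -- indices
  set α : ℕ → Fin n := fun i =>
    if h : i < 2 * k + 2 then a' ⟨i, h⟩ else a' ⟨0, by omega⟩ with hα
  set β : ℕ → Fin n := fun i =>
    if h : i < 2 * k + 2 then b' ⟨i, h⟩ else b' ⟨0, by omega⟩ with hβ
  have hPos : Pos m (fun i => q (α i)) (fun i => q (β i)) := by
    intro i j r s hij hj hrs hs
    simp only [hα, hβ]
    rw [dif_pos (by omega : i < 2 * k + 2), dif_pos (by omega : j < 2 * k + 2),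
      dif_pos (by omega : r < 2 * k + 2), dif_pos (by omega : s < 2 * k + 2)]
    exact hab _ _ _ _ hij hrs
  have hmap : ∀ (q : Fin n → R3) (c : List (ℕ × ℕ)),
      (c.flatMap fun x => [α x.1, β x.2]).map q = zig (fun i => q (α i)) (fun i => q (β i)) c := by
    intro q c
    unfold zig
    rw [List.map_flatMap]
    rfl
  have hkn := pos_isKnot hPos hc
  set c' := c.flatMap fun x => [α x.1, β x.2] with hc'
  have hnod : c'.Nodup := by
    apply List.Nodup.of_map q
    rw [hc', hmap]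
    exact hkn.nodup
  have hlen : 3 ≤ c'.length := by
    have := hkn.length
    rw [← hmap, List.length_map] at this
    exact this
  refine ⟨c', hlen, hnod, ?_⟩
  have h1 := hiso c' hlen hnod
  rw [hc', hmap q] at h1
  rw [hc']
  exact ((h1.trans (pos_isotopic hPos hpos hc)).trans hi.symm).trans hl

end Pool.Agent.LinKnot
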