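import Pool.Agent.Lib.MP_188a32_co.Basic

/-!
# Toolkit for vertex lists of polygonal knots
-/

set_option autoImplicit false

namespace Pool.Agent.LinKnot

open scoped Classical

/-! ### Edges of paths and closed polygons -/

@[simp] lemma pathEdges_nil : pathEdges [] = [] := rfl
@[simp] lemma pathEdges_single (a : R3) : pathEdges [a] = [] := rfl
@[simp] lemma pathEdges_cons_cons (a b : R3) (t : List R3) :
    pathEdges (a :: b :: t) = (a, b) :: pathEdges (b :: t) := rfl

lemma zip_append_left_of_le {α β : Type} : ∀ (l : List α) (r : List β) (a : List α),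
    r.length ≤ l.length → (l ++ a).zip r = l.zip r
  | _, [], _, _ => by simp
  | [], b :: r, a, h => by simp at h
  | x :: l, b :: r, a, h => by
    simp only [List.cons_append, List.zip_cons_cons]
    rw [zip_append_left_of_le l r a (by simpa using h)]

lemma edges_cons (x : R3) (t : List R3) : edges (x :: t) = pathEdges (x :: t ++ [x]) := by
  unfold edges pathEdges
  rw [show (x :: t).rotate 1 = t ++ [x] by simp]
  rw [show (x :: t ++ [x]).tail = t ++ [x] by simp]
  rw [show x :: t ++ [x] = (x :: t) ++ [x] by simp]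
  rw [zip_append_left_of_le (x :: t) (t ++ [x]) [x] (by simp)]

lemma pathEdges_append (s : List R3) (x : R3) (t : List R3) :
    pathEdges (s ++ x :: t) = pathEdges (s ++ [x]) ++ pathEdges (x :: t) := by
  induction s with
  | nil => simp
  | cons a s ih =>
    cases s with
    | nil => simp
    | cons b s =>
      simp only [List.cons_append, pathEdges_cons_cons] at ih ⊢
      rw [ih]

lemma edges_two_paths (x : R3) (σ : List R3) (y : R3) (τ : List R3) :
    edges (x :: σ ++ y :: τ) = pathEdges (x :: σ ++ [y]) ++ pathEdges (y :: τ ++ [x]) := by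
  rw [show x :: σ ++ y :: τ = x :: (σ ++ y :: τ) by simp, edges_cons]
  rw [show x :: (σ ++ y :: τ) ++ [x] = (x :: σ) ++ y :: (τ ++ [x]) by simp, pathEdges_append]
  simp

lemma edges_cons_cons (x y : R3) (t : List R3) :
    edges (x :: y :: t) = (x, y) :: pathEdges (y :: t ++ [x]) := by
  rw [edges_cons]; simp

lemma edges_cons_cons_tail (x y : R3) (t : List R3) :
    (edges (x :: y :: t)).tail = pathEdges (y :: t ++ [x]) := by
  rw [edges_cons_cons]; simp

lemma mem_of_mem_pathEdges {l : List R3} {e : R3 × R3} (h : e ∈ pathEdges l) :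
    e.1 ∈ l ∧ e.2 ∈ l := by
  unfold pathEdges at h
  have h' := List.of_mem_zip (a := e.1) (b := e.2) (by simpa using h)
  exact ⟨h'.1, List.mem_of_mem_tail h'.2⟩

lemma mem_of_mem_edges {l : List R3} {e : R3 × R3} (h : e ∈ edges l) : e.1 ∈ l ∧ e.2 ∈ l := by
  unfold edges at h
  have h' := List.of_mem_zip (a := e.1) (b := e.2) (by simpa using h)
  exact ⟨h'.1, by simpa using h'.2⟩

@[simp] lemma length_edges (l : List R3) : (edges l).length = l.length := by
  simp [edges]

lemma map_fst_edges (l : List R3) : (edges l).map Prod.fst = l := by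
  unfold edges
  rw [List.map_fst_zip (by simp)]

lemma map_snd_edges (l : List R3) : (edges l).map Prod.snd = l.rotate 1 := by
  unfold edges
  rw [List.map_snd_zip (by simp)]

lemma nodup_edges {l : List R3} (h : l.Nodup) : (edges l).Nodup := by
  apply List.Nodup.of_map Prod.fst
  rwa [map_fst_edges]

/-- Two edges with the same start are equal. -/
lemma edges_eq_of_fst {l : List R3} (h : l.Nodup) {e f : R3 × R3} (he : e ∈ edges l)
    (hf : f ∈ edges l) (h1 : e.1 = f.1) : e = f := by
  have := map_fst_edges l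
  exact List.inj_on_of_nodup_map (f := Prod.fst) (by rwa [this]) he hf h1

/-- Two edges with the same end are equal. -/
lemma edges_eq_of_snd {l : List R3} (h : l.Nodup) {e f : R3 × R3} (he : e ∈ edges l)
    (hf : f ∈ edges l) (h1 : e.2 = f.2) : e = f := by
  have := map_snd_edges l
  exact List.inj_on_of_nodup_map (f := Prod.snd) (by rw [this]; simpa using h) he hf h1

/-- The relation between two edges of a simple polygon. -/
def Good (e f : R3 × R3) : Prop := seg e ∩ seg f ⊆ ends e ∩ ends f

lemma Good.symm {e f : R3 × R3} (h : Good e f) : Good f e := by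
  unfold Good at *
  rw [Set.inter_comm, Set.inter_comm (ends f)]
  exact h

instance : Std.Symm Good := ⟨fun _ _ h => h.symm⟩

lemma isKnot_iff {l : List R3} : IsKnot l ↔ 3 ≤ l.length ∧ l.Nodup ∧
    ∀ e ∈ edges l, ∀ f ∈ edges l, e ≠ f → seg e ∩ seg f ⊆ ends e ∩ ends f := by
  unfold IsKnot
  constructor
  · rintro ⟨h1, h2, h3⟩
    refine ⟨h1, h2, fun e he f hf hne => ?_⟩
    have h3' : (edges l).Pairwise Good := h3
    exact h3'.forall he hf hne
  · rintro ⟨h1, h2, h3⟩
    refine ⟨h1, h2, ?_⟩
    have hn := nodup_edges h2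
    exact hn.pairwise_of_forall_ne (fun e he f hf hne => h3 e he f hf hne)

lemma IsKnot.nodup {l : List R3} (h : IsKnot l) : l.Nodup := h.2.1
lemma IsKnot.length {l : List R3} (h : IsKnot l) : 3 ≤ l.length := h.1
lemma IsKnot.good {l : List R3} (h : IsKnot l) {e f : R3 × R3} (he : e ∈ edges l)
    (hf : f ∈ edges l) (hne : e ≠ f) : seg e ∩ seg f ⊆ ends e ∩ ends f :=
  (isKnot_iff.1 h).2.2 e he f hf hne

/-! ### Rotation and reversal -/

lemma edges_rotate (l : List R3) (n : ℕ) : edges (l.rotate n) = (edges l).rotate n := by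
  unfold edges
  rw [List.zip_eq_zipWith, List.zip_eq_zipWith,
    List.zipWith_rotate_distrib _ _ _ _ (by simp)]
  rw [List.rotate_rotate, List.rotate_rotate, Nat.add_comm]

@[simp] lemma mem_edges_rotate {l : List R3} {n : ℕ} {e : R3 × R3} :
    e ∈ edges (l.rotate n) ↔ e ∈ edges l := by
  rw [edges_rotate, List.mem_rotate]

lemma IsKnot.rotate {l : List R3} (h : IsKnot l) (n : ℕ) : IsKnot (l.rotate n) := by
  rw [isKnot_iff] at h ⊢
  refine ⟨by simpa using h.1, by simpa using h.2.1, fun e he f hf => h.2.2 e (by simpa using he) f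
    (by simpa using hf)⟩

lemma mem_edges_append_comm (s t : List R3) (e : R3 × R3) :
    e ∈ edges (s ++ t) ↔ e ∈ edges (t ++ s) := by
  rw [← List.rotate_append_length_eq s t, mem_edges_rotate]

lemma isKnot_append_comm {s t : List R3} (h : IsKnot (s ++ t)) : IsKnot (t ++ s) := by
  rw [← List.rotate_append_length_eq s t]
  exact h.rotate _

lemma pathEdges_reverse (l : List R3) :
    pathEdges l.reverse = ((pathEdges l).map Prod.swap).reverse := by
  induction l with
  | nil => simp
  | cons a l ih =>
    cases l with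
    | nil => simp
    | cons b l =>
      simp only [pathEdges_cons_cons, List.map_cons, List.reverse_cons] at ih ⊢
      rw [← ih]
      rw [List.append_assoc, show [b] ++ [a] = b :: [a] from rfl, pathEdges_append]
      simp

lemma mem_edges_reverse {l : List R3} {e : R3 × R3} :
    e ∈ edges l.reverse ↔ e.swap ∈ edges l := by
  cases l with
  | nil => simp [edges]
  | cons x t =>
    rw [List.reverse_cons, mem_edges_append_comm, List.singleton_append, edges_cons,
      show x :: t.reverse ++ [x] = (x :: t ++ [x]).reverse by simp, pathEdges_reverse, edges_cons]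
    rw [List.mem_reverse, List.mem_map]
    constructor
    · rintro ⟨f, hf, rfl⟩
      simpa using hf
    · intro h
      exact ⟨e.swap, h, by simp⟩

@[simp] lemma seg_swap (e : R3 × R3) : seg e.swap = seg e := by
  unfold seg; rw [segment_symm]; rfl

@[simp] lemma ends_swap (e : R3 × R3) : ends e.swap = ends e := by
  unfold ends; simp [Set.pair_comm]

lemma IsKnot.reverse {l : List R3} (h : IsKnot l) : IsKnot l.reverse := by
  rw [isKnot_iff] at h ⊢
  refine ⟨by simpa using h.1, by simpa using h.2.1, fun e he f hf hne => ?_⟩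
  rw [mem_edges_reverse] at he hf
  have := h.2.2 _ he _ hf (fun h => hne (Prod.swap_injective h))
  simpa using this

/-! ### Isotopy -/

lemma Isotopic.refl (l : List R3) : Isotopic l l := Relation.EqvGen.refl l
lemma Isotopic.symm {l l' : List R3} (h : Isotopic l l') : Isotopic l' l :=
  Relation.EqvGen.symm _ _ h
lemma Isotopic.trans {l l' l'' : List R3} (h : Isotopic l l') (h' : Isotopic l' l'') :
    Isotopic l l'' := Relation.EqvGen.trans _ _ _ h h'

lemma isotopic_rotate (l : List R3) (n : ℕ) : Isotopic l (l.rotate n) := by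
  induction n with
  | zero => simpa using Isotopic.refl l
  | succ n ih =>
    refine ih.trans ?_
    rw [show n + 1 = n + 1 from rfl, ← List.rotate_rotate]
    exact Relation.EqvGen.rel _ _ (Step.rotate _)

lemma isotopic_append_comm (s t : List R3) : Isotopic (s ++ t) (t ++ s) := by
  rw [← List.rotate_append_length_eq s t]
  exact isotopic_rotate _ _

lemma isotopic_reverse (l : List R3) : Isotopic l l.reverse :=
  Relation.EqvGen.rel _ _ (Step.reverse _)

/-! ### Vertices and edges of a knot -/

lemma left_mem_seg (e : R3 × R3) : e.1 ∈ seg e := left_mem_segment ℝ _ _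
lemma right_mem_seg (e : R3 × R3) : e.2 ∈ seg e := right_mem_segment ℝ _ _

lemma ends_subset_seg (e : R3 × R3) : ends e ⊆ seg e := by
  rintro p (rfl | rfl)
  · exact left_mem_seg e
  · exact right_mem_seg e

lemma exists_edge_fst {l : List R3} {v : R3} (h : v ∈ l) : ∃ e ∈ edges l, e.1 = v := by
  rw [← map_fst_edges l, List.mem_map] at h
  exact h

lemma exists_edge_snd {l : List R3} {v : R3} (h : v ∈ l) : ∃ e ∈ edges l, e.2 = v := by
  have : v ∈ l.rotate 1 := by simpa using h
  rw [← map_snd_edges l, List.mem_map] at this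
  exact this

/-- A vertex lies on an edge only as one of its ends. -/
lemma IsKnot.mem_ends {l : List R3} (h : IsKnot l) {v : R3} (hv : v ∈ l) {e : R3 × R3}
    (he : e ∈ edges l) (hve : v ∈ seg e) : v ∈ ends e := by
  obtain ⟨f, hf, rfl⟩ := exists_edge_fst hv
  by_cases hfe : f = e
  · subst hfe; exact Or.inl rfl
  · exact (h.good hf he hfe ⟨left_mem_seg f, hve⟩).2

lemma IsKnot.cons_cons_not_mem {x y : R3} {t : List R3} (h : IsKnot (x :: y :: t)) :
    (x, y) ∉ pathEdges (y :: t ++ [x]) := by
  have := nodup_edges h.nodup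
  rw [edges_cons_cons, List.nodup_cons] at this
  exact this.1

/-! ### Triangle moves -/

lemma IsKnot.insert {x y z : R3} {t : List R3} (h : IsKnot (x :: y :: t))
    (hz : z ∉ x :: y :: t)
    (hT : ∀ e ∈ pathEdges (y :: t ++ [x]), convexHull ℝ {x, y, z} ∩ seg e ⊆ {x, y})
    (hd : seg (x, z) ∩ seg (z, y) ⊆ {z}) : IsKnot (x :: z :: y :: t) := by
  have hxz : x ≠ z := by rintro rfl; simp at hz
  have hyz : y ≠ z := by rintro rfl; simp at hz
  have hs1 : seg (x, z) ⊆ convexHull ℝ {x, y, z} :=
    (convex_convexHull ℝ _).segment_subset (subset_convexHull ℝ _ (by simp))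
      (subset_convexHull ℝ _ (by simp))
  have hs2 : seg (z, y) ⊆ convexHull ℝ {x, y, z} :=
    (convex_convexHull ℝ _).segment_subset (subset_convexHull ℝ _ (by simp))
      (subset_convexHull ℝ _ (by simp))
  -- the new edges against the old ones
  have k1 : ∀ f ∈ pathEdges (y :: t ++ [x]), Good (x, z) f := by
    intro f hf p hp
    have hp' := hT f hf ⟨hs1 hp.1, hp.2⟩
    rcases hp' with rfl | rfl
    · refine ⟨Or.inl rfl, ?_⟩
      exact h.mem_ends (by simp) (by rw [edges_cons_cons]; exact List.mem_cons_of_mem _ hf) hp.2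
    · exact absurd (hd ⟨hp.1, right_mem_seg _⟩) hyz
  have k2 : ∀ f ∈ pathEdges (y :: t ++ [x]), Good (z, y) f := by
    intro f hf p hp
    have hp' := hT f hf ⟨hs2 hp.1, hp.2⟩
    rcases hp' with rfl | rfl
    · exact absurd (hd ⟨left_mem_seg _, hp.1⟩) hxz
    · refine ⟨Or.inr rfl, ?_⟩
      exact h.mem_ends (by simp) (by rw [edges_cons_cons]; exact List.mem_cons_of_mem _ hf) hp.2
  have k3 : Good (x, z) (z, y) := by
    intro p hp
    have := hd hp
    simp only [Set.mem_singleton_iff] at this
    subst this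
    exact ⟨Or.inr rfl, Or.inl rfl⟩
  refine ⟨by have := h.length; simp only [List.length_cons] at this ⊢; omega, ?_, ?_⟩
  · have hn := h.nodup
    simp only [List.nodup_cons, List.mem_cons, not_or] at hn hz ⊢
    exact ⟨⟨fun e => hz.1 e.symm, hn.1⟩, ⟨hz.2.1, hz.2.2⟩, hn.2⟩
  · have hp := h.2.2
    rw [edges_cons_cons, List.pairwise_cons] at hp
    rw [edges_cons_cons, show z :: (y :: t) ++ [x] = z :: y :: (t ++ [x]) by simp,
      pathEdges_cons_cons, List.pairwise_cons, List.pairwise_cons]
    refine ⟨?_, k2, hp.2⟩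
    intro f hf
    rcases List.mem_cons.1 hf with rfl | hf
    · exact k3
    · exact k1 f hf

lemma IsKnot.remove {x y z : R3} {t : List R3} (h : IsKnot (x :: z :: y :: t)) (ht : t ≠ [])
    (hT : ∀ e ∈ pathEdges (y :: t ++ [x]), convexHull ℝ {x, y, z} ∩ seg e ⊆ {x, y}) :
    IsKnot (x :: y :: t) := by
  have hs : seg (x, y) ⊆ convexHull ℝ {x, y, z} :=
    (convex_convexHull ℝ _).segment_subset (subset_convexHull ℝ _ (by simp))
      (subset_convexHull ℝ _ (by simp))
  have hpath : ∀ f ∈ pathEdges (y :: t ++ [x]), f ∈ edges (x :: z :: y :: t) := by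
    intro f hf
    rw [edges_cons_cons, show z :: (y :: t) ++ [x] = z :: y :: (t ++ [x]) by simp,
      pathEdges_cons_cons]
    exact List.mem_cons_of_mem _ (List.mem_cons_of_mem _ hf)
  refine ⟨?_, ?_, ?_⟩
  · have : 0 < t.length := List.length_pos_of_ne_nil ht
    simp only [List.length_cons]; omega
  · have hn := h.nodup
    simp only [List.nodup_cons, List.mem_cons, not_or] at hn ⊢
    exact ⟨hn.1.2, hn.2.2⟩
  · have hp := h.2.2
    rw [edges_cons_cons, show z :: (y :: t) ++ [x] = z :: y :: (t ++ [x]) by simp,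
      pathEdges_cons_cons, List.pairwise_cons, List.pairwise_cons] at hp
    rw [edges_cons_cons, List.pairwise_cons]
    refine ⟨fun f hf p hp => ?_, hp.2.2⟩
    rcases hT f hf ⟨hs hp.1, hp.2⟩ with rfl | rfl
    · exact ⟨Or.inl rfl, h.mem_ends (by simp) (hpath f hf) hp.2⟩
    · exact ⟨Or.inr rfl, h.mem_ends (by simp) (hpath f hf) hp.2⟩

lemma isotopic_triangle {x y z : R3} {t : List R3} (h : IsKnot (x :: y :: t))
    (h' : IsKnot (x :: z :: y :: t))
    (hT : ∀ e ∈ pathEdges (y :: t ++ [x]), convexHull ℝ {x, y, z} ∩ seg e ⊆ {x, y}) :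
    Isotopic (x :: y :: t) (x :: z :: y :: t) :=
  Relation.EqvGen.rel _ _ (Step.triangle x y z t h h' (by rwa [edges_cons_cons_tail]))

lemma isotopic_insert {x y z : R3} {t : List R3} (h : IsKnot (x :: y :: t))
    (hz : z ∉ x :: y :: t)
    (hT : ∀ e ∈ pathEdges (y :: t ++ [x]), convexHull ℝ {x, y, z} ∩ seg e ⊆ {x, y})
    (hd : seg (x, z) ∩ seg (z, y) ⊆ {z}) :
    IsKnot (x :: z :: y :: t) ∧ Isotopic (x :: y :: t) (x :: z :: y :: t) :=
  ⟨h.insert hz hT hd, isotopic_triangle h (h.insert hz hT hd) hT⟩

lemma isotopic_remove {x y z : R3} {t : List R3} (h : IsKnot (x :: z :: y :: t)) (ht : t ≠ [])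
    (hT : ∀ e ∈ pathEdges (y :: t ++ [x]), convexHull ℝ {x, y, z} ∩ seg e ⊆ {x, y}) :
    IsKnot (x :: y :: t) ∧ Isotopic (x :: z :: y :: t) (x :: y :: t) :=
  ⟨h.remove ht hT, (isotopic_triangle (h.remove ht hT) h hT).symm⟩

/-! ### Subdivision of an edge -/

lemma seg_inter_seg_of_mem_openSegment {x y z : R3} (hz : z ∈ openSegment ℝ x y) (hxy : x ≠ y) :
    seg (x, z) ∩ seg (z, y) ⊆ {z} := by
  obtain ⟨a, b, ha, hb, hab, rfl⟩ := hz
  rintro p ⟨⟨c, d, hc, hd, hcd, rfl⟩, ⟨c', d', hc', hd', hcd', h⟩⟩
  simp only [Set.mem_singleton_iff]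
  simp only at h ⊢
  -- compare coefficients of `y - x`
  have key : (d * b - (c' * b + d')) • (y - x) = 0 := by
    have h1 : c' • (a • x + b • y) + d' • y - (c • x + d • (a • x + b • y)) = 0 := by
      rw [h]; simp
    have h2 : c' • (a • x + b • y) + d' • y - (c • x + d • (a • x + b • y))
        = (c' * a - c - d * a) • x + (c' * b + d' - d * b) • y := by module
    rw [h2] at h1
    have h3 : c' * a - c - d * a = - (c' * b + d' - d * b) := by
      have e1 : c = 1 - d := by linarith
      have e2 : c' = 1 - d' := by linarith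
      have e3 : a = 1 - b := by linarith
      subst e1 e2 e3; ring
    rw [h3] at h1
    have h4 : (d * b - (c' * b + d')) • (y - x)
        = -((-(c' * b + d' - d * b)) • x + (c' * b + d' - d * b) • y) := by module
    rw [h4, h1, neg_zero]
  have hne : y - x ≠ 0 := sub_ne_zero.2 hxy.symm
  have h5 : d * b - (c' * b + d') = 0 := by
    rcases smul_eq_zero.1 key with h | h
    · exact h
    · exact absurd h hne
  have e2 : c' = 1 - d' := by linarith
  have e1 : d ≤ 1 := by linarith
  have h6 : (1 - d) * b + d' * (1 - b) = 0 := by rw [e2] at h5; linarith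
  have h7 : (1 - d) * b = 0 := by
    have i1 : 0 ≤ (1 - d) * b := mul_nonneg (sub_nonneg.2 e1) hb.le
    have i2 : 0 ≤ d' * (1 - b) := mul_nonneg hd' (by linarith)
    linarith
  have h8 : d = 1 := by
    rcases mul_eq_zero.1 h7 with h | h
    · linarith
    · exact absurd h hb.ne'
  have h9 : c = 0 := by linarith
  rw [h8, h9]; simp

lemma isotopic_subdivide {x y z : R3} {t : List R3} (h : IsKnot (x :: y :: t))
    (hz : z ∈ openSegment ℝ x y) :
    IsKnot (x :: z :: y :: t) ∧ Isotopic (x :: y :: t) (x :: z :: y :: t) := by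
  have hxy : x ≠ y := by
    have := h.nodup
    simp only [List.nodup_cons, List.mem_cons, not_or] at this
    exact this.1.1
  have hzs : z ∈ seg (x, y) := openSegment_subset_segment ℝ _ _ hz
  have he : (x, y) ∈ edges (x :: y :: t) := by rw [edges_cons_cons]; simp
  have hzx : z ≠ x := by
    rintro rfl
    rw [left_mem_openSegment_iff] at hz
    exact hxy hz
  have hzy : z ≠ y := by
    rintro rfl
    rw [right_mem_openSegment_iff] at hz
    exact hxy hz
  refine isotopic_insert h ?_ ?_ (seg_inter_seg_of_mem_openSegment hz hxy)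
  · intro hzm
    rcases h.mem_ends hzm he hzs with h1 | h1
    · exact hzx h1
    · exact hzy h1
  · intro e hep p hp
    have hsub : convexHull ℝ {x, y, z} ⊆ seg (x, y) := by
      apply convexHull_min _ (convex_segment _ _)
      rintro p (rfl | rfl | rfl)
      · exact left_mem_seg _
      · exact right_mem_seg _
      · exact hzs
    have hne : (x, y) ≠ e := by rintro rfl; exact h.cons_cons_not_mem hep
    exact (h.good he (by rw [edges_cons_cons]; exact List.mem_cons_of_mem _ hep) hne
      ⟨hsub hp.1, hp.2⟩).1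

/-! ### Affine images -/

lemma edges_map (T : R3 → R3) (l : List R3) : edges (l.map T) = (edges l).map (Prod.map T T) := by
  unfold edges
  rw [← List.map_rotate, List.zip_map]

lemma pathEdges_map (T : R3 → R3) (l : List R3) :
    pathEdges (l.map T) = (pathEdges l).map (Prod.map T T) := by
  unfold pathEdges
  rw [← List.map_tail, List.zip_map]

lemma seg_map (T : R3 →ᵃ[ℝ] R3) (e : R3 × R3) : seg (Prod.map T T e) = T '' seg e := by
  unfold seg
  rw [image_segment]; rfl

lemma ends_map (T : R3 → R3) (e : R3 × R3) : ends (Prod.map T T e) = T '' ends e := by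
  unfold ends
  rw [Set.image_pair]; rfl

lemma IsKnot.map {l : List R3} (h : IsKnot l) (T : R3 →ᵃ[ℝ] R3) (hT : Function.Injective T) :
    IsKnot (l.map T) := by
  rw [isKnot_iff] at h ⊢
  refine ⟨by simpa using h.1, h.2.1.map hT, fun e he f hf hne => ?_⟩
  rw [edges_map, List.mem_map] at he hf
  obtain ⟨e', he', rfl⟩ := he
  obtain ⟨f', hf', rfl⟩ := hf
  rw [seg_map, seg_map, ends_map, ends_map, ← Set.image_inter hT, ← Set.image_inter hT]
  exact Set.image_mono (h.2.2 e' he' f' hf' (fun h => hne (by rw [h])))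

lemma Isotopic.map {l l' : List R3} (h : Isotopic l l') (T : R3 →ᵃ[ℝ] R3)
    (hT : Function.Injective T) : Isotopic (l.map T) (l'.map T) := by
  induction h with
  | rel x y h =>
    apply Relation.EqvGen.rel
    cases h with
    | rotate =>
      rw [List.map_rotate]; exact Step.rotate _
    | reverse =>
      rw [List.map_reverse]; exact Step.reverse _
    | triangle x y z t h h' hT' =>
      simp only [List.map_cons]
      refine Step.triangle _ _ _ _ (h.map T hT) (h'.map T hT) ?_
      intro e he
      rw [edges_cons_cons_tail] at he hT'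
      have : pathEdges (T y :: t.map T ++ [T x]) = (pathEdges (y :: t ++ [x])).map (Prod.map T T) := by
        rw [← pathEdges_map]; simp
      rw [this, List.mem_map] at he
      obtain ⟨e', he', rfl⟩ := he
      rw [seg_map, show ({T x, T y, T z} : Set R3) = T '' {x, y, z} by
        simp [Set.image_insert_eq], ← AffineMap.image_convexHull, ← Set.image_inter hT,
        show ({T x, T y} : Set R3) = T '' {x, y} by simp [Set.image_insert_eq]]
      exact Set.image_mono (hT' e' he')
  | refl x => exact Isotopic.refl _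
  | symm x y _ ih => exact ih.symm
  | trans x y z _ _ ih1 ih2 => exact ih1.trans ih2

end Pool.Agent.LinKnot
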