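import Pool.Agent.Lib.MP_188a32_co.Moves

/-!
# Planar lemmas on the projections of edges (`XR`, `NC`, `side`)
-/

set_option autoImplicit false

namespace Pool.Agent.LinKnot

open scoped Classical

namespace Planar

/-- the point of an edge with parameter `r` -/
noncomputable def pt (e : R3 × R3) (r : ℝ) : R3 := e.1 + r • (e.2 - e.1)

@[simp] lemma pt_zero (e : R3 × R3) : pt e 0 = e.1 := by simp [pt]
@[simp] lemma pt_one (e : R3 × R3) : pt e 1 = e.2 := by simp [pt]

lemma pt_apply (e : R3 × R3) (r : ℝ) (i : Fin 3) :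
    pt e r i = e.1 i + r * (e.2 i - e.1 i) := by
  simp [pt]

lemma mem_seg_iff {e : R3 × R3} {p : R3} : p ∈ seg e ↔ ∃ r, 0 ≤ r ∧ r ≤ 1 ∧ pt e r = p := by
  unfold seg
  rw [segment_eq_image']
  constructor
  · rintro ⟨r, hr, rfl⟩
    exact ⟨r, hr.1, hr.2, rfl⟩
  · rintro ⟨r, h0, h1, rfl⟩
    exact ⟨r, ⟨h0, h1⟩, rfl⟩

lemma pt_mem_seg (e : R3 × R3) {r : ℝ} (h0 : 0 ≤ r) (h1 : r ≤ 1) : pt e r ∈ seg e :=
  mem_seg_iff.2 ⟨r, h0, h1, rfl⟩

lemma pt_mem_openSegment (x y : R3) {r : ℝ} (h0 : 0 < r) (h1 : r < 1) :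
    pt (x, y) r ∈ openSegment ℝ x y := by
  rw [openSegment_eq_image']
  exact ⟨r, ⟨h0, h1⟩, rfl⟩

lemma proj_eq_iff {p q : R3} : proj p = proj q ↔ p 0 = q 0 ∧ p 1 = q 1 := by
  simp [proj]

lemma side_eq (e : R3 × R3) (p : R3) : side e p =
    (e.2 0 - e.1 0) * (p 1 - e.1 1) - (e.2 1 - e.1 1) * (p 0 - e.1 0) := by
  simp [side, cross2, proj]

lemma side_pt (f e : R3 × R3) (r : ℝ) :
    side f (pt e r) = (1 - r) * side f e.1 + r * side f e.2 := by
  rw [side_eq, side_eq, side_eq, pt_apply, pt_apply]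
  ring

@[simp] lemma side_fst (e : R3 × R3) : side e e.1 = 0 := by rw [side_eq]; ring
@[simp] lemma side_snd (e : R3 × R3) : side e e.2 = 0 := by rw [side_eq]; ring

lemma side_congr {e : R3 × R3} {p q : R3} (h : proj p = proj q) : side e p = side e q := by
  rw [proj_eq_iff] at h
  rw [side_eq, side_eq, h.1, h.2]

lemma side_of_mem {e : R3 × R3} {p : R3} (h : p ∈ seg e) : side e p = 0 := by
  obtain ⟨r, _, _, rfl⟩ := mem_seg_iff.1 h
  rw [side_pt]; simp

lemma XR.symm {e f : R3 × R3} (h : XR e f) : XR f e := ⟨h.2, h.1⟩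

lemma xr_comm {e f : R3 × R3} : XR e f ↔ XR f e := ⟨XR.symm, XR.symm⟩

lemma NC.symm {e f : R3 × R3} (h : NC e f) : NC f e := by
  intro p hp q hq hpq
  obtain ⟨h1, h2, h3⟩ := h q hq p hp hpq.symm
  subst h1
  exact ⟨rfl, h3, h2⟩

lemma NC.good {e f : R3 × R3} (h : NC e f) : seg e ∩ seg f ⊆ ends e ∩ ends f := by
  rintro p ⟨hp, hq⟩
  obtain ⟨_, h2, h3⟩ := h p hp p hq rfl
  exact ⟨h2, h3⟩

/-- the crossing parameter on `e` -/
noncomputable def cpar (e f : R3 × R3) : ℝ := side f e.1 / (side f e.1 - side f e.2)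

lemma sub_ne {a b : ℝ} (h : a * b < 0) : a - b ≠ 0 := by
  intro h0
  have : a = b := by linarith
  subst this
  nlinarith [mul_self_nonneg a]

lemma frac_mem {a b : ℝ} (h : a * b < 0) : 0 < a / (a - b) ∧ a / (a - b) < 1 := by
  rcases lt_or_gt_of_ne (sub_ne h) with h1 | h1
  · have ha : a < 0 := by nlinarith
    have hb : 0 < b := by nlinarith
    constructor
    · exact div_pos_of_neg_of_neg ha h1
    · rw [div_lt_one_of_neg h1]; linarith
  · have ha : 0 < a := by nlinarith
    have hb : b < 0 := by nlinarith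
    constructor
    · exact div_pos ha h1
    · rw [div_lt_one h1]; linarith

lemma cpar_mem {e f : R3 × R3} (h : side f e.1 * side f e.2 < 0) :
    0 < cpar e f ∧ cpar e f < 1 := frac_mem h

lemma outside {c d s t : ℝ} (hs : s = (1 - t) * c + t * d) (ht0 : 0 < t) (ht1 : t < 1)
    (hs0 : 0 < s) (hs1 : s < 1) (hc : ¬ (0 ≤ c ∧ c ≤ 1)) (hd : ¬ (0 ≤ d ∧ d ≤ 1)) :
    c * d < 0 := by
  rcases lt_or_ge c 0 with hc0 | hc0
  · have hd0 : 0 < d := by
      by_contra h
      push Not at h
      have h1 : (1 - t) * c < 0 := mul_neg_of_pos_of_neg (by linarith) hc0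
      have h2 : t * d ≤ 0 := mul_nonpos_of_nonneg_of_nonpos ht0.le h
      linarith
    exact mul_neg_of_neg_of_pos hc0 hd0
  · have hc1 : 1 < c := by
      by_contra h; push Not at h; exact hc ⟨hc0, h⟩
    have hd0 : d < 0 := by
      by_contra h
      push Not at h
      have hd1 : 1 < d := by
        by_contra h'; push Not at h'; exact hd ⟨h, h'⟩
      have h1 : (1 - t) * 1 < (1 - t) * c := mul_lt_mul_of_pos_left hc1 (by linarith)
      have h2 : t * 1 < t * d := mul_lt_mul_of_pos_left hd1 ht0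
      linarith
    exact mul_neg_of_pos_of_neg (by linarith) hd0

lemma side_pt_cpar {e f : R3 × R3} (h : side f e.1 * side f e.2 < 0) (r : ℝ) :
    side f (pt e r) = (side f e.1 - side f e.2) * (cpar e f - r) := by
  rw [side_pt]
  unfold cpar
  have := sub_ne h
  field_simp
  ring

/-- the two crossing points have the same projection -/
lemma proj_cpar {e f : R3 × R3} (h : XR e f) :
    proj (pt e (cpar e f)) = proj (pt f (cpar f e)) := by
  have h1 := sub_ne h.1
  have h2 := sub_ne h.2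
  rw [proj_eq_iff, pt_apply, pt_apply, pt_apply, pt_apply]
  unfold cpar
  have e1 : side f e.1 - side f e.2 = side e f.2 - side e f.1 := by
    rw [side_eq, side_eq, side_eq, side_eq]; ring
  rw [e1]
  have h3 : side e f.2 - side e f.1 ≠ 0 := fun h0 => h1 (by linarith)
  have e2 : side e f.1 - side e f.2 = -(side e f.2 - side e f.1) := by ring
  rw [e2]
  constructor
  · field_simp
    rw [side_eq, side_eq, side_eq]
    ring
  · field_simp
    rw [side_eq, side_eq, side_eq]
    ring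

lemma XR.meet {e f : R3 × R3} (h : XR e f) : (pseg e ∩ pseg f).Nonempty := by
  refine ⟨proj (pt e (cpar e f)), ⟨_, pt_mem_seg e (cpar_mem h.2).1.le (cpar_mem h.2).2.le, rfl⟩,
    ⟨_, pt_mem_seg f (cpar_mem h.1).1.le (cpar_mem h.1).2.le, ?_⟩⟩
  exact (proj_cpar h).symm

lemma XR.disjoint_ends {e f : R3 × R3} (h : XR e f) : Disjoint (ends e) (ends f) := by
  rw [Set.disjoint_left]
  rintro p (hp | hp) (hq | hq)
  · have h1 := h.1
    rw [← hq, hp, side_fst] at h1; simp at h1
  · have h1 := h.1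
    rw [Set.mem_singleton_iff] at hq
    rw [← hq, hp, side_fst] at h1; simp at h1
  · have h1 := h.1
    rw [Set.mem_singleton_iff] at hp
    rw [← hq, hp, side_snd] at h1; simp at h1
  · have h1 := h.1
    rw [Set.mem_singleton_iff] at hp hq
    rw [← hq, hp, side_snd] at h1; simp at h1

lemma not_xr_self (e : R3 × R3) : ¬ XR e e := by
  intro h
  have := h.1
  simp at this

/-- the projection is injective on an edge which is not vertical -/
lemma proj_inj_on {e : R3 × R3} (h : proj e.1 ≠ proj e.2) {p q : R3} (hp : p ∈ seg e)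
    (hq : q ∈ seg e) (hpq : proj p = proj q) : p = q := by
  obtain ⟨r, _, _, rfl⟩ := mem_seg_iff.1 hp
  obtain ⟨s, _, _, rfl⟩ := mem_seg_iff.1 hq
  rw [proj_eq_iff, pt_apply, pt_apply, pt_apply, pt_apply] at hpq
  have h1 : (r - s) * (e.2 0 - e.1 0) = 0 := by linarith [hpq.1]
  have h2 : (r - s) * (e.2 1 - e.1 1) = 0 := by linarith [hpq.2]
  rcases mul_eq_zero.1 h1 with h3 | h3
  · have : r = s := by linarith
    rw [this]
  · rcases mul_eq_zero.1 h2 with h4 | h4
    · have : r = s := by linarith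
      rw [this]
    · exact absurd (proj_eq_iff.2 ⟨by linarith, by linarith⟩) h

/-- a point of `e` over a point of `f` is the crossing point -/
lemma eq_cpar {e f : R3 × R3} (h : XR e f) {r : ℝ} (hr : proj (pt e r) ∈ pseg f) :
    r = cpar e f := by
  obtain ⟨q, hq, hpq⟩ := hr
  have h1 : side f (pt e r) = 0 := by rw [← side_congr hpq]; exact side_of_mem hq
  rw [side_pt_cpar h.2] at h1
  rcases mul_eq_zero.1 h1 with h2 | h2
  · exact absurd h2 (sub_ne h.2)
  · linarith

lemma collin {e : R3 × R3} (he : proj e.1 ≠ proj e.2) {p : R3} (h : side e p = 0) :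
    ∃ c, proj p = proj (pt e c) := by
  rw [side_eq] at h
  have hE : 0 < (e.2 0 - e.1 0) ^ 2 + (e.2 1 - e.1 1) ^ 2 := by
    by_contra hcon
    push Not at hcon
    have h1 : (e.2 0 - e.1 0) ^ 2 = 0 := le_antisymm (by nlinarith [sq_nonneg (e.2 1 - e.1 1)])
      (sq_nonneg _)
    have h2 : (e.2 1 - e.1 1) ^ 2 = 0 := le_antisymm (by nlinarith [sq_nonneg (e.2 0 - e.1 0)])
      (sq_nonneg _)
    rw [sq_eq_zero_iff] at h1 h2
    exact he (proj_eq_iff.2 ⟨by linarith, by linarith⟩)
  refine ⟨((p 0 - e.1 0) * (e.2 0 - e.1 0) + (p 1 - e.1 1) * (e.2 1 - e.1 1)) /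
    ((e.2 0 - e.1 0) ^ 2 + (e.2 1 - e.1 1) ^ 2), ?_⟩
  rw [proj_eq_iff, pt_apply, pt_apply]
  constructor
  · field_simp
    linear_combination -(e.2 1 - e.1 1) * h
  · field_simp
    linear_combination (e.2 0 - e.1 0) * h

/-- Transversal crossing from an intersection without ends on the other edge. -/
lemma xr_of_meet {e f : R3 × R3} (he : proj e.1 ≠ proj e.2)
    (h1 : proj e.1 ∉ pseg f) (h2 : proj e.2 ∉ pseg f) (h3 : proj f.1 ∉ pseg e)
    (h4 : proj f.2 ∉ pseg e) (hm : (pseg e ∩ pseg f).Nonempty) : XR e f := by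
  obtain ⟨P, ⟨p, hp, hpP⟩, ⟨q, hq, hqP⟩⟩ := hm
  obtain ⟨s, hs0, hs1, rfl⟩ := mem_seg_iff.1 hp
  obtain ⟨t, ht0, ht1, rfl⟩ := mem_seg_iff.1 hq
  have hpq : proj (pt e s) = proj (pt f t) := hpP.trans hqP.symm
  have hs0' : s ≠ 0 := by
    rintro rfl
    exact h1 ⟨pt f t, hq, by rw [← hpq, pt_zero]⟩
  have hs1' : s ≠ 1 := by
    rintro rfl
    exact h2 ⟨pt f t, hq, by rw [← hpq, pt_one]⟩
  have ht0' : t ≠ 0 := by
    rintro rfl
    exact h3 ⟨pt e s, hp, by rw [hpq, pt_zero]⟩
  have ht1' : t ≠ 1 := by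
    rintro rfl
    exact h4 ⟨pt e s, hp, by rw [hpq, pt_one]⟩
  have hs0'' : 0 < s := lt_of_le_of_ne hs0 (Ne.symm hs0')
  have hs1'' : s < 1 := lt_of_le_of_ne hs1 hs1'
  have ht0'' : 0 < t := lt_of_le_of_ne ht0 (Ne.symm ht0')
  have ht1'' : t < 1 := lt_of_le_of_ne ht1 ht1'
  rw [proj_eq_iff, pt_apply, pt_apply, pt_apply, pt_apply] at hpq
  obtain ⟨e0, e1⟩ := hpq
  -- the cross product of the directions
  set κ := (e.2 0 - e.1 0) * (f.2 1 - f.1 1) - (e.2 1 - e.1 1) * (f.2 0 - f.1 0) with hκ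
  have k1 : side e f.1 = -(t * κ) := by
    rw [side_eq, hκ]
    linear_combination -(e.2 0 - e.1 0) * e1 + (e.2 1 - e.1 1) * e0
  have k2 : side e f.2 = (1 - t) * κ := by
    rw [side_eq, hκ]
    linear_combination -(e.2 0 - e.1 0) * e1 + (e.2 1 - e.1 1) * e0
  have k3 : side f e.1 = s * κ := by
    rw [side_eq, hκ]
    linear_combination (f.2 0 - f.1 0) * e1 - (f.2 1 - f.1 1) * e0
  have k4 : side f e.2 = -((1 - s) * κ) := by
    rw [side_eq, hκ]
    linear_combination (f.2 0 - f.1 0) * e1 - (f.2 1 - f.1 1) * e0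
  have hκ0 : κ ≠ 0 := by
    intro hκ0
    obtain ⟨c, hc⟩ := collin he (by rw [k1, hκ0]; ring : side e f.1 = 0)
    obtain ⟨d, hd⟩ := collin he (by rw [k2, hκ0]; ring : side e f.2 = 0)
    have hc01 : ¬ (0 ≤ c ∧ c ≤ 1) := fun h => h3 ⟨_, pt_mem_seg e h.1 h.2, hc.symm⟩
    have hd01 : ¬ (0 ≤ d ∧ d ≤ 1) := fun h => h4 ⟨_, pt_mem_seg e h.1 h.2, hd.symm⟩
    rw [proj_eq_iff, pt_apply, pt_apply] at hc hd
    -- `s = (1 - t) c + t d`
    have hs : s = (1 - t) * c + t * d := by
      have g0 : (s - ((1 - t) * c + t * d)) * (e.2 0 - e.1 0) = 0 := by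
        linear_combination e0 + (1 - t) * hc.1 + t * hd.1
      have g1 : (s - ((1 - t) * c + t * d)) * (e.2 1 - e.1 1) = 0 := by
        linear_combination e1 + (1 - t) * hc.2 + t * hd.2
      rcases mul_eq_zero.1 g0 with g2 | g2
      · linarith
      · rcases mul_eq_zero.1 g1 with g3 | g3
        · linarith
        · exact absurd (proj_eq_iff.2 ⟨by linarith, by linarith⟩) he
    have hcd : c * d < 0 := outside hs ht0'' ht1'' hs0'' hs1'' hc01 hd01
    -- `e.1` lies over `f`
    have hne : c - d ≠ 0 := sub_ne hcd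
    have hr0 := frac_mem hcd
    refine h1 ⟨_, pt_mem_seg f hr0.1.le hr0.2.le, ?_⟩
    rw [proj_eq_iff, pt_apply, pt_apply, hc.1, hc.2, hd.1, hd.2]
    constructor
    · field_simp; ring
    · field_simp; ring
  have hκ2 : 0 < κ ^ 2 := by positivity
  refine ⟨?_, ?_⟩
  · rw [k1, k2]
    have : 0 < t * (1 - t) * κ ^ 2 := mul_pos (mul_pos ht0'' (by linarith)) hκ2
    linarith
  · rw [k3, k4]
    have : 0 < s * (1 - s) * κ ^ 2 := mul_pos (mul_pos hs0'' (by linarith)) hκ2
    linarith

lemma nc_share {v u w : R3} (hu : proj v ≠ proj u) (hw : proj v ≠ proj w)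
    (h1 : proj u ∉ pseg (v, w)) (h2 : proj w ∉ pseg (v, u)) : NC (v, u) (v, w) := by
  intro p hp q hq hpq
  obtain ⟨s, hs0, hs1, rfl⟩ := mem_seg_iff.1 hp
  obtain ⟨t, ht0, ht1, rfl⟩ := mem_seg_iff.1 hq
  rw [proj_eq_iff, pt_apply, pt_apply, pt_apply, pt_apply] at hpq
  simp only at hpq
  obtain ⟨e0, e1⟩ := hpq
  rcases eq_or_lt_of_le hs0 with h3 | h3
  · subst h3
    have ht : t = 0 := by
      have g0 : t * (w 0 - v 0) = 0 := by linarith
      have g1 : t * (w 1 - v 1) = 0 := by linarith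
      rcases mul_eq_zero.1 g0 with g2 | g2
      · exact g2
      · rcases mul_eq_zero.1 g1 with g3 | g3
        · exact g3
        · exact absurd (proj_eq_iff.2 ⟨by linarith, by linarith⟩) hw
    subst ht
    rw [pt_zero, pt_zero]
    exact ⟨rfl, Or.inl rfl, Or.inl rfl⟩
  rcases eq_or_lt_of_le ht0 with h4 | h4
  · subst h4
    have hs : s = 0 := by
      have g0 : s * (u 0 - v 0) = 0 := by linarith
      have g1 : s * (u 1 - v 1) = 0 := by linarith
      rcases mul_eq_zero.1 g0 with g2 | g2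
      · exact g2
      · rcases mul_eq_zero.1 g1 with g3 | g3
        · exact g3
        · exact absurd (proj_eq_iff.2 ⟨by linarith, by linarith⟩) hu
    subst hs
    rw [pt_zero, pt_zero]
    exact ⟨rfl, Or.inl rfl, Or.inl rfl⟩
  exfalso
  rcases le_total t s with h5 | h5
  · apply h1
    refine ⟨pt (v, w) (t / s), pt_mem_seg _ (by positivity) ((div_le_one h3).2 h5), ?_⟩
    rw [proj_eq_iff, pt_apply, pt_apply]
    simp only
    constructor
    · field_simp; linarith
    · field_simp; linarith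
  · apply h2
    refine ⟨pt (v, u) (s / t), pt_mem_seg _ (by positivity) ((div_le_one h4).2 h5), ?_⟩
    rw [proj_eq_iff, pt_apply, pt_apply]
    simp only
    constructor
    · field_simp; linarith
    · field_simp; linarith

lemma nc_swap_left {e f : R3 × R3} (h : NC e.swap f) : NC e f := by
  unfold NC at h ⊢
  rwa [seg_swap, ends_swap] at h

lemma nc_swap_right {e f : R3 × R3} (h : NC e f.swap) : NC e f :=
  NC.symm (nc_swap_left (NC.symm h))

@[simp] lemma pseg_swap (e : R3 × R3) : pseg e.swap = pseg e := by unfold pseg; rw [seg_swap]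

/-- two different edges of a knot do not have the same ends -/
lemma ends_ne {l : List R3} (h : IsKnot l) {e f : R3 × R3} (he : e ∈ edges l) (hf : f ∈ edges l)
    (hne : e ≠ f) (h12 : e.1 ≠ e.2) (h1 : e.1 ∈ ends f) (h2 : e.2 ∈ ends f) : False := by
  have hm : pt e (1 / 2) ∈ seg f := by
    have hc : Convex ℝ (seg f) := convex_segment _ _
    have h3 := hc.segment_subset (ends_subset_seg f h1) (ends_subset_seg f h2)
    exact h3 (pt_mem_seg e (by norm_num) (by norm_num))
  have h4 := (h.good he hf hne ⟨pt_mem_seg e (by norm_num) (by norm_num), hm⟩).1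
  have hne' : e.2 - e.1 ≠ 0 := sub_ne_zero.2 h12.symm
  rcases h4 with h4 | h4
  · have h5 : (1 / 2 : ℝ) • (e.2 - e.1) = 0 := by
      unfold pt at h4; simpa using h4
    rcases smul_eq_zero.1 h5 with h6 | h6
    · norm_num at h6
    · exact hne' h6
  · rw [Set.mem_singleton_iff] at h4
    have h5 : (1 / 2 : ℝ) • (e.2 - e.1) = 0 := by
      unfold pt at h4
      have h7 : e.2 - (e.1 + (1 / 2 : ℝ) • (e.2 - e.1)) = 0 := by rw [h4]; simp
      have h8 : e.2 - (e.1 + (1 / 2 : ℝ) • (e.2 - e.1)) = (1 / 2 : ℝ) • (e.2 - e.1) := by module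
      rw [← h8, h7]
    rcases smul_eq_zero.1 h5 with h6 | h6
    · norm_num at h6
    · exact hne' h6

lemma fst_ne_snd {l : List R3} (h : IsKnot l) {e : R3 × R3} (he : e ∈ edges l) : e.1 ≠ e.2 := by
  intro h0
  -- another edge through `e.1`
  have hnd := h.nodup
  have hlen := h.length
  have h1 : e.1 ∈ l := (mem_of_mem_edges he).1
  obtain ⟨i, hi, hie⟩ := List.getElem_of_mem he
  have hi' : i < l.length := by simpa using hi
  have e1 : e.1 = l[i] := by
    rw [← hie]; simp [edges]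
  have e2 : e.2 = l[(i + 1) % l.length]'(Nat.mod_lt _ (by omega)) := by
    rw [← hie]; simp [edges, List.getElem_rotate]
  rw [e1, e2, hnd.getElem_inj_iff] at h0
  rcases Nat.lt_or_ge (i + 1) l.length with h3 | h3
  · rw [Nat.mod_eq_of_lt h3] at h0; omega
  · have : i + 1 = l.length := by omega
    rw [this, Nat.mod_self] at h0; omega

end Planar

open Planar

/-- regular diagrams with transversal crossings -/
structure Dia (l : List R3) : Prop where
  knot : IsKnot l
  flat : ∀ e ∈ edges l, proj e.1 ≠ proj e.2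
  pair : ∀ e ∈ edges l, ∀ f ∈ edges l, e ≠ f → NC e f ∨ XR e f
  triple : ∀ e ∈ edges l, ∀ f ∈ edges l, ∀ g ∈ edges l, XR e f → XR e g → f ≠ g →
    pseg e ∩ pseg f ∩ pseg g = ∅

lemma IsRegular.flat {l : List R3} (h : IsRegular l) {e : R3 × R3} (he : e ∈ edges l) :
    proj e.1 ≠ proj e.2 := by
  intro h0
  obtain ⟨m1, m2⟩ := mem_of_mem_edges he
  obtain ⟨f, hf, hf1⟩ := exists_edge_fst m2
  have hne : e ≠ f := by
    rintro rfl
    exact fst_ne_snd h.1 he hf1
  have h1 : e.1 ∉ ends f := fun h1 => ends_ne h.1 he hf hne (fst_ne_snd h.1 he) h1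
    (Or.inl hf1.symm)
  apply h.2.1 e.1 m1 f hf h1
  exact ⟨f.1, left_mem_seg f, by rw [h0, hf1]⟩

lemma IsRegular.pair {l : List R3} (h : IsRegular l) {e f : R3 × R3} (he : e ∈ edges l)
    (hf : f ∈ edges l) (hne : e ≠ f) : NC e f ∨ XR e f := by
  have key : ∀ e ∈ edges l, ∀ f ∈ edges l, e ≠ f → ∀ v ∈ ends e, v ∉ ends f → proj v ∉ pseg f := by
    intro e he f hf _ v hv hvf
    apply h.2.1 v _ f hf hvf
    obtain ⟨m1, m2⟩ := mem_of_mem_edges he
    rcases hv with rfl | hv
    · exact m1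
    · rw [Set.mem_singleton_iff] at hv; rw [hv]; exact m2
  have fe := h.flat he
  have ff := h.flat hf
  by_cases hd : Disjoint (ends e) (ends f)
  · rw [Set.disjoint_left] at hd
    by_cases hm : (pseg e ∩ pseg f).Nonempty
    · right
      refine xr_of_meet fe (key e he f hf hne _ (Or.inl rfl) (hd (Or.inl rfl)))
        (key e he f hf hne _ (Or.inr rfl) (hd (Or.inr rfl)))
        (key f hf e he hne.symm _ (Or.inl rfl) (fun h => hd h (Or.inl rfl)))
        (key f hf e he hne.symm _ (Or.inr rfl) (fun h => hd h (Or.inr rfl))) hm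
    · left
      intro p hp q hq hpq
      exact absurd ⟨proj p, ⟨p, hp, rfl⟩, ⟨q, hq, hpq.symm⟩⟩ hm
  · left
    rw [Set.not_disjoint_iff] at hd
    obtain ⟨v, hv1, hv2⟩ := hd
    -- the other ends
    obtain ⟨u, hu⟩ : ∃ u, e = (v, u) ∨ e.swap = (v, u) := by
      rcases hv1 with h1 | h1
      · exact ⟨e.2, Or.inl (by rw [h1])⟩
      · rw [Set.mem_singleton_iff] at h1
        exact ⟨e.1, Or.inr (by rw [h1]; rfl)⟩
    obtain ⟨w, hw⟩ : ∃ w, f = (v, w) ∨ f.swap = (v, w) := by
      rcases hv2 with h1 | h1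
      · exact ⟨f.2, Or.inl (by rw [h1])⟩
      · rw [Set.mem_singleton_iff] at h1
        exact ⟨f.1, Or.inr (by rw [h1]; rfl)⟩
    have hue : u ∈ ends e := by
      rcases hu with h1 | h1
      · rw [h1]; exact Or.inr rfl
      · rw [← ends_swap, h1]; exact Or.inr rfl
    have hwf : w ∈ ends f := by
      rcases hw with h1 | h1
      · rw [h1]; exact Or.inr rfl
      · rw [← ends_swap, h1]; exact Or.inr rfl
    have huf : u ∉ ends f := by
      intro h1
      refine ends_ne h.1 he hf hne (fst_ne_snd h.1 he) ?_ ?_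
      · rcases hu with h2 | h2
        · rw [h2]; exact hv2
        · have : e.1 = u := by rw [← Prod.snd_swap, h2]
          rw [this]; exact h1
      · rcases hu with h2 | h2
        · rw [h2]; exact h1
        · have : e.2 = v := by rw [← Prod.fst_swap, h2]
          rw [this]; exact hv2
    have hwe : w ∉ ends e := by
      intro h1
      refine ends_ne h.1 hf he hne.symm (fst_ne_snd h.1 hf) ?_ ?_
      · rcases hw with h2 | h2
        · rw [h2]; exact hv1
        · have : f.1 = w := by rw [← Prod.snd_swap, h2]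
          rw [this]; exact h1
      · rcases hw with h2 | h2
        · rw [h2]; exact h1
        · have : f.2 = v := by rw [← Prod.fst_swap, h2]
          rw [this]; exact hv1
    have g1 := key e he f hf hne u hue huf
    have g2 := key f hf e he hne.symm w hwf hwe
    have g3 : proj v ≠ proj u := by
      rcases hu with h2 | h2
      · rw [h2] at fe; exact fe
      · have h3 : e.1 = u := by rw [← Prod.snd_swap, h2]
        have h4 : e.2 = v := by rw [← Prod.fst_swap, h2]
        rw [h3, h4] at fe; exact fe.symm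
    have g4 : proj v ≠ proj w := by
      rcases hw with h2 | h2
      · rw [h2] at ff; exact ff
      · have h3 : f.1 = w := by rw [← Prod.snd_swap, h2]
        have h4 : f.2 = v := by rw [← Prod.fst_swap, h2]
        rw [h3, h4] at ff; exact ff.symm
    have g5 : pseg f = pseg (v, w) := by
      rcases hw with h2 | h2
      · rw [h2]
      · rw [← h2, pseg_swap]
    have g6 : pseg e = pseg (v, u) := by
      rcases hu with h2 | h2
      · rw [h2]
      · rw [← h2, pseg_swap]
    rw [g5] at g1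
    rw [g6] at g2
    have g7 := nc_share g3 g4 g1 g2
    rcases hu with h2 | h2 <;> rcases hw with h3 | h3
    · rw [h2, h3]; exact g7
    · rw [h2]; exact nc_swap_right (h3 ▸ g7)
    · rw [h3]; exact nc_swap_left (h2 ▸ g7)
    · exact nc_swap_left (nc_swap_right (h2 ▸ h3 ▸ g7))

lemma IsRegular.cross_iff {l : List R3} (h : IsRegular l) {e f : R3 × R3} (he : e ∈ edges l)
    (hf : f ∈ edges l) : Cross e f ↔ XR e f := by
  constructor
  · rintro ⟨hd, P, ⟨p, hp, hpP⟩, ⟨q, hq, hqP⟩⟩
    have hne : e ≠ f := by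
      rintro rfl
      rw [Set.disjoint_left] at hd
      exact hd (Or.inl rfl) (Or.inl rfl)
    rcases h.pair he hf hne with h1 | h1
    · obtain ⟨_, h2, h3⟩ := h1 p hp q hq (hpP.trans hqP.symm)
      exact absurd h3 (Set.disjoint_left.1 hd h2)
    · exact h1
  · intro h1
    exact ⟨Planar.XR.disjoint_ends h1, Planar.XR.meet h1⟩

lemma IsRegular.dia {l : List R3} (h : IsRegular l) : Dia l where
  knot := h.1
  flat e he := h.flat he
  pair e he f hf hne := h.pair he hf hne
  triple e he f hf g hg hef heg hfg := by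
    refine h.2.2 e he f hf g hg ?_ hfg ?_
    · rintro rfl; exact not_xr_self _ hef
    · rintro rfl; exact not_xr_self _ heg

end Pool.Agent.LinKnot
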