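import Pool.Agent.Lib.MP_188a32_co.Moves

/-!
# Planar lemmas on projections of edges
-/

set_option autoImplicit false

namespace Pool.Agent.LinKnot

open scoped Classical Topology

/-! ### The projection is linear -/

/-- The projection as a linear map. -/
def projL : R3 →ₗ[ℝ] ℝ × ℝ where
  toFun := proj
  map_add' _ _ := rfl
  map_smul' _ _ := rfl

@[simp] lemma projL_apply (p : R3) : projL p = proj p := rfl

lemma proj_add (p q : R3) : proj (p + q) = proj p + proj q := rfl
lemma proj_sub (p q : R3) : proj (p - q) = proj p - proj q := rfl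
lemma proj_smul (c : ℝ) (p : R3) : proj (c • p) = c • proj p := rfl

lemma pseg_eq (e : R3 × R3) : pseg e = segment ℝ (proj e.1) (proj e.2) := by
  unfold pseg seg
  exact image_segment ℝ projL.toAffineMap e.1 e.2

lemma proj_mem_pseg {e : R3 × R3} {p : R3} (h : p ∈ seg e) : proj p ∈ pseg e := ⟨p, h, rfl⟩

lemma proj_fst (p : R3) : (proj p).1 = p 0 := rfl
lemma proj_snd (p : R3) : (proj p).2 = p 1 := rfl

/-! ### Sides -/

lemma side_apply (e : R3 × R3) (p : R3) : side e p =
    (e.2 0 - e.1 0) * (p 1 - e.1 1) - (e.2 1 - e.1 1) * (p 0 - e.1 0) := rfl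

lemma side_congr (e : R3 × R3) {p q : R3} (h : proj p = proj q) : side e p = side e q := by
  unfold side; rw [h]

@[simp] lemma side_left (e : R3 × R3) : side e e.1 = 0 := by rw [side_apply]; ring
@[simp] lemma side_right (e : R3 × R3) : side e e.2 = 0 := by rw [side_apply]; ring
@[simp] lemma side_left' (a b : R3) : side (a, b) a = 0 := side_left (a, b)
@[simp] lemma side_right' (a b : R3) : side (a, b) b = 0 := side_right (a, b)

lemma side_combo (e : R3 × R3) (p q : R3) {a b : ℝ} (hab : a + b = 1) :
    side e (a • p + b • q) = a * side e p + b * side e q := by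
  have : b = 1 - a := by linarith
  subst this
  simp only [side_apply, Pi.add_apply, Pi.smul_apply, smul_eq_mul]
  ring

lemma side_swap (e : R3 × R3) (p : R3) : side e.swap p = - side e p := by
  simp only [side_apply, Prod.fst_swap, Prod.snd_swap]; ring

lemma side_mem_seg {e : R3 × R3} {p : R3} (hp : p ∈ seg e) : side e p = 0 := by
  obtain ⟨a, b, _, _, hab, rfl⟩ := hp
  rw [side_combo e _ _ hab]; simp

/-- A point of `f` lies on the nonnegative side of `h` if both ends of `f` do. -/
lemma side_nonneg_of_mem {h f : R3 × R3} {s : ℝ} (h1 : 0 ≤ s * side h f.1)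
    (h2 : 0 ≤ s * side h f.2) {p : R3} (hp : p ∈ seg f) : 0 ≤ s * side h p := by
  obtain ⟨a, b, ha, hb, hab, rfl⟩ := hp
  rw [side_combo h _ _ hab]
  have := mul_nonneg ha h1
  have := mul_nonneg hb h2
  nlinarith

lemma side_neg_of_mem {h f : R3 × R3} {s : ℝ} (h1 : s * side h f.1 < 0)
    (h2 : s * side h f.2 < 0) {p : R3} (hp : p ∈ seg f) : s * side h p < 0 := by
  obtain ⟨a, b, ha, hb, hab, rfl⟩ := hp
  rw [side_combo h _ _ hab]
  rcases ha.eq_or_lt with rfl | ha'
  · have : b = 1 := by linarith
    subst this; simpa using h2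
  · have := mul_neg_of_pos_of_neg ha' h1
    have := mul_nonpos_of_nonneg_of_nonpos hb h2.le
    nlinarith

/-! ### `NC` and `XR` -/

lemma NC.symm {e f : R3 × R3} (h : NC e f) : NC f e := by
  intro p hp q hq hpq
  obtain ⟨h1, h2, h3⟩ := h q hq p hp hpq.symm
  exact ⟨h1.symm, h1 ▸ h3, h1 ▸ h2⟩

lemma XR.symm {e f : R3 × R3} (h : XR e f) : XR f e := ⟨h.2, h.1⟩

lemma not_XR_self (e : R3 × R3) : ¬ XR e e := by
  rintro ⟨h, _⟩; simp at h

/-- Edges separated by a line do not meet. -/
lemma NC_of_sep {h e f : R3 × R3} {s : ℝ} (h1 : s * side h e.1 < 0) (h2 : s * side h e.2 < 0)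
    (h3 : 0 ≤ s * side h f.1) (h4 : 0 ≤ s * side h f.2) : NC e f := by
  intro p hp q hq hpq
  have k1 := side_neg_of_mem h1 h2 hp
  have k2 := side_nonneg_of_mem h3 h4 hq
  rw [side_congr h hpq] at k1
  linarith

lemma NC_of_disjoint {e f : R3 × R3} (h : Disjoint (pseg e) (pseg f)) : NC e f := by
  intro p hp q hq hpq
  exfalso
  exact Set.disjoint_left.1 h (proj_mem_pseg hp) (hpq ▸ proj_mem_pseg hq)

/-- Adjacent edges with independent directions. -/
lemma NC_adj {a v b : R3} (h : side (a, v) b ≠ 0) : NC (a, v) (v, b) := by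
  rintro p ⟨α, α', hα, hα', hαα, rfl⟩ q ⟨β, β', hβ, hβ', hββ, rfl⟩ hpq
  simp only at hpq ⊢
  have h1 := side_congr (a, v) hpq
  rw [side_combo _ _ _ hαα, side_combo _ _ _ hββ] at h1
  simp only [side_left', side_right', mul_zero, add_zero, zero_add] at h1
  have hβ0 : β' = 0 := by
    rcases mul_eq_zero.1 h1.symm with h' | h'
    · exact h'
    · exact absurd h' h
  have hβ1 : β = 1 := by linarith
  subst hβ0 hβ1
  have hα1 : α = 0 := by
    by_contra hne
    apply h
    have h2 : α • (proj a - proj v) = 0 := by
      have : proj (α • a + α' • v) = proj v := by rw [hpq]; simp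
      rw [proj_add, proj_smul, proj_smul] at this
      have h3 : α' = 1 - α := by linarith
      rw [h3] at this
      have h4 : α • (proj a - proj v) = (α • proj a + (1 - α) • proj v) - proj v := by module
      rw [h4, this, sub_self]
    have h5 : proj a = proj v := by
      rcases smul_eq_zero.1 h2 with h' | h'
      · exact absurd h' hne
      · exact sub_eq_zero.1 h'
    unfold side cross2
    simp [h5]
  subst hα1
  have : α' = 1 := by linarith
  subst this
  refine ⟨by simp, ?_, ?_⟩
  · right; simp
  · left; simp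

lemma NC_adj' {a v b : R3} (h : side (v, b) a ≠ 0) : NC (a, v) (v, b) := by
  apply NC_adj
  intro h'
  apply h
  simp only [side_apply] at h' ⊢
  linarith

/-- The crossing point of two properly crossing edges. -/
lemma XR.exists_point {e f : R3 × R3} (h : XR e f) : ∃ α ∈ Set.Ioo (0 : ℝ) 1, ∃ β ∈ Set.Ioo (0 : ℝ) 1,
    proj ((1 - α) • e.1 + α • e.2) = proj ((1 - β) • f.1 + β • f.2) := by
  obtain ⟨h1, h2⟩ := h
  set A := side e f.1 with hA
  set B := side e f.2 with hB
  set C := side f e.1 with hC
  set D := side f e.2 with hD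
  have hAB : A - B ≠ 0 := by intro h'; have : A = B := by linarith
                             rw [this] at h1; nlinarith [mul_self_nonneg B]
  have hCD : C - D ≠ 0 := by intro h'; have : C = D := by linarith
                             rw [this] at h2; nlinarith [mul_self_nonneg D]
  -- `C - D = - (A - B)` up to sign: both equal the cross product of the directions
  have key : C - D = -(A - B) ∨ C - D = A - B := by
    left
    simp only [hA, hB, hC, hD, side_apply]; ring
  have hposA : 0 < A / (A - B) ∧ A / (A - B) < 1 := by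
    rcases lt_or_gt_of_ne (show A ≠ 0 by rintro h'; rw [h'] at h1; simp at h1) with hA' | hA'
    · have hB' : 0 < B := by nlinarith
      constructor
      · exact div_pos_of_neg_of_neg hA' (by linarith)
      · rw [div_lt_one_of_neg (by linarith)]; linarith
    · have hB' : B < 0 := by nlinarith
      constructor
      · exact div_pos hA' (by linarith)
      · rw [div_lt_one (by linarith)]; linarith
  have hposC : 0 < C / (C - D) ∧ C / (C - D) < 1 := by
    rcases lt_or_gt_of_ne (show C ≠ 0 by rintro h'; rw [h'] at h2; simp at h2) with hC' | hC'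
    · have hD' : 0 < D := by nlinarith
      constructor
      · exact div_pos_of_neg_of_neg hC' (by linarith)
      · rw [div_lt_one_of_neg (by linarith)]; linarith
    · have hD' : D < 0 := by nlinarith
      constructor
      · exact div_pos hC' (by linarith)
      · rw [div_lt_one (by linarith)]; linarith
  refine ⟨C / (C - D), ⟨hposC.1, hposC.2⟩, A / (A - B), ⟨hposA.1, hposA.2⟩, ?_⟩
  have e1 : C / (C - D) = - C / (A - B) := by
    have : C - D = -(A - B) := by simp only [hA, hB, hC, hD, side_apply]; ring
    rw [this, div_neg, neg_div]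
  rw [e1]
  ext
  · simp only [proj_add, proj_smul, Prod.fst_add, Prod.smul_fst, proj_fst, smul_eq_mul]
    field_simp
    simp only [hA, hB, hC, side_apply]; ring
  · simp only [proj_add, proj_smul, Prod.snd_add, Prod.smul_snd, proj_snd, smul_eq_mul]
    field_simp
    simp only [hA, hB, hC, side_apply]; ring

lemma side_eq_of_param {e f : R3 × R3} {α : ℝ} :
    side f ((1 - α) • e.1 + α • e.2) = (1 - α) * side f e.1 + α * side f e.2 :=
  side_combo f _ _ (by ring)

/-- Uniqueness of the crossing point. -/
lemma XR.unique {e f : R3 × R3} (h : XR e f) {p q p' q' : R3} (hp : p ∈ seg e) (hq : q ∈ seg f)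
    (hpq : proj p = proj q) (hp' : p' ∈ seg e) (hq' : q' ∈ seg f) (hpq' : proj p' = proj q') :
    p = p' ∧ q = q' := by
  have key : ∀ {e f : R3 × R3}, XR e f → ∀ {p q p' q' : R3}, p ∈ seg e → q ∈ seg f →
      proj p = proj q → p' ∈ seg e → q' ∈ seg f → proj p' = proj q' → p = p' := by
    intro e f h p q p' q' hp hq hpq hp' hq' hpq'
    have h1 : side f p = 0 := by rw [side_congr f hpq]; exact side_mem_seg hq
    have h2 : side f p' = 0 := by rw [side_congr f hpq']; exact side_mem_seg hq'
    obtain ⟨a, b, ha, hb, hab, rfl⟩ := hp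
    obtain ⟨a', b', ha', hb', hab', rfl⟩ := hp'
    rw [side_combo f _ _ hab] at h1
    rw [side_combo f _ _ hab'] at h2
    have hne : side f e.1 ≠ side f e.2 := by
      intro h'
      have := h.2
      rw [h'] at this
      nlinarith [mul_self_nonneg (side f e.2)]
    have ea : a = 1 - b := by linarith
    have ea' : a' = 1 - b' := by linarith
    subst ea ea'
    have : (b - b') * (side f e.2 - side f e.1) = 0 := by linarith
    rcases mul_eq_zero.1 this with h' | h'
    · have : b = b' := by linarith
      rw [this]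
    · exact absurd (by linarith) hne
  exact ⟨key h hp hq hpq hp' hq' hpq', key h.symm hq hp hpq.symm hq' hp' hpq'.symm⟩

lemma XR.disjoint_ends {e f : R3 × R3} (h : XR e f) : Disjoint (ends e) (ends f) := by
  rw [Set.disjoint_left]
  rintro p (rfl | rfl) (h' | h')
  · have := h.1; rw [← h'] at this; simp at this
  · have := h.1; rw [← h'] at this; simp at this
  · have := h.1; rw [← h'] at this; simp at this
  · have := h.1; rw [← h'] at this; simp at this

/-- `NC` and `XR` exclude each other. -/
lemma NC.not_XR {e f : R3 × R3} (h : NC e f) : ¬ XR e f := by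
  intro h'
  obtain ⟨α, hα, β, hβ, hp⟩ := h'.exists_point
  have hpe : (1 - α) • e.1 + α • e.2 ∈ seg e := ⟨1 - α, α, by linarith [hα.2], hα.1.le, by ring, rfl⟩
  have hqf : (1 - β) • f.1 + β • f.2 ∈ seg f := ⟨1 - β, β, by linarith [hβ.2], hβ.1.le, by ring, rfl⟩
  obtain ⟨h1, h2, h3⟩ := h _ hpe _ hqf hp
  exact Set.disjoint_left.1 h'.disjoint_ends h2 h3

end Pool.Agent.LinKnot
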