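import Pool.Agent.Lib.MP_188a32_co.StateLemmas

/-!
# Replacing an arc of a state
-/

set_option autoImplicit false

namespace Pool.Agent.LinKnot

open scoped Classical Topology

lemma flat_inj {e : R3 × R3} (h : proj e.1 ≠ proj e.2) {p q : R3} (hp : p ∈ seg e)
    (hq : q ∈ seg e) (hpq : proj p = proj q) : p = q := by
  obtain ⟨a, b, ha, hb, hab, rfl⟩ := hp
  obtain ⟨a', b', ha', hb', hab', rfl⟩ := hq
  have ea : a = 1 - b := by linarith
  have ea' : a' = 1 - b' := by linarith
  subst ea ea'
  have h1 : (b - b') • (proj e.2 - proj e.1) = 0 := by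
    have : (b - b') • (proj e.2 - proj e.1)
        = proj ((1 - b) • e.1 + b • e.2) - proj ((1 - b') • e.1 + b' • e.2) := by
      simp only [proj_add, proj_smul]; module
    rw [this, hpq, sub_self]
  have h2 : b = b' := by
    rcases smul_eq_zero.1 h1 with h' | h'
    · linarith
    · exact absurd (sub_eq_zero.1 h').symm h
  rw [h2]

/-- A point of an outer edge and a point of an inner edge over the same point are equal. -/
lemma outer_inner_eq {e f : R3 × R3} (he : TypeOK e) (hf : TypeOK f) (hoe : OuterE e)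
    (hif : InnerE f) (haxe : ∀ p ∈ ends e, p 1 = 0 → p 2 = 0)
    (haxf : ∀ p ∈ ends f, p 1 = 0 → p 2 = 0) {p q : R3} (hp : p ∈ seg e) (hq : q ∈ seg f)
    (hpq : proj p = proj q) : p = q := by
  have h1 : p 1 = q 1 := congrArg Prod.snd hpq
  have h2 := outer_nonneg hoe hp
  have h3 := inner_nonpos hif hq
  have hp0 : p 1 = 0 := by linarith
  have hq0 : q 1 = 0 := by linarith
  apply eq_of_proj_eq hpq
  rw [haxe p (he.mem_ends hp hp0) hp0, haxf q (hf.mem_ends hq hq0) hq0]

/-- Recognising overpasses in states. -/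
lemma overArc_of {x y : R3} {σ τ : List R3} (hS : State (x :: σ ++ y :: τ))
    (h1 : ∀ e ∈ pathEdges (x :: σ ++ [y]), ∀ f ∈ pathEdges (x :: σ ++ [y]), OuterE e → OuterE f →
      ¬ XR e f)
    (h2 : ∀ e ∈ pathEdges (x :: σ ++ [y]), ∀ f ∈ pathEdges (y :: τ ++ [x]), OuterE e → OuterE f →
      XR e f → Above e f)
    (h3 : ∀ P ∈ x :: σ ++ [y], ∀ Q ∈ y :: τ ++ [x], P 1 < 0 → Q 1 < 0 → P 2 * Q 1 < Q 2 * P 1)
    (h4 : ∀ P ∈ x :: σ ++ [y], ∀ Q ∈ x :: σ ++ [y], P 1 < 0 → Q 1 < 0 → P = Q) :
    OverArc x σ y τ := by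
  have hE : edges (x :: σ ++ y :: τ) = pathEdges (x :: σ ++ [y]) ++ pathEdges (y :: τ ++ [x]) :=
    edges_two_paths _ _ _ _
  have m1 : ∀ e ∈ pathEdges (x :: σ ++ [y]), e ∈ edges (x :: σ ++ y :: τ) := by
    intro e he; rw [hE]; exact List.mem_append_left _ he
  have m2 : ∀ e ∈ pathEdges (y :: τ ++ [x]), e ∈ edges (x :: σ ++ y :: τ) := by
    intro e he; rw [hE]; exact List.mem_append_right _ he
  have hax : ∀ e ∈ edges (x :: σ ++ y :: τ), ∀ p ∈ ends e, p 1 = 0 → p 2 = 0 :=
    fun e he p hp => hS.axis p (ends_subset_of_mem_edges he hp)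
  have hnd := nodup_edges hS.knot.nodup
  rw [hE, List.nodup_append] at hnd
  refine ⟨?_, ?_⟩
  · intro e he f hf p hp q hq hpq
    have he' := m1 e he
    have hf' := m1 f hf
    have te : TypeOK e := hS.types e he'
    have tf : TypeOK f := hS.types f hf'
    rcases te.cases with hoe | hie <;> rcases tf.cases with hof | hif
    · by_cases hef : e = f
      · subst hef; exact flat_inj (hS.flat e he' hoe) hp hq hpq
      · rcases hS.pair e he' f hf' hoe hof hef with h | h
        · exact (h p hp q hq hpq).1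
        · exact absurd h (h1 e he f hf hoe hof)
    · exact outer_inner_eq te tf hoe hif (hax e he') (hax f hf') hp hq hpq
    · exact (outer_inner_eq tf te hof hie (hax f hf') (hax e he') hq hp hpq.symm).symm
    · obtain ⟨P, hP, hP1, hPs⟩ := hie.exists_page (hax e he')
      obtain ⟨Q, hQ, hQ1, hQs⟩ := hif.exists_page (hax f hf')
      have hPQ := h4 P (ends_subset_of_mem_pathEdges he hP) Q (ends_subset_of_mem_pathEdges hf hQ)
        hP1 hQ1
      subst hPQ
      apply eq_of_proj_eq hpq
      have e1 : p 1 = q 1 := congrArg Prod.snd hpq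
      have e2 := hPs p hp
      have e3 := hQs q hq
      rw [e1, ← e3] at e2
      exact mul_right_cancel₀ hP1.ne e2
  · intro e he f hf p hp q hq hpq
    have he' := m1 e he
    have hf' := m2 f hf
    have te : TypeOK e := hS.types e he'
    have tf : TypeOK f := hS.types f hf'
    have hef : e ≠ f := by
      rintro rfl
      exact hnd.2.2 e he e hf rfl
    rcases te.cases with hoe | hie <;> rcases tf.cases with hof | hif
    · rcases hS.pair e he' f hf' hoe hof hef with h | h
      · exact Or.inr (h p hp q hq hpq).1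
      · exact h2 e he f hf hoe hof h p hp q hq hpq
    · exact Or.inr (outer_inner_eq te tf hoe hif (hax e he') (hax f hf') hp hq hpq)
    · exact Or.inr (outer_inner_eq tf te hof hie (hax f hf') (hax e he') hq hp hpq.symm).symm
    · obtain ⟨P, hP, hP1, hPs⟩ := hie.exists_page (hax e he')
      obtain ⟨Q, hQ, hQ1, hQs⟩ := hif.exists_page (hax f hf')
      have hPQ := h3 P (ends_subset_of_mem_pathEdges he hP) Q (ends_subset_of_mem_pathEdges hf hQ)
        hP1 hQ1
      have e1 : p 1 = q 1 := congrArg Prod.snd hpq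
      have e2 := hPs p hp
      have e3 := hQs q hq
      have hpn := inner_nonpos hie hp
      rcases hpn.eq_or_lt with h0 | hneg
      · right
        have hq0 : q 1 = 0 := by rw [← e1]; exact h0
        apply eq_of_proj_eq hpq
        rw [hax e he' p (te.mem_ends hp h0) h0, hax f hf' q (tf.mem_ends hq hq0) hq0]
      · left
        -- heights in two different pages
        have hPQpos : 0 < P 1 * Q 1 := mul_pos_of_neg_of_neg hP1 hQ1
        have k1 : (q 2 - p 2) * (P 1 * Q 1) = (Q 2 * P 1 - P 2 * Q 1) * p 1 := by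
          have : q 2 * Q 1 = Q 2 * p 1 := by rw [e3, e1]
          have hh : q 2 * (P 1 * Q 1) = Q 2 * P 1 * p 1 := by
            calc q 2 * (P 1 * Q 1) = (q 2 * Q 1) * P 1 := by ring
              _ = _ := by rw [this]; ring
          have hh' : p 2 * (P 1 * Q 1) = P 2 * Q 1 * p 1 := by
            calc p 2 * (P 1 * Q 1) = (p 2 * P 1) * Q 1 := by ring
              _ = _ := by rw [e2]; ring
          linear_combination hh - hh'
        have k2 : (Q 2 * P 1 - P 2 * Q 1) * p 1 < 0 :=
          mul_neg_of_pos_of_neg (by linarith) hneg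
        by_contra hcon
        push Not at hcon
        have : 0 ≤ (q 2 - p 2) * (P 1 * Q 1) := mul_nonneg (by linarith) hPQpos.le
        linarith

/-- Replacing the inner vertices `M` of an arc from `x` to `y` by new vertices `N`. -/
lemma preState_replace {x y : R3} {M N ρ : List R3} (hS : State (x :: M ++ y :: ρ))
    (hlen : 3 ≤ (x :: N ++ y :: ρ).length)
    (hN : N.Nodup) (hNd : ∀ v ∈ N, v ∉ x :: y :: ρ)
    (hax : ∀ v ∈ N, v 1 = 0 → v 2 = 0)
    (hty : ∀ e ∈ pathEdges (x :: N ++ [y]), TypeOK e)
    (hpg : ∀ p ∈ N, p 1 < 0 → ∀ q ∈ x :: N ++ y :: ρ, p ≠ q → q 1 < 0 → p 2 * q 1 ≠ q 2 * p 1)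
    (hbd : ∀ e ∈ edges (x :: N ++ y :: ρ), ∀ f ∈ edges (x :: N ++ y :: ρ),
      (e ∈ pathEdges (x :: N ++ [y]) ∨ f ∈ pathEdges (x :: N ++ [y])) → e.2 = f.1 → e.2 1 = 0 →
        ¬ (0 < e.1 1 ∧ 0 < f.2 1))
    (hfl : ∀ e ∈ pathEdges (x :: N ++ [y]), OuterE e → proj e.1 ≠ proj e.2)
    (hp1 : ∀ e ∈ pathEdges (x :: N ++ [y]), ∀ f ∈ pathEdges (x :: N ++ [y]), OuterE e → OuterE f →
      e ≠ f → NC e f)
    (hp2 : ∀ e ∈ pathEdges (x :: N ++ [y]), ∀ f ∈ pathEdges (y :: ρ ++ [x]), OuterE e → OuterE f →
      NC e f ∨ (XR e f ∧ Disjoint (seg e) (seg f) ∧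
        (∀ g ∈ pathEdges (y :: ρ ++ [x]), OuterE g → ¬ XR f g) ∧
        (∀ g ∈ pathEdges (x :: N ++ [y]), OuterE g → XR f g → g = e) ∧
        ∀ g ∈ pathEdges (y :: ρ ++ [x]), OuterE g → XR e g → g = f)) :
    PreState (x :: N ++ y :: ρ) := by
  have hE : edges (x :: N ++ y :: ρ) = pathEdges (x :: N ++ [y]) ++ pathEdges (y :: ρ ++ [x]) :=
    edges_two_paths _ _ _ _
  have hE0 : edges (x :: M ++ y :: ρ) = pathEdges (x :: M ++ [y]) ++ pathEdges (y :: ρ ++ [x]) :=
    edges_two_paths _ _ _ _
  have mO : ∀ e ∈ pathEdges (y :: ρ ++ [x]), e ∈ edges (x :: M ++ y :: ρ) := by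
    intro e he; rw [hE0]; exact List.mem_append_right _ he
  have hxy : ∀ v ∈ x :: y :: ρ, v ∈ x :: M ++ y :: ρ := by
    intro v hv
    simp only [List.mem_cons, List.cons_append, List.mem_append] at hv ⊢
    tauto
  have hmem : ∀ v, v ∈ x :: N ++ y :: ρ ↔ v ∈ N ∨ v ∈ x :: y :: ρ := by
    intro v
    simp only [List.mem_cons, List.cons_append, List.mem_append]
    tauto
  have hnd0 := hS.knot.nodup
  have hpre := hS.pre
  refine ⟨hlen, ?_, ?_, ?_, ?_, ?_, ?_, ?_, ?_, ?_⟩
  · -- nodup
    have h1 : (x :: y :: ρ).Nodup := by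
      have h2 : (x :: y :: ρ).Sublist (x :: M ++ y :: ρ) := by
        rw [List.cons_append]
        exact List.Sublist.cons_cons x (List.sublist_append_right _ _)
      exact hnd0.sublist h2
    have hx : x ∉ N := fun h => hNd x h (by simp)
    simp only [List.cons_append, List.nodup_cons, List.mem_append, List.mem_cons, not_or] at h1 ⊢
    refine ⟨⟨hx, h1.1⟩, ?_⟩
    rw [List.nodup_append]
    refine ⟨hN, by simpa using h1.2, ?_⟩
    rintro a ha b hb rfl
    exact hNd a ha (List.mem_cons_of_mem _ hb)
  · intro p hp h0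
    rcases (hmem p).1 hp with h | h
    · exact hax p h h0
    · exact hS.axis p (hxy p h) h0
  · intro e he
    rw [hE, List.mem_append] at he
    rcases he with h | h
    · exact hty e h
    · exact hS.types e (mO e h)
  · intro p hp q hq hne hp1 hq1
    rcases (hmem p).1 hp with h | h
    · exact hpg p h hp1 q hq hne hq1
    · rcases (hmem q).1 hq with h' | h'
      · exact fun e => hpg q h' hq1 p hp hne.symm hp1 e.symm
      · exact hS.pages p (hxy p h) q (hxy q h') hne hp1 hq1
  · intro e he f hf h1 h2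
    have he' := he
    have hf' := hf
    rw [hE, List.mem_append] at he' hf'
    rcases he' with h | h
    · exact hbd e he f hf (Or.inl h) h1 h2
    · rcases hf' with h' | h'
      · exact hbd e he f hf (Or.inr h') h1 h2
      · exact hS.bind e (mO e h) f (mO f h') h1 h2
  · intro e he
    rw [hE, List.mem_append] at he
    rcases he with h | h
    · exact hfl e h
    · exact hS.flat e (mO e h)
  · intro e he f hf hoe hof hne
    rw [hE, List.mem_append] at he hf
    rcases he with h | h <;> rcases hf with h' | h'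
    · exact Or.inl (hp1 e h f h' hoe hof hne)
    · rcases hp2 e h f h' hoe hof with h'' | h''
      · exact Or.inl h''
      · exact Or.inr h''.1
    · rcases hp2 f h' e h hof hoe with h'' | h''
      · exact Or.inl h''.symm
      · exact Or.inr h''.1.symm
    · exact hS.pair e (mO e h) f (mO f h') hoe hof hne
  · -- single
    intro e he f hf g hg hoe hof hog hef heg
    rw [hE, List.mem_append] at he hf hg
    have hnn : ∀ a ∈ pathEdges (x :: N ++ [y]), ∀ b ∈ pathEdges (x :: N ++ [y]), OuterE a →
        OuterE b → ¬ XR a b := by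
      intro a ha b hb hoa hob hab
      by_cases hne : a = b
      · subst hne; exact not_XR_self a hab
      · exact (hp1 a ha b hb hoa hob hne).not_XR hab
    rcases he with h | h
    · rcases hf with h' | h'
      · exact absurd hef (hnn e h f h' hoe hof)
      · rcases hg with h'' | h''
        · exact absurd heg (hnn e h g h'' hoe hog)
        · rcases hp2 e h f h' hoe hof with k | k
          · exact absurd hef k.not_XR
          · exact (k.2.2.2.2 g h'' hog heg).symm
    · rcases hf with h' | h'
      · rcases hp2 f h' e h hof hoe with k | k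
        · exact absurd hef.symm k.not_XR
        · rcases hg with h'' | h''
          · exact (k.2.2.2.1 g h'' hog heg).symm
          · exact absurd heg (k.2.2.1 g h'' hog)
      · rcases hg with h'' | h''
        · rcases hp2 g h'' e h hog hoe with k | k
          · exact absurd heg.symm k.not_XR
          · exact absurd hef (k.2.2.1 f h' hof)
        · exact hS.single e (mO e h) f (mO f h') g (mO g h'') hoe hof hog hef heg
  · -- disj
    intro e he f hf hoe hof hx
    rw [hE, List.mem_append] at he hf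
    have hnn : ∀ a ∈ pathEdges (x :: N ++ [y]), ∀ b ∈ pathEdges (x :: N ++ [y]), OuterE a →
        OuterE b → ¬ XR a b := by
      intro a ha b hb hoa hob hab
      by_cases hne : a = b
      · subst hne; exact not_XR_self a hab
      · exact (hp1 a ha b hb hoa hob hne).not_XR hab
    rcases he with h | h <;> rcases hf with h' | h'
    · exact absurd hx (hnn e h f h' hoe hof)
    · rcases hp2 e h f h' hoe hof with k | k
      · exact absurd hx k.not_XR
      · exact k.2.1
    · rcases hp2 f h' e h hof hoe with k | k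
      · exact absurd hx.symm k.not_XR
      · exact k.2.1.symm
    · exact hpre.disj e (mO e h) f (mO f h') hoe hof hx

end Pool.Agent.LinKnot
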