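import Pool.Agent.Lib.MP_188a32_co.FirstState

/-!
# Task F: shears, and a diagram with a unique lowest vertex
-/

set_option autoImplicit false

namespace Pool.Agent.LinKnot

open scoped Classical

namespace Planar

/-- `(x, y, z) ↦ (x, y + ε x + c, z)` -/
noncomputable def shear (ε c : ℝ) : R3 →ᵃ[ℝ] R3 :=
  (Matrix.toLin' !![1, 0, 0; ε, 1, 0; 0, 0, 1]).toAffineMap + AffineMap.const ℝ R3 ![0, c, 0]

lemma shear_zero (ε c : ℝ) (p : R3) : shear ε c p 0 = p 0 := by
  simp [shear, Matrix.toLin'_apply, dotProduct, Fin.sum_univ_three]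

lemma shear_one (ε c : ℝ) (p : R3) : shear ε c p 1 = p 1 + ε * p 0 + c := by
  simp [shear, Matrix.toLin'_apply, dotProduct, Fin.sum_univ_three]
  ring

lemma shear_two (ε c : ℝ) (p : R3) : shear ε c p 2 = p 2 := by
  simp [shear, Matrix.toLin'_apply, dotProduct, Fin.sum_univ_three]

lemma shear_det (ε c : ℝ) : 0 < LinearMap.det (shear ε c).linear := by
  have : (shear ε c).linear = Matrix.toLin' !![1, 0, 0; ε, 1, 0; 0, 0, 1] := by
    unfold shear; simp
  rw [this, LinearMap.det_toLin', Matrix.det_fin_three]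
  simp

lemma shear_injective (ε c : ℝ) : Function.Injective (shear ε c) := by
  intro p q h
  have h0 : p 0 = q 0 := by
    have : shear ε c p 0 = shear ε c q 0 := by rw [h]
    rwa [shear_zero, shear_zero] at this
  have h2 : p 2 = q 2 := by
    have : shear ε c p 2 = shear ε c q 2 := by rw [h]
    rwa [shear_two, shear_two] at this
  have h1 : p 1 = q 1 := by
    have : shear ε c p 1 = shear ε c q 1 := by rw [h]
    rw [shear_one, shear_one, h0] at this
    linarith
  funext i
  fin_cases i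
  · exact h0
  · exact h1
  · exact h2

lemma proj_shear (ε c : ℝ) (p q : R3) : proj (shear ε c p) = proj (shear ε c q) ↔
    proj p = proj q := by
  rw [proj_eq_iff, proj_eq_iff, shear_zero, shear_zero, shear_one, shear_one]
  constructor
  · rintro ⟨h1, h2⟩
    rw [h1] at h2
    exact ⟨h1, by linarith⟩
  · rintro ⟨h1, h2⟩
    exact ⟨h1, by rw [h1, h2]⟩

lemma side_shear (ε c : ℝ) (e : R3 × R3) (p : R3) :
    side (Prod.map (shear ε c) (shear ε c) e) (shear ε c p) = side e p := by
  rw [side_eq, side_eq]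
  simp only [Prod.map_fst, Prod.map_snd, shear_zero, shear_one]
  ring

lemma xr_shear (ε c : ℝ) (e f : R3 × R3) :
    XR (Prod.map (shear ε c) (shear ε c) e) (Prod.map (shear ε c) (shear ε c) f) ↔ XR e f := by
  unfold XR
  have h := side_shear ε c
  rw [show (Prod.map (shear ε c) (shear ε c) f).1 = shear ε c f.1 from rfl,
    show (Prod.map (shear ε c) (shear ε c) f).2 = shear ε c f.2 from rfl,
    show (Prod.map (shear ε c) (shear ε c) e).1 = shear ε c e.1 from rfl,
    show (Prod.map (shear ε c) (shear ε c) e).2 = shear ε c e.2 from rfl, h, h, h, h]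

lemma nc_shear (ε c : ℝ) {e f : R3 × R3} (h : NC e f) :
    NC (Prod.map (shear ε c) (shear ε c) e) (Prod.map (shear ε c) (shear ε c) f) := by
  intro p hp q hq hpq
  rw [seg_map] at hp hq
  obtain ⟨p, hp, rfl⟩ := hp
  obtain ⟨q, hq, rfl⟩ := hq
  obtain ⟨k1, k2, k3⟩ := h p hp q hq ((proj_shear ε c p q).1 hpq)
  subst k1
  rw [ends_map, ends_map]
  exact ⟨rfl, Set.mem_image_of_mem _ k2, Set.mem_image_of_mem _ k3⟩

lemma dia_shear (ε c : ℝ) {l : List R3} (h : Dia l) : Dia (l.map (shear ε c)) where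
  knot := h.knot.map _ (shear_injective ε c)
  flat e he := by
    rw [edges_map, List.mem_map] at he
    obtain ⟨e, he, rfl⟩ := he
    exact fun h1 => h.flat e he ((proj_shear ε c _ _).1 h1)
  pair e he f hf hne := by
    rw [edges_map, List.mem_map] at he hf
    obtain ⟨e, he, rfl⟩ := he
    obtain ⟨f, hf, rfl⟩ := hf
    rcases h.pair e he f hf (fun h1 => hne (by rw [h1])) with h1 | h1
    · exact Or.inl (nc_shear ε c h1)
    · exact Or.inr ((xr_shear ε c e f).2 h1)
  triple e he f hf g hg hef heg hfg := by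
    rw [edges_map, List.mem_map] at he hf hg
    obtain ⟨e, he, rfl⟩ := he
    obtain ⟨f, hf, rfl⟩ := hf
    obtain ⟨g, hg, rfl⟩ := hg
    rw [xr_shear] at hef heg
    have h1 := h.triple e he f hf g hg hef heg (fun h1 => hfg (by rw [h1]))
    rw [Set.eq_empty_iff_forall_notMem] at h1 ⊢
    rintro P ⟨⟨⟨p, hp, hpP⟩, ⟨q, hq, hqP⟩⟩, ⟨s, hs, hsP⟩⟩
    rw [seg_map] at hp hq hs
    obtain ⟨p, hp, rfl⟩ := hp
    obtain ⟨q, hq, rfl⟩ := hq
    obtain ⟨s, hs, rfl⟩ := hs
    apply h1 (proj p)
    exact ⟨⟨⟨p, hp, rfl⟩, ⟨q, hq, ((proj_shear ε c _ _).1 (hqP.trans hpP.symm))⟩⟩,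
      ⟨s, hs, ((proj_shear ε c _ _).1 (hsP.trans hpP.symm))⟩⟩

lemma cx_shear (ε c : ℝ) (E : List (R3 × R3)) (e : R3 × R3) :
    cx (E.map (Prod.map (shear ε c) (shear ε c))) (Prod.map (shear ε c) (shear ε c) e) = cx E e := by
  unfold cx
  rw [List.countP_map]
  congr 1
  funext f
  simp only [Function.comp_apply]
  rw [decide_eq_decide]
  exact xr_shear ε c e f

lemma cnt_shear (ε c : ℝ) (l : List R3) : cnt (edges (l.map (shear ε c))) = cnt (edges l) := by
  unfold cnt
  rw [edges_map, List.map_map]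
  congr 1
  apply List.map_congr_left
  intro e _
  exact cx_shear ε c _ e

lemma mes_shear (ε c : ℝ) (l : List R3) : mes (edges (l.map (shear ε c))) = mes (edges l) := by
  unfold mes
  rw [edges_map, List.map_map]
  congr 1
  apply List.map_congr_left
  intro e _
  simp only [Function.comp_apply]
  rw [cx_shear]

/-- the vertices of a diagram have different projections -/
lemma dia_proj_inj {l : List R3} (h : Dia l) {p q : R3} (hp : p ∈ l) (hq : q ∈ l)
    (hpq : proj p = proj q) : p = q := by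
  by_contra hne
  obtain ⟨e, he, rfl⟩ := exists_edge_fst hp
  obtain ⟨f, hf, rfl⟩ := exists_edge_fst hq
  have hef : e ≠ f := fun h => hne (by rw [h])
  rcases h.pair e he f hf hef with h1 | h1
  · exact hne (h1 _ (left_mem_seg e) _ (left_mem_seg f) hpq).1
  · have h2 := h1.2
    rw [side_congr hpq, side_fst] at h2
    simp at h2

lemma exists_low {l : List R3} (h : Dia l) : ∃ ε c : ℝ, ∃ v ∈ l, shear ε c v 1 < 0 ∧
    ∀ p ∈ l, p ≠ v → 0 < shear ε c p 1 := by
  -- a generic direction
  let B : Finset ℝ := (l.toFinset ×ˢ l.toFinset).image fun x => (x.2 1 - x.1 1) / (x.1 0 - x.2 0)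
  obtain ⟨ε, hε⟩ := Infinite.exists_notMem_finset B
  have hinj : ∀ p ∈ l, ∀ q ∈ l, p 1 + ε * p 0 = q 1 + ε * q 0 → p = q := by
    intro p hp q hq h1
    by_cases h0 : p 0 = q 0
    · apply dia_proj_inj h hp hq
      rw [proj_eq_iff]
      refine ⟨h0, ?_⟩
      rw [h0] at h1
      linarith
    · exfalso
      apply hε
      rw [Finset.mem_image]
      refine ⟨(p, q), ?_, ?_⟩
      · rw [Finset.mem_product, List.mem_toFinset, List.mem_toFinset]
        exact ⟨hp, hq⟩
      · simp only
        rw [div_eq_iff (sub_ne_zero.2 h0)]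
        linarith
  -- the lowest vertex
  have hne : l.toFinset.Nonempty := by
    obtain ⟨x, hx⟩ := List.exists_mem_of_length_pos (l := l) (by have := h.knot.length; omega)
    exact ⟨x, List.mem_toFinset.2 hx⟩
  obtain ⟨v, hv, hmin⟩ := Finset.exists_min_image l.toFinset (fun p => p 1 + ε * p 0) hne
  rw [List.mem_toFinset] at hv
  have hlt : ∀ p ∈ l, p ≠ v → v 1 + ε * v 0 < p 1 + ε * p 0 := by
    intro p hp hpv
    refine lt_of_le_of_ne (hmin p (List.mem_toFinset.2 hp)) (fun h1 => hpv ?_)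
    exact (hinj v hv p hp h1).symm
  -- a height between the lowest and the other vertices
  obtain ⟨m, hm1, hm2⟩ : ∃ m, v 1 + ε * v 0 < m ∧ ∀ p ∈ l, p ≠ v → m < p 1 + ε * p 0 := by
    by_cases hS : (l.toFinset.erase v).Nonempty
    · obtain ⟨w, hw, hmin'⟩ := Finset.exists_min_image _ (fun p => p 1 + ε * p 0) hS
      rw [Finset.mem_erase, List.mem_toFinset] at hw
      obtain ⟨m, hm1, hm2⟩ := exists_between (hlt w hw.2 hw.1)
      refine ⟨m, hm1, fun p hp hpv => hm2.trans_le (hmin' p ?_)⟩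
      rw [Finset.mem_erase, List.mem_toFinset]
      exact ⟨hpv, hp⟩
    · rw [Finset.not_nonempty_iff_eq_empty] at hS
      refine ⟨v 1 + ε * v 0 + 1, by linarith, fun p hp hpv => ?_⟩
      have : p ∈ l.toFinset.erase v := by
        rw [Finset.mem_erase, List.mem_toFinset]; exact ⟨hpv, hp⟩
      rw [hS] at this
      simp at this
  refine ⟨ε, -m, v, hv, ?_, fun p hp hpv => ?_⟩
  · rw [shear_one]; linarith
  · rw [shear_one]
    have := hm2 p hp hpv
    linarith

end Planar

end Pool.Agent.LinKnot
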