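import Pool.Agent.Lib.MP_188a32_co.PlanarG

/-!
# Lemmas on states
-/

set_option autoImplicit false

namespace Pool.Agent.LinKnot

open scoped Classical Topology

/-! ### Splitting lists at edges -/

lemma exists_split_of_mem_pathEdges : ∀ {m : List R3} {e : R3 × R3}, e ∈ pathEdges m →
    ∃ t1 t2, m = t1 ++ e.1 :: e.2 :: t2
  | [], e, h => by simp at h
  | [a], e, h => by simp at h
  | a :: b :: t, e, h => by
    rw [pathEdges_cons_cons] at h
    rcases List.mem_cons.1 h with rfl | h
    · exact ⟨[], t, rfl⟩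
    · obtain ⟨t1, t2, h'⟩ := exists_split_of_mem_pathEdges h
      exact ⟨a :: t1, t2, by rw [h']; rfl⟩

lemma mem_pathEdges_of_split (t1 : List R3) (a b : R3) (t2 : List R3) :
    (a, b) ∈ pathEdges (t1 ++ a :: b :: t2) := by
  rw [pathEdges_append]; simp

/-- Every edge can be rotated to the front. -/
lemma exists_rotate_of_mem_edges {l : List R3} {e : R3 × R3} (hl : 2 ≤ l.length)
    (h : e ∈ edges l) : ∃ n t, l.rotate n = e.1 :: e.2 :: t := by
  cases l with
  | nil => simp [edges] at h
  | cons x t =>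
    rw [edges_cons] at h
    obtain ⟨s1, s2, hs⟩ := exists_split_of_mem_pathEdges h
    rcases List.eq_nil_or_concat s2 with rfl | ⟨s2', z, rfl⟩
    · have h1 : x :: t ++ [x] = (s1 ++ [e.1]) ++ [e.2] := by rw [hs]; simp
      have h2 := List.append_inj' h1 (by simp)
      have h3 : x :: t = s1 ++ [e.1] := h2.1
      have h4 : x = e.2 := by simpa using h2.2
      cases s1 with
      | nil =>
        exfalso
        simp only [List.nil_append, List.cons.injEq] at h3
        rw [h3.2] at hl; simp at hl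
      | cons c s1 =>
        simp only [List.cons_append, List.cons.injEq] at h3
        refine ⟨(c :: s1).length, s1, ?_⟩
        rw [show x :: t = (c :: s1) ++ [e.1] by rw [h3.2, h3.1]; rfl,
          List.rotate_append_length_eq, ← h4, h3.1]; rfl
    · have h1 : x :: t ++ [x] = (s1 ++ e.1 :: e.2 :: s2') ++ [z] := by
        rw [hs]; simp
      have h2 := List.append_inj' h1 (by simp)
      have h3 : x :: t = s1 ++ e.1 :: e.2 :: s2' := h2.1
      refine ⟨s1.length, s2' ++ s1, ?_⟩
      rw [h3, List.rotate_append_length_eq]; rfl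

lemma not_mem_edges_swap {l : List R3} (hnd : l.Nodup) (hl : 3 ≤ l.length) {a b : R3}
    (h : (a, b) ∈ edges l) : (b, a) ∉ edges l := by
  obtain ⟨n, t, ht⟩ := exists_rotate_of_mem_edges (by omega) h
  rw [← mem_edges_rotate (n := n), ht]
  have hnd' : (a :: b :: t).Nodup := by rw [← ht]; simpa using hnd
  have hl' : 3 ≤ (a :: b :: t).length := by rw [← ht]; simpa using hl
  cases t with
  | nil => simp at hl'
  | cons c t =>
    intro h'
    have h1 : (b, c) ∈ edges (a :: b :: c :: t) := by
      rw [edges_cons_cons]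
      simp
    have := edges_eq_of_fst hnd' h' h1 rfl
    simp only [Prod.mk.injEq, true_and] at this
    rw [this] at hnd'
    simp at hnd'

/-! ### Types of edges -/

/-- The possible types of edges in a state. -/
def TypeOK (e : R3 × R3) : Prop := (0 < e.1 1 ∧ 0 < e.2 1) ∨ (0 < e.1 1 ∧ e.2 1 = 0) ∨
    (e.1 1 = 0 ∧ 0 < e.2 1) ∨ (e.1 1 < 0 ∧ e.2 1 = 0) ∨ (e.1 1 = 0 ∧ e.2 1 < 0)

/-- An edge between an axis point and a page point. -/
def InnerE (e : R3 × R3) : Prop := (e.1 1 < 0 ∧ e.2 1 = 0) ∨ (e.1 1 = 0 ∧ e.2 1 < 0)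

lemma TypeOK.cases {e : R3 × R3} (h : TypeOK e) : OuterE e ∨ InnerE e := by
  unfold OuterE InnerE
  rcases h with h | h | h | h | h
  · exact Or.inl ⟨h.1.le, h.2.le⟩
  · exact Or.inl ⟨h.1.le, h.2.ge⟩
  · exact Or.inl ⟨h.1.ge, h.2.le⟩
  · exact Or.inr (Or.inl h)
  · exact Or.inr (Or.inr h)

lemma InnerE.not_outer {e : R3 × R3} (h : InnerE e) : ¬ OuterE e := by
  rintro ⟨h1, h2⟩
  rcases h with h | h
  · linarith [h.1]
  · linarith [h.2]

lemma outer_nonneg {e : R3 × R3} (h : OuterE e) {p : R3} (hp : p ∈ seg e) : 0 ≤ p 1 := by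
  obtain ⟨a, b, ha, hb, _, rfl⟩ := hp
  simp only [Pi.add_apply, Pi.smul_apply, smul_eq_mul]
  have := mul_nonneg ha h.1
  have := mul_nonneg hb h.2
  linarith

lemma inner_nonpos {e : R3 × R3} (h : InnerE e) {p : R3} (hp : p ∈ seg e) : p 1 ≤ 0 := by
  obtain ⟨a, b, ha, hb, _, rfl⟩ := hp
  simp only [Pi.add_apply, Pi.smul_apply, smul_eq_mul]
  rcases h with ⟨h1, h2⟩ | ⟨h1, h2⟩
  · rw [h2]; nlinarith
  · rw [h1]; nlinarith

/-- A point with `y = 0` on an edge is an end. -/
lemma TypeOK.mem_ends {e : R3 × R3} (h : TypeOK e) {p : R3} (hp : p ∈ seg e) (h0 : p 1 = 0) :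
    p ∈ ends e := by
  obtain ⟨a, b, ha, hb, hab, rfl⟩ := hp
  simp only [Pi.add_apply, Pi.smul_apply, smul_eq_mul] at h0
  have key : a = 0 ∨ b = 0 := by
    rcases h with ⟨h1, h2⟩ | ⟨h1, h2⟩ | ⟨h1, h2⟩ | ⟨h1, h2⟩ | ⟨h1, h2⟩
    · left
      have := mul_nonneg ha h1.le
      have h3 := mul_nonneg hb h2.le
      have h4 : a * e.1 1 = 0 := by linarith
      rcases mul_eq_zero.1 h4 with h | h
      · exact h
      · exact absurd h h1.ne'
    · left
      rw [h2] at h0
      rcases mul_eq_zero.1 (show a * e.1 1 = 0 by linarith) with h | h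
      · exact h
      · exact absurd h h1.ne'
    · right
      rw [h1] at h0
      rcases mul_eq_zero.1 (show b * e.2 1 = 0 by linarith) with h | h
      · exact h
      · exact absurd h h2.ne'
    · left
      rw [h2] at h0
      rcases mul_eq_zero.1 (show a * e.1 1 = 0 by linarith) with h | h
      · exact h
      · exact absurd h h1.ne
    · right
      rw [h1] at h0
      rcases mul_eq_zero.1 (show b * e.2 1 = 0 by linarith) with h | h
      · exact h
      · exact absurd h h2.ne
  rcases key with rfl | rfl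
  · have : b = 1 := by linarith
    subst this
    right; simp
  · have : a = 1 := by linarith
    subst this
    left; simp

/-- The page point of an inner edge. -/
lemma InnerE.exists_page {e : R3 × R3} (h : InnerE e) (hax : ∀ p ∈ ends e, p 1 = 0 → p 2 = 0) :
    ∃ P ∈ ends e, P 1 < 0 ∧ ∀ p ∈ seg e, p 2 * P 1 = P 2 * p 1 := by
  rcases h with ⟨h1, h2⟩ | ⟨h1, h2⟩
  · refine ⟨e.1, Or.inl rfl, h1, ?_⟩
    rintro p ⟨a, b, ha, hb, hab, rfl⟩
    have h3 := hax e.2 (Or.inr rfl) h2
    simp only [Pi.add_apply, Pi.smul_apply, smul_eq_mul, h2, h3]; ring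
  · refine ⟨e.2, Or.inr rfl, h2, ?_⟩
    rintro p ⟨a, b, ha, hb, hab, rfl⟩
    have h3 := hax e.1 (Or.inl rfl) h1
    simp only [Pi.add_apply, Pi.smul_apply, smul_eq_mul, h1, h3]; ring

lemma eq_of_proj_eq {p q : R3} (h : proj p = proj q) (h2 : p 2 = q 2) : p = q := by
  have h0 : p 0 = q 0 := congrArg Prod.fst h
  have h1 : p 1 = q 1 := congrArg Prod.snd h
  funext i
  fin_cases i
  · exact h0
  · exact h1
  · exact h2

/-- Everything in a state except the knot property, plus disjointness of crossing edges. -/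
structure PreState (l : List R3) : Prop where
  len : 3 ≤ l.length
  nodup : l.Nodup
  axis : ∀ p ∈ l, p 1 = 0 → p 2 = 0
  types : ∀ e ∈ edges l, TypeOK e
  pages : ∀ p ∈ l, ∀ q ∈ l, p ≠ q → p 1 < 0 → q 1 < 0 → p 2 * q 1 ≠ q 2 * p 1
  bind : ∀ e ∈ edges l, ∀ f ∈ edges l, e.2 = f.1 → e.2 1 = 0 → ¬ (0 < e.1 1 ∧ 0 < f.2 1)
  flat : ∀ e ∈ edges l, OuterE e → proj e.1 ≠ proj e.2
  pair : ∀ e ∈ edges l, ∀ f ∈ edges l, OuterE e → OuterE f → e ≠ f → NC e f ∨ XR e f
  single : ∀ e ∈ edges l, ∀ f ∈ edges l, ∀ g ∈ edges l, OuterE e → OuterE f → OuterE g →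
    XR e f → XR e g → f = g
  disj : ∀ e ∈ edges l, ∀ f ∈ edges l, OuterE e → OuterE f → XR e f → Disjoint (seg e) (seg f)

lemma ends_subset_of_mem_edges {l : List R3} {e : R3 × R3} (he : e ∈ edges l) {p : R3}
    (hp : p ∈ ends e) : p ∈ l := by
  rcases hp with rfl | rfl
  · exact (mem_of_mem_edges he).1
  · exact (mem_of_mem_edges he).2

lemma ends_subset_of_mem_pathEdges {l : List R3} {e : R3 × R3} (he : e ∈ pathEdges l) {p : R3}
    (hp : p ∈ ends e) : p ∈ l := by
  rcases hp with rfl | rfl
  · exact (mem_of_mem_pathEdges he).1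
  · exact (mem_of_mem_pathEdges he).2

/-- Two different inner edges meet at most in a common end. -/
lemma inner_good {l : List R3} (hlen : 3 ≤ l.length) (hnd : l.Nodup)
    (hax : ∀ p ∈ l, p 1 = 0 → p 2 = 0) (hty : ∀ e ∈ edges l, TypeOK e)
    (hpg : ∀ p ∈ l, ∀ q ∈ l, p ≠ q → p 1 < 0 → q 1 < 0 → p 2 * q 1 ≠ q 2 * p 1)
    {e f : R3 × R3} (he : e ∈ edges l) (hf : f ∈ edges l) (hie : InnerE e) (hif : InnerE f)
    (hne : e ≠ f) : seg e ∩ seg f ⊆ ends e ∩ ends f := by
  rintro p ⟨hpe, hpf⟩
  by_cases h0 : p 1 = 0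
  · exact ⟨(hty e he).mem_ends hpe h0, (hty f hf).mem_ends hpf h0⟩
  obtain ⟨P, hP, hP1, hPs⟩ := hie.exists_page (fun p hp => hax p (ends_subset_of_mem_edges he hp))
  obtain ⟨Q, hQ, hQ1, hQs⟩ := hif.exists_page (fun p hp => hax p (ends_subset_of_mem_edges hf hp))
  have hPQ : P = Q := by
    by_contra hPQ
    apply hpg P (ends_subset_of_mem_edges he hP) Q (ends_subset_of_mem_edges hf hQ) hPQ hP1 hQ1
    have h1 := hPs p hpe
    have h2 := hQs p hpf
    have h3 : (P 2 * Q 1 - Q 2 * P 1) * p 1 = 0 := by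
      have : P 2 * p 1 * Q 1 = p 2 * P 1 * Q 1 := by rw [h1]
      have : Q 2 * p 1 * P 1 = p 2 * Q 1 * P 1 := by rw [h2]
      nlinarith
    rcases mul_eq_zero.1 h3 with h | h
    · linarith
    · exact absurd h h0
  subst hPQ
  -- the other ends
  have hother : ∀ {g : R3 × R3}, g ∈ edges l → InnerE g → P ∈ ends g → ∃ s, s 1 = 0 ∧
      (g = (s, P) ∨ g = (P, s)) := by
    intro g hg hig hPg
    rcases hPg with h | h
    · refine ⟨g.2, ?_, Or.inr (by rw [h])⟩
      rcases hig with h' | h'
      · exact h'.2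
      · rw [h] at hP1; linarith [h'.1]
    · have h : P = g.2 := h
      refine ⟨g.1, ?_, Or.inl (by rw [h])⟩
      rcases hig with h' | h'
      · rw [h] at hP1; linarith [h'.2]
      · exact h'.1
  obtain ⟨s, hs, hes⟩ := hother he hie hP
  obtain ⟨s', hs', hfs⟩ := hother hf hif hQ
  have hss : s ≠ s' := by
    rintro rfl
    rcases hes with rfl | rfl <;> rcases hfs with rfl | rfl
    · exact hne rfl
    · exact not_mem_edges_swap hnd hlen he hf
    · exact not_mem_edges_swap hnd hlen he hf
    · exact hne rfl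
  have hpar : ∀ {g : R3 × R3} {s : R3}, (g = (s, P) ∨ g = (P, s)) → p ∈ seg g →
      ∃ β : ℝ, p = (1 - β) • s + β • P := by
    intro g s hg hpg
    rcases hg with rfl | rfl
    · obtain ⟨a, b, ha, hb, hab, rfl⟩ := hpg
      exact ⟨b, by rw [show 1 - b = a by linarith]⟩
    · obtain ⟨a, b, ha, hb, hab, rfl⟩ := hpg
      exact ⟨a, by rw [show 1 - a = b by linarith, add_comm]⟩
  obtain ⟨β, hβ⟩ := hpar hes hpe
  obtain ⟨γ, hγ⟩ := hpar hfs hpf
  have h1 : β = γ := by
    have e1 : p 1 = β * P 1 := by rw [hβ]; simp [hs]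
    have e2 : p 1 = γ * P 1 := by
      conv_lhs => rw [hγ]
      simp [hs']
    have : (β - γ) * P 1 = 0 := by linarith
    rcases mul_eq_zero.1 this with h | h
    · linarith
    · exact absurd h hP1.ne
  subst h1
  have h2 : (1 - β) • (s - s') = 0 := by
    have : (1 - β) • (s - s') = ((1 - β) • s + β • P) - ((1 - β) • s' + β • P) := by module
    rw [this, ← hβ, ← hγ, sub_self]
  have h3 : β = 1 := by
    rcases smul_eq_zero.1 h2 with h | h
    · linarith
    · exact absurd (sub_eq_zero.1 h) hss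
  have : p = P := by rw [hβ, h3]; simp
  rw [this]; exact ⟨hP, hQ⟩

lemma PreState.knot {l : List R3} (h : PreState l) : IsKnot l := by
  rw [isKnot_iff]
  refine ⟨h.len, h.nodup, fun e he f hf hne => ?_⟩
  rcases (h.types e he).cases with hoe | hie <;> rcases (h.types f hf).cases with hof | hif
  · rcases h.pair e he f hf hoe hof hne with h1 | h1
    · rintro p ⟨hpe, hpf⟩
      exact (h1 p hpe p hpf rfl).2
    · rintro p ⟨hpe, hpf⟩
      exact absurd hpf (Set.disjoint_left.1 (h.disj e he f hf hoe hof h1) hpe)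
  · rintro p ⟨hpe, hpf⟩
    have h0 : p 1 = 0 := le_antisymm (inner_nonpos hif hpf) (outer_nonneg hoe hpe)
    exact ⟨(h.types e he).mem_ends hpe h0, (h.types f hf).mem_ends hpf h0⟩
  · rintro p ⟨hpe, hpf⟩
    have h0 : p 1 = 0 := le_antisymm (inner_nonpos hie hpe) (outer_nonneg hof hpf)
    exact ⟨(h.types e he).mem_ends hpe h0, (h.types f hf).mem_ends hpf h0⟩
  · exact inner_good h.len h.nodup h.axis h.types h.pages he hf hie hif hne

lemma PreState.state {l : List R3} (h : PreState l) : State l :=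
  ⟨h.knot, h.axis, h.types, h.pages, h.bind, h.flat, h.pair, h.single⟩

lemma State.pre {l : List R3} (h : State l) : PreState l where
  len := h.knot.length
  nodup := h.knot.nodup
  axis := h.axis
  types := h.types
  pages := h.pages
  bind := h.bind
  flat := h.flat
  pair := h.pair
  single := h.single
  disj := by
    intro e he f hf hoe hof hx
    have hne : e ≠ f := by rintro rfl; exact not_XR_self e hx
    rw [Set.disjoint_left]
    intro p hpe hpf
    have := h.knot.good he hf hne ⟨hpe, hpf⟩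
    exact Set.disjoint_left.1 hx.disjoint_ends this.1 this.2

/-! ### Rotation -/

lemma PreState.rotate {l : List R3} (h : PreState l) (n : ℕ) : PreState (l.rotate n) where
  len := by simpa using h.len
  nodup := by simpa using h.nodup
  axis := by simpa using h.axis
  types := by simpa using h.types
  pages := by simpa using h.pages
  bind := by
    intro e he f hf
    exact h.bind e (by simpa using he) f (by simpa using hf)
  flat := by
    intro e he
    exact h.flat e (by simpa using he)
  pair := by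
    intro e he f hf
    exact h.pair e (by simpa using he) f (by simpa using hf)
  single := by
    intro e he f hf g hg
    exact h.single e (by simpa using he) f (by simpa using hf) g (by simpa using hg)
  disj := by
    intro e he f hf
    exact h.disj e (by simpa using he) f (by simpa using hf)

lemma State.rotate {l : List R3} (h : State l) (n : ℕ) : State (l.rotate n) :=
  (h.pre.rotate n).state

lemma state_append_comm {s t : List R3} (h : State (s ++ t)) : State (t ++ s) := by
  rw [← List.rotate_append_length_eq s t]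
  exact h.rotate _

lemma nIn_rotate (l : List R3) (n : ℕ) : nIn (l.rotate n) = nIn l := by
  unfold nIn
  exact ((List.rotate_perm l n).filter _).length_eq

lemma nOut_rotate (l : List R3) (n : ℕ) : nOut (l.rotate n) = nOut l := by
  unfold nOut
  rw [edges_rotate]
  exact ((List.rotate_perm _ n).filter _).length_eq

lemma nX_rotate (l : List R3) (n : ℕ) : nX (l.rotate n) = nX l := by
  unfold nX
  simp only [mem_edges_rotate]
  rw [edges_rotate]
  exact ((List.rotate_perm _ n).filter _).length_eq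

lemma nIn_append_comm (s t : List R3) : nIn (t ++ s) = nIn (s ++ t) := by
  rw [← List.rotate_append_length_eq s t, nIn_rotate]
lemma nOut_append_comm (s t : List R3) : nOut (t ++ s) = nOut (s ++ t) := by
  rw [← List.rotate_append_length_eq s t, nOut_rotate]
lemma nX_append_comm (s t : List R3) : nX (t ++ s) = nX (s ++ t) := by
  rw [← List.rotate_append_length_eq s t, nX_rotate]

end Pool.Agent.LinKnot
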