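import Pool.Agent.Lib.MP_188a32_co.Bottom

/-!
# Task F: every diagram gives a first state (conditional on Tasks D, E)
-/

set_option autoImplicit false

namespace Pool.Agent.LinKnot

open scoped Classical

namespace Planar

lemma mes_split_le {x y : R3} {r : ℝ} {T : List (R3 × R3)} (h0 : 0 < r) (h1 : r < 1)
    (hT : ∀ e ∈ T, proj (pt (x, y) r) ∉ pseg e) :
    mes ((x, pt (x, y) r) :: (pt (x, y) r, y) :: T) ≤ mes ((x, y) :: T) := by
  unfold mes
  rw [List.map_cons, List.map_cons, List.map_cons, List.sum_cons, List.sum_cons, List.sum_cons]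
  have e1 := cx_sum h0 h1 hT
  have e4 : (T.map fun e => cx ((x, pt (x, y) r) :: (pt (x, y) r, y) :: T) e - 1) =
      T.map fun e => cx ((x, y) :: T) e - 1 := by
    apply List.map_congr_left
    intro e he
    rw [cx_split h0 h1 (hT e he)]
  rw [e4]
  omega

lemma exists_small (L : List R3) (h : ∀ p ∈ L, 0 < p 1) : ∃ a : ℝ, 0 < a ∧ ∀ p ∈ L, a < p 1 := by
  induction L with
  | nil => exact ⟨1, one_pos, by simp⟩
  | cons q L ih =>
    obtain ⟨a, ha, h1⟩ := ih (fun p hp => h p (List.mem_cons_of_mem _ hp))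
    have hq := h q (by simp)
    refine ⟨min a (q 1 / 2), lt_min ha (by linarith), fun p hp => ?_⟩
    rcases List.mem_cons.1 hp with rfl | hp
    · exact (min_le_right _ _).trans_lt (by linarith)
    · exact (min_le_left _ _).trans_lt (h1 p hp)

lemma dia_append_comm {s t : List R3} (h : Dia (s ++ t)) : Dia (t ++ s) := by
  rw [← List.rotate_append_length_eq s t]
  exact h.rotate _

lemma edges_append_comm_perm (s t : List R3) : (edges (t ++ s)).Perm (edges (s ++ t)) := by
  rw [← List.rotate_append_length_eq s t]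
  exact edges_rotate_perm _ _

lemma upper_ht {u : R3} {s : List R3} {a : ℝ} (hs : ∀ p ∈ s, a < p 1) (hu : a < u 1)
    {e : R3 × R3} (he : e ∈ pathEdges (s ++ [u])) : ∀ q ∈ seg e, q 1 ≠ a := by
  intro q hq
  obtain ⟨h1, h2⟩ := mem_pathEdges_snoc he
  refine ht_ne (hs _ h1) ?_ hq
  rcases h2 with h2 | h2
  · exact hs _ h2
  · rw [h2]; exact hu

lemma pull1 {u v w : R3} {t : List R3} (h : Dia (u :: v :: w :: t)) (hv : v 1 < 0)
    (hpos : ∀ p ∈ u :: w :: t, 0 < p 1) (hmes : mes (edges (u :: v :: w :: t)) = 0)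
    (hover : ∀ (x y : R3) (σ σ' τ : List R3), IsKnot (x :: σ ++ y :: τ) →
      IsKnot (x :: σ' ++ y :: τ) → OverArc x σ y τ → OverArc x σ' y τ →
      Isotopic (x :: σ ++ y :: τ) (x :: σ' ++ y :: τ)) :
    ∃ l', State l' ∧ Isotopic (u :: v :: w :: t) l' ∧ nIn l' = 1 ∧ nOut l' = 1 ∧
      nX l' = cnt (edges (u :: v :: w :: t)) := by
  obtain ⟨a, ha, hlt⟩ := exists_small _ hpos
  have hu : a < u 1 := hlt u (by simp)
  have hw : a < w 1 := hlt w (by simp)
  have hwt : ∀ p ∈ w :: t, a < p 1 := fun p hp => hlt p (List.mem_cons_of_mem _ hp)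
  have hE : edges (u :: v :: w :: t) = (u, v) :: (v, w) :: pathEdges (w :: t ++ [u]) :=
    edges_insert u v w t
  have m1 : (u, v) ∈ edges (u :: v :: w :: t) := by rw [hE]; simp
  have m2 : (v, w) ∈ edges (u :: v :: w :: t) := by rw [hE]; simp
  have huv : u ≠ v := by rintro rfl; linarith
  have c12 : NC (u, v) (v, w) := by
    rcases h.pair _ m1 _ m2 (fun h1 => huv (Prod.ext_iff.1 h1).1) with h1 | h1
    · exact h1
    · exact absurd (XR.disjoint_ends h1) (Set.not_disjoint_iff.2 ⟨v, Or.inr rfl, Or.inl rfl⟩)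
  -- the first subdivision
  have huv' : 0 < u 1 - v 1 := by linarith
  have hwv' : 0 < w 1 - v 1 := by linarith
  set r₁ := (u 1 - a) / (u 1 - v 1) with hr₁
  set r₂ := (a - v 1) / (w 1 - v 1) with hr₂
  have a1 : 0 < r₁ := div_pos (by linarith) huv'
  have a2 : r₁ < 1 := by rw [hr₁, div_lt_one huv']; linarith
  have b1 : 0 < r₂ := div_pos (by linarith) hwv'
  have b2 : r₂ < 1 := by rw [hr₂, div_lt_one hwv']; linarith
  set x := pt (u, v) r₁ with hx
  set y := pt (v, w) r₂ with hy
  have hx1 : x 1 = a := by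
    rw [hx, pt_apply]; simp only; rw [hr₁]; field_simp; ring
  have hy1 : y 1 = a := by
    rw [hy, pt_apply]; simp only; rw [hr₂]; field_simp; ring
  have hxe : x ∉ ends (u, v) := by
    rintro (h1 | h1)
    · rw [h1] at hx1; simp only at hx1; linarith
    · rw [Set.mem_singleton_iff] at h1; rw [h1] at hx1; simp only at hx1; linarith
  have hye : y ∉ ends (v, w) := by
    rintro (h1 | h1)
    · rw [h1] at hy1; simp only at hy1; linarith
    · rw [Set.mem_singleton_iff] at h1; rw [h1] at hy1; simp only at hy1; linarith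
  have hxs : x ∈ seg (u, v) := pt_mem_seg _ a1.le a2.le
  have hys : y ∈ seg (v, w) := pt_mem_seg _ b1.le b2.le
  have hT1 : ∀ e ∈ pathEdges (v :: (w :: t) ++ [u]), proj x ∉ pseg e := by
    intro e he
    simp only [List.cons_append, pathEdges_cons_cons, List.mem_cons] at he
    rintro ⟨q, hq, hqx⟩
    rcases he with rfl | he
    · exact hxe (c12 x hxs q hq hqx.symm).2.1
    · exact upper_ht (s := w :: t) hwt hu he q hq ((proj_one hqx).trans hx1)
  obtain ⟨D1, I1⟩ := h.subdivide a1 a2 hT1
  -- the second subdivision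
  have D2 : Dia (v :: w :: (t ++ [u, x])) := by
    have := dia_append_comm (s := [u, x]) (t := v :: w :: t) D1
    simpa using this
  have I2 : Isotopic (u :: x :: v :: w :: t) (v :: w :: (t ++ [u, x])) := by
    have := isotopic_append_comm [u, x] (v :: w :: t)
    simpa using this
  have P2 : (edges (v :: w :: (t ++ [u, x]))).Perm (edges (u :: x :: v :: w :: t)) := by
    have := edges_append_comm_perm [u, x] (v :: w :: t)
    simpa using this
  have hT2 : ∀ e ∈ pathEdges (w :: (t ++ [u, x]) ++ [v]), proj y ∉ pseg e := by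
    intro e he
    have e1 : w :: (t ++ [u, x]) ++ [v] = (w :: t) ++ u :: [x, v] := by simp
    rw [e1, pathEdges_append, List.mem_append] at he
    rintro ⟨q, hq, hqy⟩
    rcases he with he | he
    · exact upper_ht (s := w :: t) hwt hu he q hq ((proj_one hqy).trans hy1)
    · simp only [pathEdges_cons_cons, pathEdges_single, List.mem_cons, List.not_mem_nil,
        or_false] at he
      rcases he with rfl | rfl
      · have h1 : q ∈ seg (u, v) := seg_half1 u v a1.le a2.le hq
        exact hye ((c12 q h1 y hys hqy).1 ▸ (c12 q h1 y hys hqy).2.2)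
      · have h1 : q ∈ seg (u, v) := seg_half2 u v a1.le a2.le hq
        exact hye ((c12 q h1 y hys hqy).1 ▸ (c12 q h1 y hys hqy).2.2)
  obtain ⟨D3, I3⟩ := D2.subdivide b1 b2 hT2
  have D4 : Dia (x :: v :: y :: (w :: t ++ [u])) := by
    have := dia_append_comm (s := v :: y :: w :: (t ++ [u])) (t := [x])
      (by simpa using D3)
    simpa using this
  have I4 : Isotopic (v :: y :: w :: (t ++ [u, x])) (x :: v :: y :: (w :: t ++ [u])) := by
    have := isotopic_append_comm (v :: y :: w :: (t ++ [u])) [x]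
    simpa using this
  have P4 : (edges (x :: v :: y :: (w :: t ++ [u]))).Perm (edges (v :: y :: w :: (t ++ [u, x]))) := by
    have := edges_append_comm_perm (v :: y :: w :: (t ++ [u])) [x]
    simpa using this
  have hE0 : edges (u :: v :: w :: t) = (u, v) :: pathEdges (v :: (w :: t) ++ [u]) :=
    edges_cons_cons _ _ _
  have hE1 : edges (u :: x :: v :: w :: t) =
      (u, x) :: (x, v) :: pathEdges (v :: (w :: t) ++ [u]) := edges_insert u x v (w :: t)
  have hE2 : edges (v :: w :: (t ++ [u, x])) = (v, w) :: pathEdges (w :: (t ++ [u, x]) ++ [v]) :=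
    edges_cons_cons _ _ _
  have hE3 : edges (v :: y :: w :: (t ++ [u, x])) =
      (v, y) :: (y, w) :: pathEdges (w :: (t ++ [u, x]) ++ [v]) := edges_insert v y w _
  have hcnt : cnt (edges (x :: v :: y :: (w :: t ++ [u]))) = cnt (edges (u :: v :: w :: t)) := by
    rw [cnt_perm P4, hE3, cnt_split b1 b2 hT2, ← hE2, cnt_perm P2, hE1, cnt_split a1 a2 hT1, hE0]
  have hmes' : mes (edges (x :: v :: y :: (w :: t ++ [u]))) = 0 := by
    apply Nat.eq_zero_of_le_zero
    rw [← hmes, mes_perm P4, hE3]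
    refine (mes_split_le b1 b2 hT2).trans ?_
    rw [← hE2, mes_perm P2, hE1]
    refine (mes_split_le a1 a2 hT1).trans ?_
    rw [hE0]
  obtain ⟨l', k1, k2, k3, k4, k5⟩ := pull2 D4 (by simp) ha hx1 hy1 hv (by
    intro p hp
    rw [List.mem_append, List.mem_singleton] at hp
    rcases hp with hp | rfl
    · exact hwt p hp
    · exact hu) hmes' hover
  exact ⟨l', k1, I1.trans (I2.trans (I3.trans (I4.trans k2))), k3, k4, k5.trans hcnt⟩

theorem exists_state_of
    (hover : ∀ (x y : R3) (σ σ' τ : List R3), IsKnot (x :: σ ++ y :: τ) →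
      IsKnot (x :: σ' ++ y :: τ) → OverArc x σ y τ → OverArc x σ' y τ →
      Isotopic (x :: σ ++ y :: τ) (x :: σ' ++ y :: τ))
    (haff : ∀ (T : R3 →ᵃ[ℝ] R3), 0 < LinearMap.det T.linear → ∀ {l : List R3}, IsKnot l →
      Isotopic l (l.map T))
    {l : List R3} {k : ℕ} (h : IsDiagram l k) :
    ∃ l', State l' ∧ Isotopic l l' ∧ nIn l' = 1 ∧ nOut l' = 1 ∧ nX l' = 2 * k := by
  have hc := cnt_of_isDiagram h
  obtain ⟨l₁, D1, I1, C1, M1⟩ := exists_mes_zero _ l h.1.dia rfl
  obtain ⟨ε, c, v, hv, hv1, hv2⟩ := exists_low D1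
  have D2 := dia_shear ε c D1
  have I2 := haff (shear ε c) (shear_det ε c) D1.knot
  have C2 := cnt_shear ε c l₁
  have M2 := mes_shear ε c l₁
  set l₂ := l₁.map (shear ε c) with hl₂
  have hv' : shear ε c v ∈ l₂ := List.mem_map_of_mem hv
  have hpos : ∀ p ∈ l₂, p ≠ shear ε c v → 0 < p 1 := by
    intro p hp hpv
    obtain ⟨q, hq, rfl⟩ := List.mem_map.1 hp
    exact hv2 q hq (fun h1 => hpv (by rw [h1]))
  obtain ⟨e, he, he2⟩ := exists_edge_snd hv'
  obtain ⟨n, t, hn⟩ := exists_rotate (by have := D2.knot.length; omega) he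
  have D3 := D2.rotate n
  have I3 := isotopic_rotate l₂ n
  have P3 := edges_rotate_perm l₂ n
  rw [hn, he2] at D3 I3 P3
  match t, D3, I3, P3, hn with
  | [], D3, _, _, _ => exact absurd D3.knot.length (by simp)
  | w :: t, D3, I3, P3, hn =>
    have hnd := D3.knot.nodup
    obtain ⟨l', k1, k2, k3, k4, k5⟩ := pull1 D3 hv1 (by
      intro p hp
      apply hpos p
      · have : p ∈ l₂.rotate n := by
          rw [hn, he2]
          simp only [List.mem_cons] at hp ⊢
          tauto
        simpa using this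
      · rintro rfl
        simp only [List.nodup_cons, List.mem_cons, not_or] at hnd hp
        rcases hp with hp | hp | hp
        · exact hnd.1.1 hp.symm
        · exact hnd.2.1.1 hp
        · exact hnd.2.1.2 hp) (by rw [mes_perm P3, M2, M1]) hover
    refine ⟨l', k1, I1.trans (I2.trans (I3.trans k2)), k3, k4, ?_⟩
    rw [k5, cnt_perm P3, C2, C1, hc]

end Planar

end Pool.Agent.LinKnot
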