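import Pool.Agent.Lib.MP_188a32_co.Legs

/-!
# Step A: absorbing a crossing next to the axis
-/

set_option autoImplicit false

namespace Pool.Agent.LinKnot

open scoped Classical Topology
open Filter

lemma filter_length_lt_of_imp {α : Type} (l : List α) (p q : α → Prop) [DecidablePred p]
    [DecidablePred q] (h : ∀ x ∈ l, p x → q x) {a : α} (ha : a ∈ l) (hq : q a) (hp : ¬ p a) :
    (l.filter fun x => p x).length + 1 ≤ (l.filter fun x => q x).length := by
  induction l with
  | nil => simp at ha
  | cons b l ih =>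
    have h' : ∀ x ∈ l, p x → q x := fun x hx => h x (List.mem_cons_of_mem _ hx)
    by_cases hab : a ∈ l
    · have ih' := ih h' hab
      by_cases hpb : p b
      · have hqb := h b (by simp) hpb
        simp only [List.filter_cons, hpb, hqb, decide_true, if_true, List.length_cons]
        omega
      · by_cases hqb : q b
        · simp only [List.filter_cons, hpb, hqb, decide_true, decide_false, if_true,
            Bool.false_eq_true, if_false, List.length_cons]
          omega
        · simpa [List.filter_cons, hpb, hqb] using ih'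
    · have hb : b = a := by
        rcases List.mem_cons.1 ha with h | h
        · exact h.symm
        · exact absurd h hab
      subst hb
      have := filter_length_le_of_imp l p q h'
      simp only [List.filter_cons, hp, hq, decide_true, decide_false, if_true,
        Bool.false_eq_true, if_false, List.length_cons]
      omega

lemma pt_one_pos {e : R3 × R3} (te : TypeOK e) (hoe : OuterE e) {t : ℝ} (h0 : 0 < t) (h1 : t < 1) :
    0 < pt e t 1 := by
  have hn := outer_nonneg hoe (pt_mem_seg h0.le h1.le)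
  rcases hn.eq_or_lt with h | h
  · exfalso
    have h2 := te.mem_ends (pt_mem_seg h0.le h1.le) h.symm
    rcases h2 with h2 | h2
    · have hne : e.1 ≠ e.2 := by
        intro he
        rcases te with h | h | h | h | h <;> rw [he] at h <;> [skip; linarith [h.1, h.2]; linarith [h.1, h.2]; linarith [h.1, h.2]; linarith [h.1, h.2]]
        -- both ends positive: then the point is positive
        have : pt e t 1 = e.2 1 := by
          unfold pt
          rw [he]; simp only [Pi.add_apply, Pi.smul_apply, smul_eq_mul]; ring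
        linarith [h.1]
      have : pt e t = pt e 0 := by rw [pt_zero]; exact h2
      rw [eq_pt_iff hne] at this
      exact h0.ne' this
    · have hne : e.1 ≠ e.2 := by
        intro he
        rcases te with h | h | h | h | h <;> rw [he] at h <;> [skip; linarith [h.1, h.2]; linarith [h.1, h.2]; linarith [h.1, h.2]; linarith [h.1, h.2]]
        have : pt e t 1 = e.2 1 := by
          unfold pt
          rw [he]; simp only [Pi.add_apply, Pi.smul_apply, smul_eq_mul]; ring
        linarith [h.1]
      have : pt e t = pt e 1 := by rw [pt_one]; exact h2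
      rw [eq_pt_iff hne] at this
      exact h1.ne this
  · exact h

end Pool.Agent.LinKnot

namespace Pool.Agent.LinKnot

open scoped Classical Topology
open Filter

/-- The data of the two legs of a detour. -/
structure LegData (L : List R3) (e f : R3 × R3) (θ D ε : ℝ) (A B : R3) : Prop where
  h0 : 0 < ε
  h1 : 0 < θ - ε
  h2 : θ + ε < 1
  legA : ∀ g ∈ edges L, OuterE g → g ≠ e → g ≠ f → f.1 ∉ ends g →
    Disjoint (pseg (pt e (θ - ε), A)) (pseg g)
  legB : ∀ g ∈ edges L, OuterE g → g ≠ e → g ≠ f → f.1 ∉ ends g →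
    Disjoint (pseg (pt e (θ + ε), B)) (pseg g)
  sideA : 0 < side e A * side e f.1
  sideB : 0 < side e B * side e f.1
  sA : D * side f A < 0
  sX : D * side f (pt e (θ - ε)) < 0
  sB : 0 < D * side f B
  sY : 0 < D * side f (pt e (θ + ε))
  sE1 : D * side f e.1 < 0
  sE2 : 0 < D * side f e.2

lemma pseg_swap (a b : R3) : pseg (a, b) = pseg (b, a) := by
  unfold pseg
  rw [← seg_swap]; rfl

lemma NC.swap_left {a b : R3} {g : R3 × R3} (h : NC (a, b) g) : NC (b, a) g := by
  intro p hp q hq hpq
  have hp' : p ∈ seg (a, b) := by rw [← seg_swap] at hp; exact hp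
  obtain ⟨k1, k2, k3⟩ := h p hp' q hq hpq
  refine ⟨k1, ?_, k3⟩
  rw [← ends_swap]; exact k2

namespace LegData

variable {L : List R3} {e f : R3 × R3} {θ D ε : ℝ} {A B : R3}

lemma nc_E1_f (h : LegData L e f θ D ε A B) : NC (e.1, pt e (θ - ε)) f :=
  NC_of_sep (h := f) (s := D) h.sE1 h.sX (by simp) (by simp)

lemma nc_E2_f (h : LegData L e f θ D ε A B) : NC (pt e (θ - ε), A) f :=
  NC_of_sep (h := f) (s := D) h.sX h.sA (by simp) (by simp)

lemma nc_E4_f (h : LegData L e f θ D ε A B) : NC (B, pt e (θ + ε)) f :=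
  NC_of_sep (h := f) (s := -D) (by simpa using h.sB) (by simpa using h.sY) (by simp) (by simp)

lemma nc_E5_f (h : LegData L e f θ D ε A B) : NC (pt e (θ + ε), e.2) f :=
  NC_of_sep (h := f) (s := -D) (by simpa using h.sY) (by simpa using h.sE2) (by simp) (by simp)

lemma nc_E1_E4 (h : LegData L e f θ D ε A B) : NC (e.1, pt e (θ - ε)) (B, pt e (θ + ε)) :=
  NC_of_sep (h := f) (s := D) h.sE1 h.sX h.sB.le h.sY.le

lemma nc_E1_E5 (h : LegData L e f θ D ε A B) : NC (e.1, pt e (θ - ε)) (pt e (θ + ε), e.2) :=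
  NC_of_sep (h := f) (s := D) h.sE1 h.sX h.sY.le h.sE2.le

lemma nc_E2_E4 (h : LegData L e f θ D ε A B) : NC (pt e (θ - ε), A) (B, pt e (θ + ε)) :=
  NC_of_sep (h := f) (s := D) h.sX h.sA h.sB.le h.sY.le

lemma nc_E2_E5 (h : LegData L e f θ D ε A B) : NC (pt e (θ - ε), A) (pt e (θ + ε), e.2) :=
  NC_of_sep (h := f) (s := D) h.sX h.sA h.sY.le h.sE2.le

lemma nc_E1_E2 (h : LegData L e f θ D ε A B) : NC (e.1, pt e (θ - ε)) (pt e (θ - ε), A) := by
  apply NC_adj
  rw [side_first_part]
  have h1 := h.h1
  have : side e A ≠ 0 := by intro h0; have := h.sideA; rw [h0] at this; simp at this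
  exact mul_ne_zero h1.ne' this

lemma nc_E4_E5 (h : LegData L e f θ D ε A B) : NC (B, pt e (θ + ε)) (pt e (θ + ε), e.2) := by
  apply NC_adj'
  rw [side_last_part]
  have h1 := h.h2
  have : side e B ≠ 0 := by intro h0; have := h.sideB; rw [h0] at this; simp at this
  exact mul_ne_zero (by linarith) this

lemma nc_E2_g (h : LegData L e f θ D ε A B) {g : R3 × R3} (hg : g ∈ edges L) (hog : OuterE g)
    (h1 : g ≠ e) (h2 : g ≠ f) (h3 : f.1 ∉ ends g) : NC (pt e (θ - ε), A) g :=
  NC_of_disjoint (h.legA g hg hog h1 h2 h3)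

lemma nc_E4_g (h : LegData L e f θ D ε A B) {g : R3 × R3} (hg : g ∈ edges L) (hog : OuterE g)
    (h1 : g ≠ e) (h2 : g ≠ f) (h3 : f.1 ∉ ends g) : NC (B, pt e (θ + ε)) g :=
  (NC_of_disjoint (h.legB g hg hog h1 h2 h3)).swap_left

lemma nc_e_g (hL : State L) (he : e ∈ edges L) (hf : f ∈ edges L) (hoe : OuterE e)
    (hof : OuterE f) (hx : XR e f) {g : R3 × R3} (hg : g ∈ edges L) (hog : OuterE g)
    (h1 : g ≠ e) (h2 : g ≠ f) : NC e g := by
  rcases hL.pair e he g hg hoe hog h1.symm with h | h
  · exact h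
  · exact absurd (hL.single e he f hf g hg hoe hof hog hx h) h2.symm

lemma nc_E1_g (h : LegData L e f θ D ε A B) (hL : State L) (he : e ∈ edges L) (hf : f ∈ edges L)
    (hoe : OuterE e) (hof : OuterE f) (hx : XR e f) {g : R3 × R3} (hg : g ∈ edges L)
    (hog : OuterE g) (h1 : g ≠ e) (h2 : g ≠ f) : NC (e.1, pt e (θ - ε)) g :=
  (nc_e_g hL he hf hoe hof hx hg hog h1 h2).first_part (outer_ne hL he hoe) h.h1.le
    (by have := h.h2; have := h.h0; linarith)

lemma nc_E5_g (h : LegData L e f θ D ε A B) (hL : State L) (he : e ∈ edges L) (hf : f ∈ edges L)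
    (hoe : OuterE e) (hof : OuterE f) (hx : XR e f) {g : R3 × R3} (hg : g ∈ edges L)
    (hog : OuterE g) (h1 : g ≠ e) (h2 : g ≠ f) : NC (pt e (θ + ε), e.2) g :=
  (nc_e_g hL he hf hoe hof hx hg hog h1 h2).last_part (outer_ne hL he hoe)
    (by have := h.h1; have := h.h0; linarith) h.h2.le

end LegData

/-- Existence of legs for all small `ε`. -/
lemma eventually_legData {L : List R3} (hL : State L) {e f : R3 × R3} (he : e ∈ edges L)
    (hf : f ∈ edges L) (hoe : OuterE e) (hof : OuterE f) (hx : XR e f) {θ φ D : ℝ}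
    (hθ0 : 0 < θ) (hθ1 : θ < 1) (hφ0 : 0 < φ) (hφ1 : φ < 1) (hpt : proj (pt e θ) = proj (pt f φ))
    (hD0 : D ≠ 0) (hD : ∀ t, side f (pt e t) = (t - θ) * D) {a b : ℝ × ℝ}
    (ha : D * cross2 (proj f.2 - proj f.1) a < 0) (hb : 0 < D * cross2 (proj f.2 - proj f.1) b)
    {A B : ℝ → R3} (hA : ∀ ε, proj (A ε) = proj f.1 + ε • a)
    (hB : ∀ ε, proj (B ε) = proj f.1 + ε • b) :
    ∀ᶠ ε in 𝓝[>] (0 : ℝ), LegData L e f θ D ε (A ε) (B ε) := by
  have l1 := legs hL he hf hoe hof hx hφ0 hφ1 hpt hD0 hD (s := -1) (by norm_num) (a := a)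
    (by linarith) hA
  have l2 := legs hL he hf hoe hof hx hφ0 hφ1 hpt hD0 hD (s := 1) (by norm_num) (a := b)
    (by linarith) hB
  have l3 : ∀ᶠ ε in 𝓝[>] (0 : ℝ), ε < θ := by
    filter_upwards [Ioo_mem_nhdsGT hθ0] with ε h
    exact h.2
  have l4 : ∀ᶠ ε in 𝓝[>] (0 : ℝ), ε < 1 - θ := by
    filter_upwards [Ioo_mem_nhdsGT (show 0 < 1 - θ by linarith)] with ε h
    exact h.2
  filter_upwards [l1, l2, l3, l4, self_mem_nhdsWithin] with ε h1 h2 h3 h4 h5
  have h5 : 0 < ε := h5
  obtain ⟨a1, a2, a3, a4⟩ := h1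
  obtain ⟨b1, b2, b3, b4⟩ := h2
  rw [show θ + -1 * ε = θ - ε by ring] at a1 a4
  rw [show θ + 1 * ε = θ + ε by ring] at b1 b4
  refine ⟨h5, by linarith, by linarith, a1, b1, a2, b2, by linarith, by linarith, by linarith,
    by linarith, ?_, ?_⟩
  · have := hD 0
    rw [pt_zero] at this
    rw [this]
    have : D * ((0 - θ) * D) = -(θ * (D * D)) := by ring
    rw [this]
    have := mul_pos hθ0 (mul_self_pos.2 hD0)
    linarith
  · have := hD 1
    rw [pt_one] at this
    rw [this]
    have : D * ((1 - θ) * D) = (1 - θ) * (D * D) := by ring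
    rw [this]
    exact mul_pos (by linarith) (mul_self_pos.2 hD0)

end Pool.Agent.LinKnot

namespace Pool.Agent.LinKnot

open scoped Classical Topology
open Filter

/-- The edge `e` of a state runs above `f` at their crossing. -/
def Over (e f : R3 × R3) : Prop := ∀ p ∈ seg e, ∀ q ∈ seg f, proj p = proj q → q 2 < p 2

/-- The middle part of an edge which crosses over its only partner is an overpass. -/
lemma overArc_middle {e : R3 × R3} {ρ : List R3} (hL : State (e.1 :: e.2 :: ρ))
    (hoe : OuterE e) {f : R3 × R3} (hf : f ∈ edges (e.1 :: e.2 :: ρ)) (hof : OuterE f)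
    (hx : XR e f) (hover : Over e f) {s t : ℝ} (hs : 0 < s) (hst : s < t) (ht : t < 1) :
    OverArc (pt e s) [] (pt e t) (e.2 :: ρ ++ [e.1]) := by
  have he : e ∈ edges (e.1 :: e.2 :: ρ) := by rw [edges_cons_cons]; simp
  have hfl := hL.flat e he hoe
  have hsub : seg (pt e s, pt e t) ⊆ seg e :=
    (convex_segment _ _).segment_subset (pt_mem_seg hs.le (by linarith))
      (pt_mem_seg (by linarith) ht.le)
  refine ⟨?_, ?_⟩
  · intro a ha b hb p hp q hq hpq
    simp only [List.cons_append, List.nil_append, pathEdges_cons_cons, pathEdges_single,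
      List.mem_singleton] at ha hb
    subst ha hb
    exact flat_inj hfl (hsub hp) (hsub hq) hpq
  · intro a ha g hg p hp q hq hpq
    simp only [List.cons_append, List.nil_append, pathEdges_cons_cons, pathEdges_single,
      List.mem_singleton] at ha
    subst ha
    have hp' := hsub hp
    rw [show pt e t :: (e.2 :: ρ ++ [e.1]) ++ [pt e s] = pt e t :: e.2 :: (ρ ++ e.1 :: [pt e s]) by
      simp, pathEdges_cons_cons] at hg
    rcases List.mem_cons.1 hg with rfl | hg
    · exact Or.inr (flat_inj hfl hp' (seg_last_part (by linarith) ht.le hq) hpq)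
    · rw [show e.2 :: (ρ ++ e.1 :: [pt e s]) = (e.2 :: ρ) ++ e.1 :: [pt e s] by simp,
        pathEdges_append, List.mem_append] at hg
      rcases hg with hg | hg
      · have hg' : g ∈ edges (e.1 :: e.2 :: ρ) := by
          rw [edges_cons_cons]; exact List.mem_cons_of_mem _ hg
        have tg : TypeOK g := hL.types g hg'
        have te : TypeOK e := hL.types e he
        have hge : e ≠ g := by
          rintro rfl; exact hL.knot.cons_cons_not_mem hg
        rcases tg.cases with hog | hig
        · rcases hL.pair e he g hg' hoe hog hge with h | h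
          · exact Or.inr (h p hp' q hq hpq).1
          · have := hL.single e he f hf g hg' hoe hof hog hx h
            subst this
            exact Or.inl (hover p hp' q hq hpq)
        · exact Or.inr (outer_inner_eq te tg hoe hig
            (fun p hp => hL.axis p (ends_subset_of_mem_edges he hp))
            (fun p hp => hL.axis p (ends_subset_of_mem_edges hg' hp)) hp' hq hpq)
      · simp only [pathEdges_cons_cons, pathEdges_single, List.mem_singleton] at hg
        subst hg
        exact Or.inr (flat_inj hfl hp' (seg_first_part hs.le (by linarith) hq) hpq)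

/-- Subdividing the edge `e` at two points. -/
lemma subdivide_two {e : R3 × R3} {ρ : List R3} (hK : IsKnot (e.1 :: e.2 :: ρ)) {s t : ℝ}
    (hs : 0 < s) (hst : s < t) (ht : t < 1) :
    IsKnot (pt e s :: [] ++ pt e t :: (e.2 :: ρ ++ [e.1])) ∧
      Isotopic (e.1 :: e.2 :: ρ) (pt e s :: [] ++ pt e t :: (e.2 :: ρ ++ [e.1])) := by
  obtain ⟨k1, i1⟩ := isotopic_subdivide hK (pt_mem_openSegment hs (by linarith))
  have k2 : IsKnot (pt e s :: e.2 :: (ρ ++ [e.1])) := by
    have := isKnot_append_comm (s := [e.1]) (t := pt e s :: e.2 :: ρ) k1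
    simpa using this
  have i2 : Isotopic (e.1 :: pt e s :: e.2 :: ρ) (pt e s :: e.2 :: (ρ ++ [e.1])) := by
    have := isotopic_append_comm [e.1] (pt e s :: e.2 :: ρ)
    simpa using this
  have hop : pt e t ∈ openSegment ℝ (pt e s) e.2 := by
    refine ⟨(1 - t) / (1 - s), (t - s) / (1 - s), div_pos (by linarith) (by linarith),
      div_pos (by linarith) (by linarith), ?_, ?_⟩
    · have : (1 : ℝ) - s ≠ 0 := by linarith
      field_simp; ring
    · have h1 : (1 : ℝ) - s ≠ 0 := by linarith
      unfold pt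
      have e1 : ((1 - t) / (1 - s)) * (1 - s) = 1 - t := by field_simp
      have e2 : ((1 - t) / (1 - s)) * s + (t - s) / (1 - s) = t := by field_simp; ring
      calc ((1 - t) / (1 - s)) • ((1 - s) • e.1 + s • e.2) + ((t - s) / (1 - s)) • e.2
          = (((1 - t) / (1 - s)) * (1 - s)) • e.1
            + (((1 - t) / (1 - s)) * s + (t - s) / (1 - s)) • e.2 := by module
        _ = _ := by rw [e1, e2]
  obtain ⟨k3, i3⟩ := isotopic_subdivide k2 hop
  refine ⟨by simpa using k3, ?_⟩
  refine (i1.trans i2).trans ?_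
  simpa using i3

end Pool.Agent.LinKnot
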