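import Pool.Agent.Lib.MP_188a32_co.Replace

/-!
# Step R: replacing an outer arc without crossings by a page
-/

set_option autoImplicit false

namespace Pool.Agent.LinKnot

open scoped Classical Topology

lemma exists_bound {α : Type} (l : List α) (f : α → ℝ) : ∃ B : ℝ, ∀ q ∈ l, f q < B := by
  induction l with
  | nil => exact ⟨0, by simp⟩
  | cons a l ih =>
    obtain ⟨B, hB⟩ := ih
    refine ⟨max B (f a + 1), fun q hq => ?_⟩
    rcases List.mem_cons.1 hq with rfl | hq
    · exact lt_of_lt_of_le (by linarith) (le_max_right _ _)
    · exact lt_of_lt_of_le (hB q hq) (le_max_left _ _)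

/-- An outer and an inner edge do not cross properly. -/
lemma not_XR_outer_inner {e f : R3 × R3} (te : TypeOK e) (hoe : OuterE e) (hif : InnerE f) :
    ¬ XR e f := by
  intro hx
  obtain ⟨α, hα, β, hβ, hp⟩ := hx.exists_point
  have h1 : ((1 - α) • e.1 + α • e.2) 1 = ((1 - β) • f.1 + β • f.2) 1 := congrArg Prod.snd hp
  have h2 : 0 < ((1 - α) • e.1 + α • e.2) 1 := by
    simp only [Pi.add_apply, Pi.smul_apply, smul_eq_mul]
    have a1 : 0 < 1 - α := by linarith [hα.2]
    have a2 := hα.1
    rcases te with ⟨h1, h2⟩ | ⟨h1, h2⟩ | ⟨h1, h2⟩ | ⟨h1, h2⟩ | ⟨h1, h2⟩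
    · have := mul_pos a1 h1; have := mul_pos a2 h2; linarith
    · rw [h2]; have := mul_pos a1 h1; linarith
    · rw [h1]; have := mul_pos a2 h2; linarith
    · exact absurd hoe.1 (by linarith)
    · exact absurd hoe.2 (by linarith)
  have h3 : ((1 - β) • f.1 + β • f.2) 1 ≤ 0 :=
    inner_nonpos hif ⟨1 - β, β, by linarith [hβ.2], hβ.1.le, by ring, rfl⟩
  linarith

lemma one_le_nIn {l : List R3} {p : R3} (hp : p ∈ l) (h : p 1 < 0) : 1 ≤ nIn l :=
  List.length_pos_of_mem (List.mem_filter.2 ⟨hp, by simpa using h⟩)

/-- The new page point over the axis point `s` with slope `B`. -/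
def pagePt (s : R3) (B : ℝ) : R3 := ![s 0, -1, B]

@[simp] lemma pagePt_one (s : R3) (B : ℝ) : pagePt s B 1 = -1 := rfl
@[simp] lemma pagePt_two (s : R3) (B : ℝ) : pagePt s B 2 = B := rfl
@[simp] lemma pagePt_zero (s : R3) (B : ℝ) : pagePt s B 0 = s 0 := rfl

/-- All page points have slope less than `B`. -/
def SlopeBound (l : List R3) (B : ℝ) : Prop := ∀ q ∈ l, q 1 < 0 → B * q 1 < - q 2

lemma exists_slopeBound (l : List R3) : ∃ B, SlopeBound l B := by
  obtain ⟨B, hB⟩ := exists_bound l (fun q => - q 2 / q 1)
  refine ⟨B, fun q hq hq1 => ?_⟩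
  have := hB q hq
  rw [div_lt_iff_of_neg hq1] at this
  exact this

lemma pagePt_not_mem {l : List R3} {B : ℝ} (h : SlopeBound l B) (s : R3) : pagePt s B ∉ l := by
  intro hm
  have := h _ hm (by simp)
  simp at this

lemma filter_length_le_of_imp {α : Type} (l : List α) (p q : α → Prop) [DecidablePred p]
    [DecidablePred q] (h : ∀ x ∈ l, p x → q x) :
    (l.filter fun x => p x).length ≤ (l.filter fun x => q x).length := by
  induction l with
  | nil => simp
  | cons a l ih =>
    have ih' := ih (fun x hx => h x (List.mem_cons_of_mem _ hx))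
    by_cases hp : p a
    · have hq := h a (by simp) hp
      simp [hp, hq, ih']
    · by_cases hq : q a
      · simp only [List.filter_cons, hp, hq, decide_true, decide_false, if_true]
        simp only [Bool.false_eq_true, if_false, List.length_cons]
        omega
      · simpa [List.filter_cons, hp, hq] using ih'

lemma filter_length_zero {α : Type} (l : List α) (p : α → Prop) [DecidablePred p]
    (h : ∀ x ∈ l, ¬ p x) : (l.filter fun x => p x).length = 0 := by
  rw [List.length_eq_zero_iff, List.filter_eq_nil_iff]
  intro a ha
  simpa using h a ha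

/-- On a path from an axis point through outer points every edge is outer. -/
lemma outer_path {s z : R3} {W : List R3} (hs : s 1 = 0) (hz : 0 ≤ z 1) (hW : ∀ p ∈ W, 0 < p 1)
    {e : R3 × R3} (he : e ∈ pathEdges (s :: W ++ [z])) : OuterE e := by
  have h1 := mem_of_mem_pathEdges he
  have : ∀ p ∈ s :: W ++ [z], 0 ≤ p 1 := by
    intro p hp
    simp only [List.cons_append, List.mem_cons, List.mem_append, List.not_mem_nil, or_false] at hp
    rcases hp with rfl | hp | rfl
    · exact hs.ge
    · exact (hW p hp).le
    · exact hz
  exact ⟨this _ h1.1, this _ h1.2⟩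

/-- **Step R.** -/
lemma step_replace
    (over_replace : ∀ (x y : R3) (σ σ' τ : List R3), IsKnot (x :: σ ++ y :: τ) →
      IsKnot (x :: σ' ++ y :: τ) → OverArc x σ y τ → OverArc x σ' y τ →
      Isotopic (x :: σ ++ y :: τ) (x :: σ' ++ y :: τ))
    {s s' : R3} {W t : List R3} (hS : State (s :: W ++ s' :: t)) (hs : s 1 = 0) (hs' : s' 1 = 0)
    (hW : W ≠ []) (hWo : ∀ p ∈ W, 0 < p 1) (ht : t ≠ [])
    (hfree : ∀ e ∈ pathEdges (s :: W ++ [s']), ∀ f ∈ edges (s :: W ++ s' :: t), OuterE f →
      ¬ XR e f) :
    ∃ b, State (s :: [b] ++ s' :: t) ∧ Isotopic (s :: W ++ s' :: t) (s :: [b] ++ s' :: t) ∧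
      nIn (s :: [b] ++ s' :: t) ≤ nIn (s :: W ++ s' :: t) + 1 ∧
      nOut (s :: [b] ++ s' :: t) + 1 ≤ nOut (s :: W ++ s' :: t) ∧
      nX (s :: [b] ++ s' :: t) ≤ nX (s :: W ++ s' :: t) ∧ 1 ≤ nIn (s :: [b] ++ s' :: t) := by
  obtain ⟨B, hB⟩ := exists_slopeBound (s :: W ++ s' :: t)
  set b := pagePt s B with hb
  have hb1 : b 1 = -1 := rfl
  have hb2 : b 2 = B := rfl
  have hNE : pathEdges (s :: [b] ++ [s']) = [(s, b), (b, s')] := rfl
  have hsub : ∀ v ∈ s :: s' :: t, v ∈ s :: W ++ s' :: t := by
    intro v hv
    simp only [List.mem_cons, List.cons_append, List.mem_append] at hv ⊢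
    tauto
  have i1 : InnerE (s, b) := Or.inr ⟨hs, by simp [hb1]⟩
  have i2 : InnerE (b, s') := Or.inl ⟨by simp [hb1], hs'⟩
  have hin : ∀ e ∈ pathEdges (s :: [b] ++ [s']), InnerE e := by
    intro e he
    rw [hNE] at he
    simp only [List.mem_cons, List.not_mem_nil, or_false] at he
    rcases he with rfl | rfl
    · exact i1
    · exact i2
  have hbm : b ∉ s :: W ++ s' :: t := pagePt_not_mem hB s
  have hpre : PreState (s :: [b] ++ s' :: t) := by
    apply preState_replace (M := W) hS
    · have : 0 < t.length := List.length_pos_of_ne_nil ht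
      simp only [List.cons_append, List.nil_append, List.length_cons]; omega
    · simp
    · intro v hv
      rw [List.mem_singleton] at hv
      subst hv
      exact fun h => hbm (hsub _ h)
    · intro v hv
      rw [List.mem_singleton] at hv
      subst hv
      intro h0; rw [hb1] at h0; norm_num at h0
    · intro e he
      rw [hNE] at he
      simp only [List.mem_cons, List.not_mem_nil, or_false] at he
      rcases he with rfl | rfl
      · exact Or.inr (Or.inr (Or.inr (Or.inr ⟨hs, by simp [hb1]⟩)))
      · exact Or.inr (Or.inr (Or.inr (Or.inl ⟨by simp [hb1], hs'⟩)))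
    · intro p hp hp1 q hq hne hq1
      rw [List.mem_singleton] at hp
      subst hp
      have hq' : q ∈ s :: W ++ s' :: t := by
        simp only [List.mem_cons, List.cons_append, List.nil_append, List.mem_append] at hq ⊢
        rcases hq with h | h | h | h
        · exact Or.inl h
        · exact absurd h hne.symm
        · exact Or.inr (Or.inr (Or.inl h))
        · exact Or.inr (Or.inr (Or.inr h))
      have := hB q hq' hq1
      rw [hb1, hb2]
      intro h
      linarith
    · intro e _ f _ hor hef h0
      rintro ⟨h1, h2⟩
      rcases hor with h | h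
      · rw [hNE] at h
        simp only [List.mem_cons, List.not_mem_nil, or_false] at h
        rcases h with rfl | rfl
        · simp [hb1] at h0
        · simp only [hb1] at h1; norm_num at h1
      · rw [hNE] at h
        simp only [List.mem_cons, List.not_mem_nil, or_false] at h
        rcases h with rfl | rfl
        · simp only [hb1] at h2; norm_num at h2
        · rw [hef] at h0; simp [hb1] at h0
    · intro e he hoe
      exact absurd hoe (hin e he).not_outer
    · intro e he f hf hoe
      exact absurd hoe (hin e he).not_outer
    · intro e he f hf hoe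
      exact absurd hoe (hin e he).not_outer
  have hS' := hpre.state
  have hE : edges (s :: W ++ s' :: t) = pathEdges (s :: W ++ [s']) ++ pathEdges (s' :: t ++ [s]) :=
    edges_two_paths _ _ _ _
  have hE' : edges (s :: [b] ++ s' :: t) =
      pathEdges (s :: [b] ++ [s']) ++ pathEdges (s' :: t ++ [s]) := edges_two_paths _ _ _ _
  refine ⟨b, hS', ?_, ?_, ?_, ?_, ?_⟩
  · apply over_replace _ _ _ _ _ hS.knot hS'.knot
    · apply overArc_of hS
      · intro e he f hf hoe hof
        exact hfree e he f (by rw [hE]; exact List.mem_append_left _ hf) hof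
      · intro e he f hf hoe hof hx
        exact absurd hx (hfree e he f (by rw [hE]; exact List.mem_append_right _ hf) hof)
      · intro P hP Q _ hP1
        exfalso
        simp only [List.cons_append, List.mem_cons, List.mem_append, List.not_mem_nil,
          or_false] at hP
        rcases hP with rfl | hP | rfl
        · linarith
        · linarith [hWo P hP]
        · linarith
      · intro P hP Q _ hP1
        exfalso
        simp only [List.cons_append, List.mem_cons, List.mem_append, List.not_mem_nil,
          or_false] at hP
        rcases hP with rfl | hP | rfl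
        · linarith
        · linarith [hWo P hP]
        · linarith
    · apply overArc_of hS'
      · intro e he f _ hoe
        exact absurd hoe (hin e he).not_outer
      · intro e he f _ hoe
        exact absurd hoe (hin e he).not_outer
      · intro P hP Q hQ hP1 hQ1
        simp only [List.cons_append, List.mem_cons, List.nil_append, List.not_mem_nil,
          or_false] at hP
        rcases hP with rfl | rfl | rfl
        · linarith
        · have hQ' : Q ∈ s :: W ++ s' :: t := by
            simp only [List.mem_cons, List.cons_append, List.mem_append, List.not_mem_nil,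
              or_false] at hQ ⊢
            tauto
          have := hB Q hQ' hQ1
          rw [hb1, hb2]; linarith
        · linarith
      · intro P hP Q hQ hP1 hQ1
        simp only [List.cons_append, List.mem_cons, List.nil_append, List.not_mem_nil,
          or_false] at hP hQ
        rcases hP with rfl | rfl | rfl
        · linarith
        · rcases hQ with rfl | rfl | rfl
          · linarith
          · rfl
          · linarith
        · linarith
  · unfold nIn
    simp only [List.cons_append, List.nil_append, List.filter_cons, List.filter_append,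
      List.length_append, hs, hs', hb1, lt_irrefl]
    norm_num
  · unfold nOut
    rw [hE, hE', List.filter_append, List.filter_append, List.length_append, List.length_append]
    have h1 : ((pathEdges (s :: [b] ++ [s'])).filter
        fun e => decide (e.1 1 = 0 ∧ 0 < e.2 1)).length = 0 := by
      apply filter_length_zero
      intro e he
      have := hin e he
      rintro ⟨_, h2⟩
      rcases this with h | h <;> linarith [h.1, h.2]
    have h2 : 1 ≤ ((pathEdges (s :: W ++ [s'])).filter
        fun e => decide (e.1 1 = 0 ∧ 0 < e.2 1)).length := by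
      cases W with
      | nil => exact absurd rfl hW
      | cons w W =>
        simp only [List.cons_append, pathEdges_cons_cons, List.filter_cons]
        have : 0 < w 1 := hWo w (by simp)
        simp [hs, this]
    omega
  · unfold nX
    rw [hE', hE, List.filter_append, List.filter_append, List.length_append, List.length_append]
    have h1 : ((pathEdges (s :: [b] ++ [s'])).filter fun e => decide (OuterE e ∧
        ∃ f ∈ pathEdges (s :: [b] ++ [s']) ++ pathEdges (s' :: t ++ [s]),
          OuterE f ∧ XR e f)).length = 0 := by
      apply filter_length_zero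
      rintro e he ⟨ho, _⟩
      exact (hin e he).not_outer ho
    have h2 : ((pathEdges (s' :: t ++ [s])).filter fun e => decide (OuterE e ∧
        ∃ f ∈ pathEdges (s :: [b] ++ [s']) ++ pathEdges (s' :: t ++ [s]),
          OuterE f ∧ XR e f)).length ≤ ((pathEdges (s' :: t ++ [s])).filter fun e =>
          decide (OuterE e ∧ ∃ f ∈ pathEdges (s :: W ++ [s']) ++ pathEdges (s' :: t ++ [s]),
          OuterE f ∧ XR e f)).length := by
      apply filter_length_le_of_imp
      rintro e he ⟨ho, f, hf, hof, hx⟩
      refine ⟨ho, f, ?_, hof, hx⟩
      rcases List.mem_append.1 hf with h | h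
      · exact absurd hof (hin f h).not_outer
      · exact List.mem_append_right _ h
    omega
  · exact one_le_nIn (p := b) (by simp) (by rw [hb1]; norm_num)

end Pool.Agent.LinKnot
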