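import Pool.Agent.Lib.MP_188a32_co.Planar

/-!
# Generic subdivision of a diagram
-/

set_option autoImplicit false

namespace Pool.Agent.LinKnot

open scoped Classical

namespace Planar

lemma side_half1 (x y : R3) (r : ℝ) (p : R3) :
    side (x, pt (x, y) r) p = r * side (x, y) p := by
  rw [side_eq, side_eq]
  simp only [pt_apply]
  ring

lemma side_half2 (x y : R3) (r : ℝ) (p : R3) :
    side (pt (x, y) r, y) p = (1 - r) * side (x, y) p := by
  rw [side_eq, side_eq]
  simp only [pt_apply]
  ring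

lemma xr_half1 {x y : R3} {r : ℝ} (h0 : 0 < r) (f : R3 × R3) :
    XR (x, pt (x, y) r) f ↔ side (x, y) f.1 * side (x, y) f.2 < 0 ∧
      side f x * side f (pt (x, y) r) < 0 := by
  unfold XR
  rw [side_half1, side_half1]
  refine and_congr_left fun _ => ?_
  have : r * side (x, y) f.1 * (r * side (x, y) f.2) =
    (r * r) * (side (x, y) f.1 * side (x, y) f.2) := by ring
  rw [this]
  have hr : 0 < r * r := mul_pos h0 h0
  constructor
  · intro h
    by_contra hcon
    push Not at hcon
    have := mul_nonneg hr.le hcon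
    linarith
  · intro h
    exact mul_neg_of_pos_of_neg hr h

lemma xr_half2 {x y : R3} {r : ℝ} (h1 : r < 1) (f : R3 × R3) :
    XR (pt (x, y) r, y) f ↔ side (x, y) f.1 * side (x, y) f.2 < 0 ∧
      side f (pt (x, y) r) * side f y < 0 := by
  unfold XR
  rw [side_half2, side_half2]
  refine and_congr_left fun _ => ?_
  have : (1 - r) * side (x, y) f.1 * ((1 - r) * side (x, y) f.2) =
    ((1 - r) * (1 - r)) * (side (x, y) f.1 * side (x, y) f.2) := by ring
  rw [this]
  have hr : 0 < (1 - r) * (1 - r) := mul_pos (by linarith) (by linarith)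
  constructor
  · intro h
    by_contra hcon
    push Not at hcon
    have := mul_nonneg hr.le hcon
    linarith
  · intro h
    exact mul_neg_of_pos_of_neg hr h

/-- real-number version of the sign pattern at an inner point -/
lemma sign_cases {a b r : ℝ} (h0 : 0 < r) (h1 : r < 1) (hz : (1 - r) * a + r * b ≠ 0) :
    (a * ((1 - r) * a + r * b) < 0 → a * b < 0) ∧ (((1 - r) * a + r * b) * b < 0 → a * b < 0) ∧
    (a * b < 0 → (a * ((1 - r) * a + r * b) < 0 ∧ ¬ ((1 - r) * a + r * b) * b < 0) ∨
      (¬ a * ((1 - r) * a + r * b) < 0 ∧ ((1 - r) * a + r * b) * b < 0)) := by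
  have h2 : 0 < 1 - r := by linarith
  refine ⟨fun h => ?_, fun h => ?_, fun h => ?_⟩
  · have e : a * ((1 - r) * a + r * b) = (1 - r) * a ^ 2 + r * (a * b) := by ring
    rw [e] at h
    by_contra hcon
    push Not at hcon
    have := mul_nonneg h0.le hcon
    have := mul_nonneg h2.le (sq_nonneg a)
    linarith
  · have e : ((1 - r) * a + r * b) * b = (1 - r) * (a * b) + r * b ^ 2 := by ring
    rw [e] at h
    by_contra hcon
    push Not at hcon
    have := mul_nonneg h2.le hcon
    have := mul_nonneg h0.le (sq_nonneg b)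
    linarith
  · set s := (1 - r) * a + r * b with hs
    rcases lt_or_gt_of_ne hz with h3 | h3
    · -- `s < 0`
      rcases lt_or_ge a 0 with ha | ha
      · have hb : 0 < b := by
          by_contra hb; push Not at hb
          have := mul_nonneg_of_nonpos_of_nonpos ha.le hb; linarith
        right
        exact ⟨not_lt.2 (mul_nonneg_of_nonpos_of_nonpos ha.le h3.le), mul_neg_of_neg_of_pos h3 hb⟩
      · have ha' : 0 < a := by
          rcases eq_or_lt_of_le ha with h5 | h5
          · rw [← h5] at h; simp at h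
          · exact h5
        have hb : b < 0 := by
          by_contra hb; push Not at hb
          have := mul_nonneg ha hb; linarith
        left
        exact ⟨mul_neg_of_pos_of_neg ha' h3, not_lt.2 (mul_nonneg_of_nonpos_of_nonpos h3.le hb.le)⟩
    · rcases lt_or_ge a 0 with ha | ha
      · have hb : 0 < b := by
          by_contra hb; push Not at hb
          have := mul_nonneg_of_nonpos_of_nonpos ha.le hb; linarith
        left
        exact ⟨mul_neg_of_neg_of_pos ha h3, not_lt.2 (mul_nonneg h3.le hb.le)⟩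
      · have hb : b < 0 := by
          by_contra hb; push Not at hb
          have := mul_nonneg ha hb; linarith
        right
        exact ⟨not_lt.2 (mul_nonneg ha h3.le), mul_neg_of_pos_of_neg h3 hb⟩

/-- a point of `e` on the line of `f` lies over `f` if the edges cross -/
lemma mem_pseg_of_side {e f : R3 × R3} (h : XR e f) {r : ℝ} (hr : side f (pt e r) = 0) :
    proj (pt e r) ∈ pseg f := by
  rw [side_pt_cpar h.2] at hr
  have h1 : r = cpar e f := by
    rcases mul_eq_zero.1 hr with h2 | h2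
    · exact absurd h2 (sub_ne h.2)
    · linarith
  rw [h1, proj_cpar h]
  exact ⟨_, pt_mem_seg f (cpar_mem h.1).1.le (cpar_mem h.1).2.le, rfl⟩

lemma ind_split {x y : R3} {r : ℝ} (h0 : 0 < r) (h1 : r < 1) {f : R3 × R3}
    (hz : proj (pt (x, y) r) ∉ pseg f) :
    (if XR (x, y) f then 1 else 0) =
      (if XR (x, pt (x, y) r) f then 1 else 0) + (if XR (pt (x, y) r, y) f then 1 else 0) := by
  by_cases hA : side (x, y) f.1 * side (x, y) f.2 < 0
  swap
  · have e1 : ¬ XR (x, y) f := fun h => hA h.1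
    have e2 : ¬ XR (x, pt (x, y) r) f := fun h => hA ((xr_half1 h0 f).1 h).1
    have e3 : ¬ XR (pt (x, y) r, y) f := fun h => hA ((xr_half2 h1 f).1 h).1
    rw [if_neg e1, if_neg e2, if_neg e3]
  have hs : side f (pt (x, y) r) = (1 - r) * side f x + r * side f y := side_pt f (x, y) r
  by_cases hz0 : (1 - r) * side f x + r * side f y = 0
  · have e1 : ¬ XR (x, y) f := fun h => hz (mem_pseg_of_side h (by rw [hs, hz0]))
    have e2 : ¬ XR (x, pt (x, y) r) f := fun h => by
      have := ((xr_half1 h0 f).1 h).2; rw [hs, hz0] at this; simp at this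
    have e3 : ¬ XR (pt (x, y) r, y) f := fun h => by
      have := ((xr_half2 h1 f).1 h).2; rw [hs, hz0] at this; simp at this
    rw [if_neg e1, if_neg e2, if_neg e3]
  obtain ⟨k1, k2, k3⟩ := sign_cases h0 h1 hz0
  have i1 : XR (x, y) f ↔ side f x * side f y < 0 := ⟨fun h => h.2, fun h => ⟨hA, h⟩⟩
  have i2 : XR (x, pt (x, y) r) f ↔ side f x * ((1 - r) * side f x + r * side f y) < 0 := by
    rw [xr_half1 h0, hs]; exact ⟨fun h => h.2, fun h => ⟨hA, h⟩⟩
  have i3 : XR (pt (x, y) r, y) f ↔ ((1 - r) * side f x + r * side f y) * side f y < 0 := by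
    rw [xr_half2 h1, hs]; exact ⟨fun h => h.2, fun h => ⟨hA, h⟩⟩
  by_cases h : side f x * side f y < 0
  · rw [if_pos (i1.2 h)]
    rcases k3 h with ⟨j1, j2⟩ | ⟨j1, j2⟩
    · rw [if_pos (i2.2 j1), if_neg (fun h => j2 (i3.1 h))]
    · rw [if_neg (fun h => j1 (i2.1 h)), if_pos (i3.2 j2)]
  · rw [if_neg (fun h' => h (i1.1 h')), if_neg (fun h' => h (k1 (i2.1 h'))),
      if_neg (fun h' => h (k2 (i3.1 h')))]

lemma xr_of_half1 {x y : R3} {r : ℝ} (h0 : 0 < r) (h1 : r < 1) {f : R3 × R3}
    (hz : proj (pt (x, y) r) ∉ pseg f) (h : XR (x, pt (x, y) r) f) : XR (x, y) f := by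
  by_contra hcon
  have := ind_split h0 h1 hz
  rw [if_neg hcon, if_pos h] at this
  omega

lemma xr_of_half2 {x y : R3} {r : ℝ} (h0 : 0 < r) (h1 : r < 1) {f : R3 × R3}
    (hz : proj (pt (x, y) r) ∉ pseg f) (h : XR (pt (x, y) r, y) f) : XR (x, y) f := by
  by_contra hcon
  have := ind_split h0 h1 hz
  rw [if_neg hcon, if_pos h] at this
  omega

lemma xr_half1_iff {x y : R3} {r : ℝ} (h0 : 0 < r) {f : R3 × R3}
    (h : XR (x, y) f) : XR (x, pt (x, y) r) f ↔ cpar (x, y) f < r := by
  rw [xr_half1 h0, side_pt_cpar h.2]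
  simp only
  have h2 := h.2
  simp only at h2
  have h3 : 0 < side f x * (side f x - side f y) := by nlinarith [mul_self_nonneg (side f x)]
  constructor
  · rintro ⟨_, h4⟩
    by_contra hcon
    push Not at hcon
    have : 0 ≤ side f x * (side f x - side f y) * (cpar (x, y) f - r) :=
      mul_nonneg h3.le (by linarith)
    linarith
  · intro h4
    refine ⟨h.1, ?_⟩
    have : side f x * (side f x - side f y) * (cpar (x, y) f - r) < 0 :=
      mul_neg_of_pos_of_neg h3 (by linarith)
    linarith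

lemma xr_half2_iff {x y : R3} {r : ℝ} (h1 : r < 1) {f : R3 × R3}
    (h : XR (x, y) f) : XR (pt (x, y) r, y) f ↔ r < cpar (x, y) f := by
  rw [xr_half2 h1, side_pt_cpar h.2]
  simp only
  have h2 := h.2
  simp only at h2
  have h3 : (side f x - side f y) * side f y < 0 := by nlinarith [mul_self_nonneg (side f y)]
  constructor
  · rintro ⟨_, h4⟩
    by_contra hcon
    push Not at hcon
    have : 0 ≤ ((side f x - side f y) * side f y) * (cpar (x, y) f - r) :=
      mul_nonneg_of_nonpos_of_nonpos h3.le (by linarith)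
    linarith
  · intro h4
    refine ⟨h.1, ?_⟩
    have : ((side f x - side f y) * side f y) * (cpar (x, y) f - r) < 0 :=
      mul_neg_of_neg_of_pos h3 (by linarith)
    linarith

lemma seg_half1 (x y : R3) {r : ℝ} (h0 : 0 ≤ r) (h1 : r ≤ 1) : seg (x, pt (x, y) r) ⊆ seg (x, y) :=
  (convex_segment x y).segment_subset (left_mem_segment ℝ x y) (pt_mem_seg (x, y) h0 h1)

lemma seg_half2 (x y : R3) {r : ℝ} (h0 : 0 ≤ r) (h1 : r ≤ 1) : seg (pt (x, y) r, y) ⊆ seg (x, y) :=
  (convex_segment x y).segment_subset (pt_mem_seg (x, y) h0 h1) (right_mem_segment ℝ x y)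

lemma pt_half1 (x y : R3) (r s : ℝ) : pt (x, pt (x, y) r) s = pt (x, y) (s * r) := by
  simp only [pt]; module

lemma pt_half2 (x y : R3) (r s : ℝ) : pt (pt (x, y) r, y) s = pt (x, y) (r + s * (1 - r)) := by
  simp only [pt]; module

lemma pair_half1 {x y : R3} {r : ℝ} (h0 : 0 < r) (h1 : r < 1) (hxy : x ≠ y) {f : R3 × R3}
    (hz : proj (pt (x, y) r) ∉ pseg f) (h : NC (x, y) f ∨ XR (x, y) f) :
    NC (x, pt (x, y) r) f ∨ XR (x, pt (x, y) r) f := by
  rcases h with h | h
  · left
    intro p hp q hq hpq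
    obtain ⟨k1, k2, k3⟩ := h p (seg_half1 x y h0.le h1.le hp) q hq hpq
    refine ⟨k1, ?_, k3⟩
    rcases k2 with k2 | k2
    · exact Or.inl k2
    · exfalso
      rw [Set.mem_singleton_iff] at k2
      subst k2
      have h3 := seg_inter_seg_of_mem_openSegment (pt_mem_openSegment x p h0 h1) hxy
        ⟨hp, right_mem_seg _⟩
      rw [Set.mem_singleton_iff] at h3
      exact hz (h3 ▸ ⟨q, hq, hpq.symm⟩)
  · by_cases h2 : XR (x, pt (x, y) r) f
    · exact Or.inr h2
    · left
      intro p hp q hq hpq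
      exfalso
      obtain ⟨s, hs0, hs1, rfl⟩ := mem_seg_iff.1 hp
      rw [pt_half1] at hpq
      have h3 := eq_cpar h ⟨q, hq, hpq.symm⟩
      apply h2
      rw [xr_half1_iff h0 h, ← h3]
      refine lt_of_le_of_ne ?_ ?_
      · calc s * r ≤ 1 * r := by gcongr
          _ = r := one_mul r
      · intro h4
        rw [h4] at hpq
        exact hz ⟨q, hq, hpq.symm⟩

lemma pair_half2 {x y : R3} {r : ℝ} (h0 : 0 < r) (h1 : r < 1) (hxy : x ≠ y) {f : R3 × R3}
    (hz : proj (pt (x, y) r) ∉ pseg f) (h : NC (x, y) f ∨ XR (x, y) f) :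
    NC (pt (x, y) r, y) f ∨ XR (pt (x, y) r, y) f := by
  rcases h with h | h
  · left
    intro p hp q hq hpq
    obtain ⟨k1, k2, k3⟩ := h p (seg_half2 x y h0.le h1.le hp) q hq hpq
    refine ⟨k1, ?_, k3⟩
    rcases k2 with k2 | k2
    · exfalso
      simp only at k2
      subst k2
      have h3 := seg_inter_seg_of_mem_openSegment (pt_mem_openSegment p y h0 h1) hxy
        ⟨left_mem_seg _, hp⟩
      rw [Set.mem_singleton_iff] at h3
      exact hz (h3 ▸ ⟨q, hq, hpq.symm⟩)
    · exact Or.inr k2
  · by_cases h2 : XR (pt (x, y) r, y) f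
    · exact Or.inr h2
    · left
      intro p hp q hq hpq
      exfalso
      obtain ⟨s, hs0, hs1, rfl⟩ := mem_seg_iff.1 hp
      rw [pt_half2] at hpq
      have h3 := eq_cpar h ⟨q, hq, hpq.symm⟩
      apply h2
      rw [xr_half2_iff h1 h, ← h3]
      refine lt_of_le_of_ne ?_ ?_
      · have : 0 ≤ s * (1 - r) := mul_nonneg hs0 (by linarith)
        linarith
      · intro h4
        rw [← h4] at hpq
        exact hz ⟨q, hq, hpq.symm⟩

lemma nc_halves {x y : R3} {r : ℝ} (h0 : 0 < r) (h1 : r < 1) (hxy : proj x ≠ proj y) :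
    NC (x, pt (x, y) r) (pt (x, y) r, y) := by
  intro p hp q hq hpq
  have h2 : p = q := proj_inj_on (e := (x, y)) hxy (seg_half1 x y h0.le h1.le hp)
    (seg_half2 x y h0.le h1.le hq) hpq
  subst h2
  have h3 := seg_inter_seg_of_mem_openSegment (pt_mem_openSegment x y h0 h1)
    (fun h => hxy (by rw [h])) ⟨hp, hq⟩
  rw [Set.mem_singleton_iff] at h3
  exact ⟨rfl, Or.inr h3, Or.inl h3⟩

/-- number of crossings of the edge `e` with the edges in `E` -/
noncomputable def cx (E : List (R3 × R3)) (e : R3 × R3) : ℕ := E.countP fun f => decide (XR e f)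

/-- number of ordered pairs of crossing edges -/
noncomputable def cnt (E : List (R3 × R3)) : ℕ := (E.map (cx E)).sum

noncomputable def mes (E : List (R3 × R3)) : ℕ := (E.map fun e => cx E e - 1).sum

lemma cx_cons (a : R3 × R3) (E : List (R3 × R3)) (e : R3 × R3) :
    cx (a :: E) e = cx E e + if XR e a then 1 else 0 := by
  unfold cx
  rw [List.countP_cons]
  simp

section split
variable {x y : R3} {r : ℝ} {T : List (R3 × R3)}

lemma cx_split (h0 : 0 < r) (h1 : r < 1) {e : R3 × R3} (hz : proj (pt (x, y) r) ∉ pseg e) :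
    cx ((x, pt (x, y) r) :: (pt (x, y) r, y) :: T) e = cx ((x, y) :: T) e := by
  rw [cx_cons, cx_cons, cx_cons, xr_comm (e := e), xr_comm (e := e), xr_comm (e := e),
    ind_split h0 h1 hz]
  ring

lemma not_xr_halves : ¬ XR (x, pt (x, y) r) (pt (x, y) r, y) := by
  intro h
  have := h.1
  simp only [side_half1] at this
  rw [show side (x, y) y = 0 from side_snd (x, y)] at this
  simp at this

lemma cx_sum (h0 : 0 < r) (h1 : r < 1) (hT : ∀ e ∈ T, proj (pt (x, y) r) ∉ pseg e) :
    cx ((x, pt (x, y) r) :: (pt (x, y) r, y) :: T) (x, pt (x, y) r) +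
      cx ((x, pt (x, y) r) :: (pt (x, y) r, y) :: T) (pt (x, y) r, y) = cx ((x, y) :: T) (x, y) := by
  simp only [cx_cons]
  rw [if_neg (not_xr_self _), if_neg (not_xr_self _), if_neg (not_xr_self _),
    if_neg not_xr_halves, if_neg (fun h => not_xr_halves (XR.symm h))]
  simp only [add_zero]
  induction T with
  | nil => simp [cx]
  | cons a T ih =>
    rw [cx_cons, cx_cons, cx_cons, ind_split h0 h1 (hT a (by simp))]
    have := ih (fun e he => hT e (List.mem_cons_of_mem _ he))
    omega

lemma cnt_split (h0 : 0 < r) (h1 : r < 1) (hT : ∀ e ∈ T, proj (pt (x, y) r) ∉ pseg e) :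
    cnt ((x, pt (x, y) r) :: (pt (x, y) r, y) :: T) = cnt ((x, y) :: T) := by
  unfold cnt
  rw [List.map_cons, List.map_cons, List.sum_cons, List.sum_cons, List.map_cons, List.sum_cons,
    ← add_assoc, cx_sum h0 h1 hT]
  congr 2
  apply List.map_congr_left
  intro e he
  exact cx_split h0 h1 (hT e he)

end split

lemma cx_perm {E E' : List (R3 × R3)} (h : E.Perm E') (e : R3 × R3) : cx E e = cx E' e :=
  h.countP_eq _

lemma cnt_perm {E E' : List (R3 × R3)} (h : E.Perm E') : cnt E = cnt E' := by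
  unfold cnt
  have : cx E = cx E' := funext (cx_perm h)
  rw [this]
  exact (h.map _).sum_eq

lemma mes_perm {E E' : List (R3 × R3)} (h : E.Perm E') : mes E = mes E' := by
  unfold mes
  have : cx E = cx E' := funext (cx_perm h)
  rw [this]
  exact (h.map _).sum_eq

lemma edges_rotate_perm (l : List R3) (n : ℕ) : (edges (l.rotate n)).Perm (edges l) := by
  rw [edges_rotate]
  exact List.rotate_perm _ _

end Planar

open Planar

lemma edges_insert (x z y : R3) (t : List R3) :
    edges (x :: z :: y :: t) = (x, z) :: (z, y) :: pathEdges (y :: t ++ [x]) := by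
  rw [edges_cons_cons]
  simp

lemma Dia.rotate {l : List R3} (h : Dia l) (n : ℕ) : Dia (l.rotate n) where
  knot := h.knot.rotate n
  flat e he := h.flat e (mem_edges_rotate.1 he)
  pair e he f hf := h.pair e (mem_edges_rotate.1 he) f (mem_edges_rotate.1 hf)
  triple e he f hf g hg := h.triple e (mem_edges_rotate.1 he) f (mem_edges_rotate.1 hf) g
    (mem_edges_rotate.1 hg)

lemma Dia.subdivide {x y : R3} {t : List R3} (h : Dia (x :: y :: t)) {r : ℝ} (h0 : 0 < r)
    (h1 : r < 1) (hT : ∀ e ∈ pathEdges (y :: t ++ [x]), proj (pt (x, y) r) ∉ pseg e) :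
    Dia (x :: pt (x, y) r :: y :: t) ∧ Isotopic (x :: y :: t) (x :: pt (x, y) r :: y :: t) := by
  set z := pt (x, y) r with hz
  obtain ⟨k1, k2⟩ := isotopic_subdivide h.knot (pt_mem_openSegment x y h0 h1)
  refine ⟨?_, k2⟩
  have hE : edges (x :: y :: t) = (x, y) :: pathEdges (y :: t ++ [x]) := edges_cons_cons _ _ _
  have hmem : ∀ e ∈ pathEdges (y :: t ++ [x]), e ∈ edges (x :: y :: t) := fun e he => by
    rw [hE]; exact List.mem_cons_of_mem _ he
  have hxy : (x, y) ∈ edges (x :: y :: t) := by rw [hE]; simp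
  have hflat : proj x ≠ proj y := h.flat _ hxy
  have hne : x ≠ y := fun h => hflat (by rw [h])
  have hnm : ∀ e ∈ pathEdges (y :: t ++ [x]), (x, y) ≠ e := by
    rintro e he rfl
    exact h.knot.cons_cons_not_mem he
  have hpair : ∀ e ∈ pathEdges (y :: t ++ [x]), NC (x, y) e ∨ XR (x, y) e := fun e he =>
    h.pair _ hxy e (hmem e he) (hnm e he)
  refine ⟨k1, ?_, ?_, ?_⟩
  · intro e he
    rw [edges_insert, List.mem_cons, List.mem_cons] at he
    rcases he with rfl | rfl | he
    · intro h2
      have := proj_inj_on (e := (x, y)) hflat (left_mem_seg (x, y))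
        (pt_mem_seg (x, y) h0.le h1.le) h2
      simp only at this
      have h3 := pt_mem_openSegment x y h0 h1
      rw [← this, left_mem_openSegment_iff] at h3
      exact hne h3
    · intro h2
      have := proj_inj_on (e := (x, y)) hflat (pt_mem_seg (x, y) h0.le h1.le)
        (right_mem_seg (x, y)) h2
      simp only at this
      have h3 := pt_mem_openSegment x y h0 h1
      rw [this, right_mem_openSegment_iff] at h3
      exact hne h3
    · exact h.flat e (hmem e he)
  · have a1 : ∀ e ∈ pathEdges (y :: t ++ [x]), NC (x, z) e ∨ XR (x, z) e := fun e he =>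
      pair_half1 h0 h1 hne (hT e he) (hpair e he)
    have a2 : ∀ e ∈ pathEdges (y :: t ++ [x]), NC (z, y) e ∨ XR (z, y) e := fun e he =>
      pair_half2 h0 h1 hne (hT e he) (hpair e he)
    have a3 : NC (x, z) (z, y) := nc_halves h0 h1 hflat
    have symm : ∀ e f : R3 × R3, NC e f ∨ XR e f → NC f e ∨ XR f e := fun e f h =>
      h.imp NC.symm XR.symm
    intro e he f hf hef
    rw [edges_insert, List.mem_cons, List.mem_cons] at he hf
    rcases he with rfl | rfl | he <;> rcases hf with rfl | rfl | hf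
    · exact absurd rfl hef
    · exact Or.inl a3
    · exact a1 f hf
    · exact Or.inl (NC.symm a3)
    · exact absurd rfl hef
    · exact a2 f hf
    · exact symm _ _ (a1 e he)
    · exact symm _ _ (a2 e he)
    · exact h.pair e (hmem e he) f (hmem f hf) hef
  · -- the parent edge
    have b : ∀ e ∈ edges (x :: z :: y :: t), ∃ e' ∈ edges (x :: y :: t), seg e ⊆ seg e' ∧
        ((e' = e ∧ e ∈ pathEdges (y :: t ++ [x])) ∨ (e' = (x, y) ∧ (e = (x, z) ∨ e = (z, y)))) := by
      intro e he
      rw [edges_insert, List.mem_cons, List.mem_cons] at he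
      rcases he with rfl | rfl | he
      · exact ⟨_, hxy, seg_half1 x y h0.le h1.le, Or.inr ⟨rfl, Or.inl rfl⟩⟩
      · exact ⟨_, hxy, seg_half2 x y h0.le h1.le, Or.inr ⟨rfl, Or.inr rfl⟩⟩
      · exact ⟨e, hmem e he, subset_rfl, Or.inl ⟨rfl, he⟩⟩
    have hno : ∀ e f : R3 × R3, (e = (x, z) ∨ e = (z, y)) → (f = (x, z) ∨ f = (z, y)) →
        ¬ XR e f := by
      rintro e f (rfl | rfl) (rfl | rfl)
      · exact not_xr_self _
      · exact not_xr_halves
      · exact fun h => not_xr_halves (XR.symm h)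
      · exact not_xr_self _
    -- crossing is inherited by the parents
    have c : ∀ e ∈ edges (x :: z :: y :: t), ∀ f ∈ edges (x :: z :: y :: t), XR e f →
        ∀ e' f', ((e' = e ∧ e ∈ pathEdges (y :: t ++ [x])) ∨
          (e' = (x, y) ∧ (e = (x, z) ∨ e = (z, y)))) →
        ((f' = f ∧ f ∈ pathEdges (y :: t ++ [x])) ∨
          (f' = (x, y) ∧ (f = (x, z) ∨ f = (z, y)))) → XR e' f' := by
      rintro e _ f _ hef e' f' (⟨rfl, he⟩ | ⟨rfl, he⟩) (⟨rfl, hf⟩ | ⟨rfl, hf⟩)
      · exact hef
      · rcases hf with rfl | rfl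
        · exact XR.symm (xr_of_half1 h0 h1 (hT _ he) (XR.symm hef))
        · exact XR.symm (xr_of_half2 h0 h1 (hT _ he) (XR.symm hef))
      · rcases he with rfl | rfl
        · exact xr_of_half1 h0 h1 (hT _ hf) hef
        · exact xr_of_half2 h0 h1 (hT _ hf) hef
      · exact absurd hef (hno e f he hf)
    intro e he f hf g hg hef heg hfg
    obtain ⟨e', he', se, te⟩ := b e he
    obtain ⟨f', hf', sf, tf⟩ := b f hf
    obtain ⟨g', hg', sg, tg⟩ := b g hg
    have c1 := c e he f hf hef e' f' te tf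
    have c2 := c e he g hg heg e' g' te tg
    by_cases hfg' : f' = g'
    · -- both halves
      exfalso
      have hfgh : ∀ w, w ∈ pathEdges (y :: t ++ [x]) → XR w (x, z) → XR w (z, y) → False := by
        intro w hw j1 j2
        have j3 := xr_of_half1 h0 h1 (hT _ hw) (XR.symm j1)
        have := ind_split h0 h1 (hT w hw)
        rw [if_pos j3, if_pos (XR.symm j1), if_pos (XR.symm j2)] at this
        omega
      rcases tf with ⟨tf1, tf2⟩ | ⟨tf1, tf2⟩ <;> rcases tg with ⟨tg1, tg2⟩ | ⟨tg1, tg2⟩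
      · exact hfg (by rw [← tf1, ← tg1, hfg'])
      · exact hnm f tf2 (by rw [← tf1, hfg', tg1])
      · exact hnm g tg2 (by rw [← tg1, ← hfg', tf1])
      · rcases te with ⟨te1, te2⟩ | ⟨te1, te2⟩
        · rcases tf2 with rfl | rfl <;> rcases tg2 with rfl | rfl
          · exact hfg rfl
          · exact hfgh e te2 hef heg
          · exact hfgh e te2 heg hef
          · exact hfg rfl
        · exact hno e f te2 tf2 hef
    · have h3 := h.triple e' he' f' hf' g' hg' c1 c2 hfg'
      rw [Set.eq_empty_iff_forall_notMem] at h3 ⊢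
      rintro P ⟨⟨hP1, hP2⟩, hP3⟩
      exact h3 P ⟨⟨Set.image_mono se hP1, Set.image_mono sf hP2⟩, Set.image_mono sg hP3⟩

end Pool.Agent.LinKnot
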